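import Mathlib

set_option autoImplicit false

namespace Pool.Agent.QCube

open Finset

/-- the shifted points of `P` avoid `B` -/
def Ok {I X : Type} [Add X] (P B : Finset (I × X)) (s : I → X) : Prop :=
  ∀ x ∈ P, (x.1, x.2 + s x.1) ∉ B

end Pool.Agent.QCube
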