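import Mathlib
import Pool.Agent.QCube.Defs

set_option autoImplicit false

namespace Pool.Agent.QCube

open Finset

theorem lll_indep {I X : Type} [Fintype I] [DecidableEq I] [Fintype X] [DecidableEq X]
    (T : Finset I) (P Q : (I → X) → Prop) [DecidablePred P] [DecidablePred Q]
    (hP : ∀ s s' : I → X, (∀ i ∈ T, s i = s' i) → (P s ↔ P s'))
    (hQ : ∀ s s' : I → X, (∀ i, i ∉ T → s i = s' i) → (Q s ↔ Q s')) :
    (univ.filter P).card * (univ.filter Q).card =
      (univ.filter (fun s => P s ∧ Q s)).card * Fintype.card (I → X) := by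
  rw [← Finset.card_univ, ← Finset.card_product, ← Finset.card_product]
  let mix : (I → X) → (I → X) → (I → X) := fun s s' i => if i ∈ T then s i else s' i
  have hP' : ∀ s s', P (mix s s') ↔ P s := by
    intro s s'
    apply hP
    intro i hi
    simp only [mix, if_pos hi]
  have hQ' : ∀ s s', Q (mix s s') ↔ Q s' := by
    intro s s'
    apply hQ
    intro i hi
    simp only [mix, if_neg hi]
  have hmm : ∀ s s', mix (mix s s') (mix s' s) = s := by
    intro s s'
    funext i
    by_cases hi : i ∈ T
    · simp [mix, hi]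
    · simp [mix, hi]
  apply Finset.card_nbij' (fun p => (mix p.1 p.2, mix p.2 p.1)) (fun p => (mix p.1 p.2, mix p.2 p.1))
  · intro p hp
    simp only [Finset.coe_product, Finset.coe_filter, Finset.mem_univ, true_and, Set.mem_prod,
      Set.mem_setOf_eq, Finset.coe_univ, Set.mem_univ, and_true] at hp ⊢
    exact ⟨(hP' _ _).2 hp.1, (hQ' _ _).2 hp.2⟩
  · intro p hp
    simp only [Finset.coe_product, Finset.coe_filter, Finset.mem_univ, true_and, Set.mem_prod,
      Set.mem_setOf_eq, Finset.coe_univ, Set.mem_univ, and_true] at hp ⊢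
    exact ⟨(hP' _ _).2 hp.1, (hQ' _ _).2 hp.2⟩
  · intro p _
    simp only [hmm]
  · intro p _
    simp only [hmm]

open Classical in
/-- quantitative symmetric local lemma on a product space (counting form).
Proof: standard induction with x = 2q: for every W' and w ∉ W',
`#{s avoiding all A w' (w' ∈ W'), s ∈ A w} ≤ 2q #{s avoiding all A w', w' ∈ W'}`; uses that `A w` and
the events with disjoint supports are independent (product structure), and
(1-2q)^D ≥ 1 - 2qD ≥ 1/2. -/
theorem lll {I W X : Type} [Fintype I] [DecidableEq I] [Fintype W] [DecidableEq W] [Fintype X]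
    [DecidableEq X] [Nonempty X]
    (A : W → Finset (I → X)) (S : W → Finset I)
    (hdep : ∀ w, ∀ s s' : I → X, (∀ i ∈ S w, s i = s' i) → (s ∈ A w ↔ s' ∈ A w))
    (q : ℝ) (D : ℕ) (hq : 0 ≤ q)
    (hA : ∀ w, ((A w).card : ℝ) ≤ q * (Fintype.card (I → X) : ℝ))
    (hD : ∀ w, (univ.filter (fun w' => w' ≠ w ∧ ¬ Disjoint (S w) (S w'))).card ≤ D)
    (hqD : 4 * q * D ≤ 1) (hq2 : 4 * q ≤ 1) :
    (1 - 2 * q) ^ Fintype.card W * (Fintype.card (I → X) : ℝ) ≤
      ((univ.filter (fun s : I → X => ∀ w, s ∉ A w)).card : ℝ) := by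
  classical
  have hNpos : (0 : ℝ) < (Fintype.card (I → X) : ℝ) := by
    have : 0 < Fintype.card (I → X) := Fintype.card_pos
    exact_mod_cast this
  let Av : Finset W → Finset (I → X) := fun F => univ.filter (fun s => ∀ w ∈ F, s ∉ A w)
  have hAvmem : ∀ F s, s ∈ Av F ↔ ∀ w ∈ F, s ∉ A w := by
    intro F s
    simp only [Av, Finset.mem_filter, Finset.mem_univ, true_and]
  have key : ∀ n : ℕ, ∀ F : Finset W, F.card = n → ∀ w, w ∉ F →
      ((A w ∩ Av F).card : ℝ) ≤ 2 * q * (Av F).card := by
    intro n
    induction n using Nat.strong_induction_on with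
    | _ n ih =>
      intro F hF w hw
      set F1 := F.filter (fun w' => ¬ Disjoint (S w) (S w')) with hF1
      set F2 := F.filter (fun w' => Disjoint (S w) (S w')) with hF2
      have hF1D : F1.card ≤ D := by
        refine le_trans (Finset.card_le_card ?_) (hD w)
        intro w' hw'
        rw [hF1, Finset.mem_filter] at hw'
        rw [Finset.mem_filter]
        refine ⟨Finset.mem_univ _, ?_, hw'.2⟩
        rintro rfl
        exact hw hw'.1
      have hind : ((A w ∩ Av F2).card : ℝ) ≤ q * (Av F2).card := by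
        have h1 := lll_indep (S w) (fun s => s ∈ A w) (fun s => ∀ w' ∈ F2, s ∉ A w')
          (fun s s' h => hdep w s s' h) (by
            intro s s' h
            have : ∀ w' ∈ F2, (s ∈ A w' ↔ s' ∈ A w') := by
              intro w' hw'
              apply hdep
              intro i hi
              apply h
              rw [hF2, Finset.mem_filter] at hw'
              intro hi2
              exact (Finset.disjoint_left.mp hw'.2) hi2 hi
            constructor
            · intro hh w' hw' hs
              exact hh w' hw' ((this w' hw').2 hs)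
            · intro hh w' hw' hs
              exact hh w' hw' ((this w' hw').1 hs))
        have e1 : (univ.filter (fun s => s ∈ A w)) = A w := by
          ext s; simp
        have e2 : (univ.filter (fun s : I → X => s ∈ A w ∧ ∀ w' ∈ F2, s ∉ A w')) = A w ∩ Av F2 := by
          ext s
          rw [Finset.mem_inter, hAvmem]
          simp
        rw [e1, e2] at h1
        have h2 : ((A w).card : ℝ) * ((Av F2).card : ℝ) =
            ((A w ∩ Av F2).card : ℝ) * (Fintype.card (I → X) : ℝ) := by
          exact_mod_cast h1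
        have h3 := hA w
        have h4 : (0 : ℝ) ≤ ((Av F2).card : ℝ) := Nat.cast_nonneg _
        have h5 := mul_le_mul_of_nonneg_right h3 h4
        rw [h2] at h5
        have h6 : ((A w ∩ Av F2).card : ℝ) * (Fintype.card (I → X) : ℝ) ≤
            (q * (Av F2).card) * (Fintype.card (I → X) : ℝ) := by
          calc _ ≤ _ := h5
            _ = _ := by ring
        exact le_of_mul_le_mul_right h6 hNpos
      have hsub : ((A w ∩ Av F).card : ℝ) ≤ ((A w ∩ Av F2).card : ℝ) := by
        have : A w ∩ Av F ⊆ A w ∩ Av F2 := by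
          intro s hs
          rw [Finset.mem_inter, hAvmem] at hs ⊢
          refine ⟨hs.1, fun w' hw' => hs.2 w' ?_⟩
          rw [hF2, Finset.mem_filter] at hw'
          exact hw'.1
        exact_mod_cast Finset.card_le_card this
      have hlow : ((Av F2).card : ℝ) ≤ 2 * (Av F).card := by
        have hcov : Av F2 ⊆ Av F ∪ F1.biUnion (fun w' => A w' ∩ Av F2) := by
          intro s hs
          by_cases h : s ∈ Av F
          · exact Finset.mem_union_left _ h
          · rw [hAvmem] at h
            push Not at h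
            obtain ⟨w', hw', hs'⟩ := h
            apply Finset.mem_union_right
            rw [Finset.mem_biUnion]
            refine ⟨w', ?_, Finset.mem_inter.2 ⟨hs', hs⟩⟩
            rw [hF1, Finset.mem_filter]
            refine ⟨hw', fun hdis => ?_⟩
            rw [hAvmem] at hs
            apply hs w' _ hs'
            rw [hF2, Finset.mem_filter]
            exact ⟨hw', hdis⟩
        have h1 : ((Av F2).card : ℝ) ≤ (Av F).card + ∑ w' ∈ F1, ((A w' ∩ Av F2).card : ℝ) := by
          have h2 := Finset.card_le_card hcov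
          have h3 := Finset.card_union_le (Av F) (F1.biUnion (fun w' => A w' ∩ Av F2))
          have h4 : (F1.biUnion (fun w' => A w' ∩ Av F2)).card ≤ ∑ w' ∈ F1, (A w' ∩ Av F2).card :=
            Finset.card_biUnion_le
          have h5 : (Av F2).card ≤ (Av F).card + ∑ w' ∈ F1, (A w' ∩ Av F2).card := by omega
          exact_mod_cast h5
        have h2 : ∀ w' ∈ F1, ((A w' ∩ Av F2).card : ℝ) ≤ 2 * q * (Av F2).card := by
          intro w' hw'
          have hlt : F2.card < n := by
            rw [← hF]
            apply Finset.card_lt_card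
            rw [Finset.ssubset_iff_of_subset (Finset.filter_subset _ _)]
            rw [hF1, Finset.mem_filter] at hw'
            refine ⟨w', hw'.1, ?_⟩
            rw [Finset.mem_filter]
            exact fun h => hw'.2 h.2
          refine ih F2.card hlt F2 rfl w' ?_
          rw [hF1, Finset.mem_filter] at hw'
          rw [Finset.mem_filter]
          exact fun h => hw'.2 h.2
        have h3 : ∑ w' ∈ F1, ((A w' ∩ Av F2).card : ℝ) ≤ F1.card * (2 * q * (Av F2).card) := by
          have := Finset.sum_le_card_nsmul F1 _ _ h2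
          rw [nsmul_eq_mul] at this
          exact this
        have h4 : (F1.card : ℝ) * (2 * q * (Av F2).card) ≤ D * (2 * q * (Av F2).card) := by
          apply mul_le_mul_of_nonneg_right
          · exact_mod_cast hF1D
          · positivity
        have h5 : (D : ℝ) * (2 * q * (Av F2).card) ≤ (1/2) * (Av F2).card := by
          have h6 : (0 : ℝ) ≤ ((Av F2).card : ℝ) := Nat.cast_nonneg _
          nlinarith
        linarith
      calc ((A w ∩ Av F).card : ℝ) ≤ ((A w ∩ Av F2).card : ℝ) := hsub
        _ ≤ q * (Av F2).card := hind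
        _ ≤ q * (2 * (Av F).card) := mul_le_mul_of_nonneg_left hlow hq
        _ = 2 * q * (Av F).card := by ring
  have fin : ∀ F : Finset W, (1 - 2 * q) ^ F.card * (Fintype.card (I → X) : ℝ) ≤ (Av F).card := by
    intro F
    induction F using Finset.induction_on with
    | empty =>
      have : Av ∅ = univ := by
        ext s; simp [Av]
      rw [this, Finset.card_univ]
      simp
    | insert w F hw ih =>
      rw [Finset.card_insert_of_notMem hw, pow_succ]
      have h1 := key F.card F rfl w hw
      have h2 : Av F = (A w ∩ Av F) ∪ Av (insert w F) := by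
        ext s
        rw [Finset.mem_union, Finset.mem_inter, hAvmem, hAvmem]
        constructor
        · intro h
          by_cases hs : s ∈ A w
          · exact Or.inl ⟨hs, h⟩
          · right
            intro w' hw'
            rw [Finset.mem_insert] at hw'
            rcases hw' with rfl | hw'
            · exact hs
            · exact h w' hw'
        · rintro (h | h)
          · exact h.2
          · intro w' hw'
            exact h w' (Finset.mem_insert_of_mem hw')
      have h3 : ((Av F).card : ℝ) ≤ ((A w ∩ Av F).card : ℝ) + ((Av (insert w F)).card : ℝ) := by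
        have h4 := Finset.card_union_le (A w ∩ Av F) (Av (insert w F))
        rw [← h2] at h4
        exact_mod_cast h4
      have h5 : (0 : ℝ) ≤ 1 - 2 * q := by linarith
      have h6 := mul_le_mul_of_nonneg_left ih h5
      calc (1 - 2 * q) ^ F.card * (1 - 2 * q) * (Fintype.card (I → X) : ℝ)
          = (1 - 2 * q) * ((1 - 2 * q) ^ F.card * (Fintype.card (I → X) : ℝ)) := by ring
        _ ≤ (1 - 2 * q) * (Av F).card := h6
        _ ≤ _ := by linarith
  have h := fin univ
  rw [Finset.card_univ] at h
  have e : Av univ = univ.filter (fun s : I → X => ∀ w, s ∉ A w) := by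
    ext s
    rw [hAvmem]
    simp
  rw [e] at h
  exact h

theorem exp_one {α : Type} [Fintype α] [Nonempty α] (X : α → ℝ) (L : ℝ) (hL0 : 0 ≤ L)
    (h0 : ∑ v, X v = 0) (h : ∀ v v', |X v - X v'| ≤ L) (s : ℝ) :
    ∑ v, Real.exp (s * X v) ≤ (Fintype.card α : ℝ) * Real.exp (s ^ 2 * L ^ 2 / 2) := by
  have hc : 0 < (Fintype.card α : ℝ) := by exact_mod_cast Fintype.card_pos
  have hX : ∀ v, |X v| ≤ L := by
    intro v
    have h1 : (Fintype.card α : ℝ) * X v = ∑ v', (X v - X v') := by
      rw [Finset.sum_sub_distrib, h0, Finset.sum_const, Finset.card_univ, nsmul_eq_mul, sub_zero]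
    have h2 : |(Fintype.card α : ℝ) * X v| ≤ (Fintype.card α : ℝ) * L := by
      rw [h1]
      refine (Finset.abs_sum_le_sum_abs _ _).trans ?_
      refine (Finset.sum_le_sum fun v' _ => h v v').trans (le_of_eq ?_)
      rw [Finset.sum_const, Finset.card_univ, nsmul_eq_mul]
    rw [abs_mul, abs_of_pos hc] at h2
    exact le_of_mul_le_mul_left h2 hc
  rcases hL0.eq_or_lt with hL | hL
  · subst hL
    have hz : ∀ v, X v = 0 := fun v => abs_eq_zero.1 (le_antisymm (hX v) (abs_nonneg _))
    simp [hz]
  have hpt : ∀ v, Real.exp (s * X v) ≤ (L + X v) / (2 * L) * Real.exp (s * L) +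
      (L - X v) / (2 * L) * Real.exp (-(s * L)) := by
    intro v
    have h1 := abs_le.mp (hX v)
    have ha : 0 ≤ (L + X v) / (2 * L) := div_nonneg (by linarith) (by linarith)
    have hb : 0 ≤ (L - X v) / (2 * L) := div_nonneg (by linarith) (by linarith)
    have hab : (L + X v) / (2 * L) + (L - X v) / (2 * L) = 1 := by
      field_simp
      ring
    have h2 := convexOn_exp.2 (Set.mem_univ (s * L)) (Set.mem_univ (-(s * L))) ha hb hab
    simp only [smul_eq_mul] at h2
    have h3 : (L + X v) / (2 * L) * (s * L) + (L - X v) / (2 * L) * (-(s * L)) = s * X v := by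
      field_simp
      ring
    rw [h3] at h2
    exact h2
  calc ∑ v, Real.exp (s * X v) ≤ ∑ v, ((L + X v) / (2 * L) * Real.exp (s * L) +
      (L - X v) / (2 * L) * Real.exp (-(s * L))) := Finset.sum_le_sum fun v _ => hpt v
    _ = ∑ v, ((Real.exp (s * L) + Real.exp (-(s * L))) / 2 +
        (Real.exp (s * L) - Real.exp (-(s * L))) / (2 * L) * X v) := by
        apply Finset.sum_congr rfl
        intro v _
        field_simp
        ring
    _ = (Fintype.card α : ℝ) * Real.cosh (s * L) := by
        rw [Finset.sum_add_distrib, ← Finset.mul_sum, h0, mul_zero, add_zero, Finset.sum_const,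
          Finset.card_univ, nsmul_eq_mul, Real.cosh_eq]
    _ ≤ (Fintype.card α : ℝ) * Real.exp (s ^ 2 * L ^ 2 / 2) := by
        apply mul_le_mul_of_nonneg_left _ hc.le
        refine (Real.cosh_le_exp_half_sq _).trans (le_of_eq ?_)
        congr 1
        ring

theorem exp_fin {α : Type} [Fintype α] [Nonempty α] (s : ℝ) :
    ∀ (n : ℕ) (c : Fin n → ℝ) (_ : ∀ i, 0 ≤ c i) (f : (Fin n → α) → ℝ),
      (∀ i w w', (∀ j, j ≠ i → w j = w' j) → |f w - f w'| ≤ c i) →
      ∑ w, Real.exp (s * (f w - (∑ w', f w') / (Fintype.card α : ℝ) ^ n)) ≤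
        (Fintype.card α : ℝ) ^ n * Real.exp (s ^ 2 * (∑ i, c i ^ 2) / 2) := by
  intro n
  have hcα : 0 < (Fintype.card α : ℝ) := by exact_mod_cast Fintype.card_pos
  induction n with
  | zero =>
    intro c _ f _
    simp
  | succ n ih =>
    intro c hc0 f hf
    set q : ℝ := (Fintype.card α : ℝ) with hqdef
    let g : (Fin n → α) → ℝ := fun w => (∑ a, f (Fin.cons a w)) / q
    have hsum : ∀ F : (Fin (n + 1) → α) → ℝ, ∑ w, F w = ∑ w : Fin n → α, ∑ a, F (Fin.cons a w) := by
      intro F
      rw [← (Fin.consEquiv (fun _ : Fin (n + 1) => α)).sum_comp, Fintype.sum_prod_type,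
        Finset.sum_comm]
      rfl
    have hg : (∑ w', f w') / q ^ (n + 1) = (∑ w', g w') / q ^ n := by
      rw [hsum f]
      simp only [g]
      rw [← Finset.sum_div, pow_succ, div_div, mul_comm]
    have hgd : ∀ i w w', (∀ j, j ≠ i → w j = w' j) → |g w - g w'| ≤ c i.succ := by
      intro i w w' hw
      simp only [g]
      rw [← sub_div, ← Finset.sum_sub_distrib, abs_div, abs_of_pos hcα, div_le_iff₀ hcα]
      refine (Finset.abs_sum_le_sum_abs _ _).trans ?_
      calc ∑ a, |f (Fin.cons a w) - f (Fin.cons a w')|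
          ≤ ∑ _a : α, c i.succ := by
            apply Finset.sum_le_sum
            intro a _
            apply hf
            intro j hj
            refine Fin.cases ?_ (fun j' => ?_) j hj
            · intro _; simp
            · intro hj'
              simp only [Fin.cons_succ]
              exact hw j' (fun h => hj' (by rw [h]))
        _ = c i.succ * q := by
            rw [Finset.sum_const, Finset.card_univ, nsmul_eq_mul, hqdef]
            ring
    have hone : ∀ w : Fin n → α, ∑ a, Real.exp (s * (f (Fin.cons a w) - g w)) ≤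
        q * Real.exp (s ^ 2 * c 0 ^ 2 / 2) := by
      intro w
      apply exp_one (fun a => f (Fin.cons a w) - g w) (c 0) (hc0 0)
      · rw [Finset.sum_sub_distrib, Finset.sum_const, Finset.card_univ, nsmul_eq_mul]
        simp only [g]
        rw [← hqdef]
        field_simp
        ring
      · intro v v'
        have h1 := hf 0 (Fin.cons v w) (Fin.cons v' w) (by
          intro j hj
          refine Fin.cases ?_ (fun j' => ?_) j hj
          · intro h; exact absurd rfl h
          · intro _; simp)
        have h2 : f (Fin.cons v w) - g w - (f (Fin.cons v' w) - g w) =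
          f (Fin.cons v w) - f (Fin.cons v' w) := by ring
        rw [h2]
        exact h1
    rw [hsum, hg]
    calc ∑ w : Fin n → α, ∑ a, Real.exp (s * (f (Fin.cons a w) - (∑ w', g w') / q ^ n))
        = ∑ w : Fin n → α, Real.exp (s * (g w - (∑ w', g w') / q ^ n)) *
            ∑ a, Real.exp (s * (f (Fin.cons a w) - g w)) := by
          apply Finset.sum_congr rfl
          intro w _
          rw [Finset.mul_sum]
          apply Finset.sum_congr rfl
          intro a _
          rw [← Real.exp_add]
          congr 1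
          ring
      _ ≤ ∑ w : Fin n → α, Real.exp (s * (g w - (∑ w', g w') / q ^ n)) *
            (q * Real.exp (s ^ 2 * c 0 ^ 2 / 2)) :=
          Finset.sum_le_sum fun w _ => mul_le_mul_of_nonneg_left (hone w) (Real.exp_pos _).le
      _ = (∑ w : Fin n → α, Real.exp (s * (g w - (∑ w', g w') / q ^ n))) *
            (q * Real.exp (s ^ 2 * c 0 ^ 2 / 2)) := by rw [Finset.sum_mul]
      _ ≤ (q ^ n * Real.exp (s ^ 2 * (∑ i : Fin n, c i.succ ^ 2) / 2)) *
            (q * Real.exp (s ^ 2 * c 0 ^ 2 / 2)) := by
          apply mul_le_mul_of_nonneg_right (ih (fun i => c i.succ) (fun i => hc0 _) g hgd)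
          exact mul_nonneg hcα.le (Real.exp_pos _).le
      _ = q ^ (n + 1) * (Real.exp (s ^ 2 * (∑ i : Fin n, c i.succ ^ 2) / 2) *
            Real.exp (s ^ 2 * c 0 ^ 2 / 2)) := by
          ring
      _ = q ^ (n + 1) * Real.exp (s ^ 2 * (∑ i, c i ^ 2) / 2) := by
          rw [← Real.exp_add, Fin.sum_univ_succ]
          congr 2
          ring

theorem exp_all {I X : Type} [Fintype I] [DecidableEq I] [Fintype X] [DecidableEq X] [Nonempty X]
    (f : (I → X) → ℝ) (c : I → ℝ) (hc : ∀ i, 0 ≤ c i)
    (hf : ∀ i, ∀ s s' : I → X, (∀ j, j ≠ i → s j = s' j) → |f s - f s'| ≤ c i) (r : ℝ) :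
    ∑ s, Real.exp (r * (f s - (∑ s', f s') / (Fintype.card (I → X) : ℝ))) ≤
      (Fintype.card (I → X) : ℝ) * Real.exp (r ^ 2 * (∑ i, c i ^ 2) / 2) := by
  let n := Fintype.card I
  let e : I ≃ Fin n := Fintype.equivFin I
  let Φ : (Fin n → X) ≃ (I → X) := Equiv.arrowCongr e.symm (Equiv.refl X)
  have hΦ : ∀ w i, Φ w i = w (e i) := fun w i => rfl
  have hcard : (Fintype.card (I → X) : ℝ) = (Fintype.card X : ℝ) ^ n := by
    rw [← Fintype.card_congr Φ, Fintype.card_fun, Fintype.card_fin]
    push_cast
    rfl
  have h1 := exp_fin (α := X) r n (fun i => c (e.symm i)) (fun i => hc _) (fun w => f (Φ w)) (by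
    intro i w w' hw
    apply hf (e.symm i)
    intro j hj
    rw [hΦ, hΦ]
    apply hw
    intro h
    apply hj
    rw [← h]
    simp)
  have h2 : ∑ w, f (Φ w) = ∑ s, f s := Φ.sum_comp f
  have h3 : ∑ i : Fin n, c (e.symm i) ^ 2 = ∑ i, c i ^ 2 := e.symm.sum_comp (fun i => c i ^ 2)
  rw [h2, h3] at h1
  have h4 := Φ.sum_comp (fun s => Real.exp (r * (f s - (∑ s', f s') / (Fintype.card X : ℝ) ^ n)))
  rw [h4] at h1
  rw [hcard]
  exact h1

open Classical in
/-- McDiarmid / Azuma, upper tail -/
theorem mcd_upper {I X : Type} [Fintype I] [DecidableEq I] [Fintype X] [DecidableEq X] [Nonempty X]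
    (f : (I → X) → ℝ) (c : I → ℝ) (hc : ∀ i, 0 ≤ c i)
    (hf : ∀ i, ∀ s s' : I → X, (∀ j, j ≠ i → s j = s' j) → |f s - f s'| ≤ c i)
    (V t : ℝ) (hV : ∑ i, c i ^ 2 ≤ V) (hV0 : 0 < V) (ht : 0 ≤ t) :
    ((univ.filter (fun s : I → X =>
        (∑ s', f s') / (Fintype.card (I → X) : ℝ) + t ≤ f s)).card : ℝ) ≤
      Real.exp (-(t ^ 2) / (2 * V)) * (Fintype.card (I → X) : ℝ) := by
  have hN : 0 < (Fintype.card (I → X) : ℝ) := by exact_mod_cast Fintype.card_pos
  obtain ⟨r, hr⟩ : ∃ r : ℝ, r = t / V := ⟨_, rfl⟩
  have hr0 : 0 ≤ r := by rw [hr]; positivity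
  obtain ⟨A, hA⟩ : ∃ A : ℝ, A = (∑ s', f s') / (Fintype.card (I → X) : ℝ) := ⟨_, rfl⟩
  rw [← hA]
  have h1 := exp_all f c hc hf r
  rw [← hA] at h1
  have h2 : ((univ.filter (fun s : I → X => A + t ≤ f s)).card : ℝ) ≤
      ∑ s, Real.exp (r * (f s - A)) * Real.exp (-(r * t)) := by
    rw [Finset.card_eq_sum_ones, Nat.cast_sum]
    calc ∑ s ∈ univ.filter (fun s : I → X => A + t ≤ f s), ((1 : ℕ) : ℝ)
        ≤ ∑ s ∈ univ.filter (fun s : I → X => A + t ≤ f s),
            Real.exp (r * (f s - A)) * Real.exp (-(r * t)) := by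
          apply Finset.sum_le_sum
          intro s hs
          rw [← Real.exp_add, Nat.cast_one]
          apply Real.one_le_exp
          have h3 := (Finset.mem_filter.1 hs).2
          nlinarith [mul_nonneg hr0 (sub_nonneg.2 h3)]
      _ ≤ _ := Finset.sum_le_sum_of_subset_of_nonneg (Finset.filter_subset _ _)
          (fun s _ _ => by positivity)
  rw [← Finset.sum_mul] at h2
  refine h2.trans ?_
  have h5 : Real.exp (r ^ 2 * (∑ i, c i ^ 2) / 2) ≤ Real.exp (r ^ 2 * V / 2) := by
    apply Real.exp_le_exp.2
    have := mul_le_mul_of_nonneg_left hV (sq_nonneg r)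
    linarith
  calc (∑ s, Real.exp (r * (f s - A))) * Real.exp (-(r * t))
      ≤ ((Fintype.card (I → X) : ℝ) * Real.exp (r ^ 2 * V / 2)) * Real.exp (-(r * t)) := by
        apply mul_le_mul_of_nonneg_right _ (Real.exp_pos _).le
        exact h1.trans (mul_le_mul_of_nonneg_left h5 hN.le)
    _ = (Real.exp (r ^ 2 * V / 2) * Real.exp (-(r * t))) * (Fintype.card (I → X) : ℝ) := by ring
    _ = Real.exp (-(t ^ 2) / (2 * V)) * (Fintype.card (I → X) : ℝ) := by
        rw [← Real.exp_add]
        congr 2
        rw [hr]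
        field_simp
        ring

open Classical in
/-- lower tail -/
theorem mcd_lower {I X : Type} [Fintype I] [DecidableEq I] [Fintype X] [DecidableEq X] [Nonempty X]
    (f : (I → X) → ℝ) (c : I → ℝ) (hc : ∀ i, 0 ≤ c i)
    (hf : ∀ i, ∀ s s' : I → X, (∀ j, j ≠ i → s j = s' j) → |f s - f s'| ≤ c i)
    (V t : ℝ) (hV : ∑ i, c i ^ 2 ≤ V) (hV0 : 0 < V) (ht : 0 ≤ t) :
    ((univ.filter (fun s : I → X =>
        f s ≤ (∑ s', f s') / (Fintype.card (I → X) : ℝ) - t)).card : ℝ) ≤
      Real.exp (-(t ^ 2) / (2 * V)) * (Fintype.card (I → X) : ℝ) := by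
  have h := mcd_upper (fun s => - f s) c hc (by
    intro i s s' hs
    have := hf i s s' hs
    rw [abs_sub_comm] at this
    have e : - f s - - f s' = f s' - f s := by ring
    rw [e]; exact this) V t hV hV0 ht
  refine le_trans (le_of_eq ?_) h
  congr 2
  ext s
  simp only [Finset.mem_filter, Finset.mem_univ, true_and, Finset.sum_neg_distrib, neg_div]
  constructor
  · intro h; linarith
  · intro h; linarith

open Classical in
/-- probability of avoiding a set which is sparse in every block -/
theorem avoid_prob {I X : Type} [Fintype I] [DecidableEq I] [Fintype X] [DecidableEq X]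
    [AddCommGroup X] (P B : Finset (I × X)) (n : ℕ) (κ : ℝ) (hκ0 : 0 ≤ κ) (hκ1 : κ ≤ 1)
    (hPn : P.card ≤ n) (hPi : ∀ x ∈ P, ∀ y ∈ P, x.1 = y.1 → x = y)
    (hB : ∀ i, ((univ.filter (fun j : X => (i, j) ∈ B)).card : ℝ) ≤ κ * (Fintype.card X : ℝ)) :
    (1 - κ) ^ n * (Fintype.card (I → X) : ℝ) ≤
      ((univ.filter (fun s : I → X => Ok P B s)).card : ℝ) := by
  set S : I → Finset X := fun i => univ.filter (fun g : X => ∀ j, (i, j) ∈ P → (i, j + g) ∉ B)
    with hSdef
  have hfil : (univ.filter (fun s : I → X => Ok P B s)) = Fintype.piFinset S := by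
    ext s
    rw [Fintype.mem_piFinset, mem_filter]
    constructor
    · rintro ⟨-, h⟩ i
      rw [hSdef]
      rw [mem_filter]
      exact ⟨mem_univ _, fun j hj => h (i, j) hj⟩
    · intro h
      refine ⟨mem_univ _, ?_⟩
      rintro ⟨i, j⟩ hx
      have := h i
      rw [hSdef] at this
      exact (mem_filter.mp this).2 j hx
  have hS : ∀ i, (if i ∈ P.image Prod.fst then (1 - κ) else 1) * (Fintype.card X : ℝ) ≤
      ((S i).card : ℝ) := by
    intro i
    split_ifs with h
    · obtain ⟨x, hx, rfl⟩ := mem_image.mp h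
      have h1 : S x.1 = univ.filter (fun g : X => ¬ ((x.1, x.2 + g) ∈ B)) := by
        ext g
        rw [hSdef, mem_filter, mem_filter]
        constructor
        · rintro ⟨h1, h2⟩
          exact ⟨h1, h2 x.2 hx⟩
        · rintro ⟨h1, h2⟩
          refine ⟨h1, fun j hj => ?_⟩
          have h3 := hPi _ hj _ hx rfl
          have h4 : j = x.2 := congrArg Prod.snd h3
          rw [h4]; exact h2
      have h2 : (univ.filter (fun g : X => (x.1, x.2 + g) ∈ B)).card =
          (univ.filter (fun j : X => (x.1, j) ∈ B)).card := by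
        refine Finset.card_bij (fun g _ => x.2 + g) ?_ ?_ ?_
        · intro g hg
          rw [mem_filter] at hg ⊢
          exact ⟨mem_univ _, hg.2⟩
        · intro g _ g' _ hgg
          exact add_left_cancel hgg
        · intro j hj
          refine ⟨j - x.2, ?_, by abel⟩
          rw [mem_filter] at hj ⊢
          refine ⟨mem_univ _, ?_⟩
          have : x.2 + (j - x.2) = j := by abel
          rw [this]; exact hj.2
      have h3 := Finset.card_filter_add_card_filter_not (s := (univ : Finset X))
        (fun g : X => (x.1, x.2 + g) ∈ B)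
      rw [← h1, h2, card_univ] at h3
      have h4 : ((univ.filter (fun j : X => (x.1, j) ∈ B)).card : ℝ) + ((S x.1).card : ℝ) =
          (Fintype.card X : ℝ) := by exact_mod_cast h3
      have h5 := hB x.1
      nlinarith
    · have h1 : S i = univ := by
        rw [hSdef]
        refine filter_true_of_mem ?_
        intro g _ j hj
        exact absurd (mem_image.mpr ⟨(i, j), hj, rfl⟩) h
      rw [h1, card_univ, one_mul]
  have hprod : ((Fintype.piFinset S).card : ℝ) = ∏ i, ((S i).card : ℝ) := by
    rw [Fintype.card_piFinset]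
    push_cast
    rfl
  have hc1 : 0 ≤ 1 - κ := by linarith
  have hle : ∏ i : I, ((if i ∈ P.image Prod.fst then (1 - κ) else 1) * (Fintype.card X : ℝ)) ≤
      ∏ i, ((S i).card : ℝ) := by
    refine Finset.prod_le_prod (fun i _ => ?_) (fun i _ => hS i)
    split_ifs <;> positivity
  have hcard : (P.image Prod.fst).card ≤ n := le_trans card_image_le hPn
  have heq : ∏ i : I, ((if i ∈ P.image Prod.fst then (1 - κ) else 1) * (Fintype.card X : ℝ)) =
      (1 - κ) ^ (P.image Prod.fst).card * (Fintype.card (I → X) : ℝ) := by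
    rw [Finset.prod_mul_distrib, Finset.prod_ite_mem, univ_inter, prod_const, prod_const,
      Fintype.card_fun, card_univ, Nat.cast_pow]
  rw [hfil, hprod]
  refine le_trans ?_ hle
  rw [heq]
  refine mul_le_mul_of_nonneg_right ?_ (by positivity)
  exact pow_le_pow_of_le_one hc1 (by linarith) hcard

open Classical in
/-- Hall type lemma -/
theorem hall_lemma {O R : Type} [Fintype O] [Fintype R] [DecidableEq O] [DecidableEq R]
    (h : ℕ) (hO : Fintype.card O = h) (hR : Fintype.card R = h) (hh : 0 < h) (adj : O → R → Prop)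
    (d : ℝ) (hd : 0 < d)
    (h1 : ∀ w, d ≤ ((univ.filter (fun v => adj w v)).card : ℝ))
    (h2 : ∀ v, d ≤ ((univ.filter (fun w => adj w v)).card : ℝ))
    (h3 : ∀ T : Finset R, d ≤ (T.card : ℝ) →
      ((univ.filter (fun w => ∀ v ∈ T, ¬ adj w v)).card : ℝ) < d) :
    ∃ φ : O → R, Function.Injective φ ∧ ∀ w, adj w (φ w) := by
  let t : O → Finset R := fun w => univ.filter (fun v => adj w v)
  have key : ∀ S : Finset O, S.card ≤ (S.biUnion t).card := by
    intro S
    by_contra hcon
    rw [not_le] at hcon
    have hSne : S.Nonempty := by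
      rw [← Finset.card_pos]; omega
    obtain ⟨w0, hw0⟩ := hSne
    have hN : d ≤ ((S.biUnion t).card : ℝ) := by
      refine (h1 w0).trans ?_
      have : (univ.filter (fun v => adj w0 v)) ⊆ S.biUnion t :=
        Finset.subset_biUnion_of_mem t hw0
      exact_mod_cast Finset.card_le_card this
    have hSh : S.card ≤ h := by rw [← hO]; exact Finset.card_le_univ S
    have hT : (univ \ (S.biUnion t)).card + (S.biUnion t).card = h := by
      rw [← hR, Finset.card_sdiff_add_card_eq_card (Finset.subset_univ _), Finset.card_univ]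
    have hTne : (univ \ (S.biUnion t)).Nonempty := by
      rw [← Finset.card_pos]; omega
    obtain ⟨v0, hv0⟩ := hTne
    have hS' : (univ \ S).card + S.card = h := by
      rw [← hO, Finset.card_sdiff_add_card_eq_card (Finset.subset_univ _), Finset.card_univ]
    have hd2 : d ≤ ((univ \ S).card : ℝ) := by
      refine (h2 v0).trans ?_
      have : (univ.filter (fun w => adj w v0)) ⊆ univ \ S := by
        intro w hw
        have hw' : adj w v0 := (Finset.mem_filter.mp hw).2
        refine Finset.mem_sdiff.mpr ⟨Finset.mem_univ _, fun hwS => ?_⟩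
        apply (Finset.mem_sdiff.mp hv0).2
        exact Finset.mem_biUnion.mpr ⟨w, hwS, Finset.mem_filter.mpr ⟨Finset.mem_univ _, hw'⟩⟩
      exact_mod_cast Finset.card_le_card this
    have hd3 : d ≤ ((univ \ (S.biUnion t)).card : ℝ) := by
      refine hd2.trans ?_
      have : (univ \ S).card ≤ (univ \ (S.biUnion t)).card := by omega
      exact_mod_cast this
    have h4 := h3 _ hd3
    have h5 : S ⊆ univ.filter (fun w => ∀ v ∈ (univ \ (S.biUnion t)), ¬ adj w v) := by
      intro w hw
      refine Finset.mem_filter.mpr ⟨Finset.mem_univ _, fun v hv hadj => ?_⟩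
      apply (Finset.mem_sdiff.mp hv).2
      exact Finset.mem_biUnion.mpr ⟨w, hw, Finset.mem_filter.mpr ⟨Finset.mem_univ _, hadj⟩⟩
    have h6 : (S.card : ℝ) ≤ ((univ.filter (fun w => ∀ v ∈ (univ \ (S.biUnion t)), ¬ adj w v)).card : ℝ) := by
      exact_mod_cast Finset.card_le_card h5
    have h7 : ((S.biUnion t).card : ℝ) < S.card := by exact_mod_cast hcon
    linarith
  obtain ⟨φ, hφ, hφ'⟩ := (Finset.all_card_le_biUnion_card_iff_exists_injective t).1 key
  exact ⟨φ, hφ, fun w => (Finset.mem_filter.mp (hφ' w)).2⟩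

end Pool.Agent.QCube
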