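import Mathlib
import Pool.Agent.QCube.Lll

set_option autoImplicit false

namespace Pool.Agent.QCube

open Finset

open Classical in
theorem cand_conc_diff {I R X : Type} [Fintype I] [DecidableEq I] [Fintype R] [DecidableEq R]
    [Fintype X] [DecidableEq X] [AddCommGroup X] (P : Finset (I × X)) (H : R → Finset (I × X))
    (a : ℝ) (hPi : ∀ x ∈ P, ∀ y ∈ P, x.1 = y.1 → x = y)
    (hH2 : ∀ x : I × X, ((univ.filter (fun v => x ∈ H v)).card : ℝ) ≤ a)
    (T : Finset R) (i : I) (x : I × X) (hx : x ∈ P) (hxi : x.1 = i) (s s' : I → X)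
    (hs : ∀ j, j ≠ i → s j = s' j) :
    ((T.filter (fun v => Ok P (H v) s)).card : ℝ) ≤
      ((T.filter (fun v => Ok P (H v) s')).card : ℝ) + a := by
  have h1 : T.filter (fun v => Ok P (H v) s) ⊆ T.filter (fun v => Ok P (H v) s') ∪
      univ.filter (fun v => (i, x.2 + s' i) ∈ H v) := by
    intro v hv
    rw [mem_filter] at hv
    rw [mem_union, mem_filter, mem_filter]
    by_cases h : Ok P (H v) s'
    · exact Or.inl ⟨hv.1, h⟩
    · right
      refine ⟨mem_univ _, ?_⟩
      unfold Ok at h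
      push Not at h
      obtain ⟨y, hy, hyv⟩ := h
      by_cases hyi : y.1 = i
      · have hxy : y = x := hPi y hy x hx (by rw [hyi, hxi])
        rw [hxy, hxi] at hyv
        exact hyv
      · exfalso
        rw [← hs _ hyi] at hyv
        exact hv.2 y hy hyv
  have h2 := (card_le_card h1).trans (card_union_le _ _)
  have h3 : ((T.filter (fun v => Ok P (H v) s)).card : ℝ) ≤
      ((T.filter (fun v => Ok P (H v) s')).card : ℝ) +
        ((univ.filter (fun v => (i, x.2 + s' i) ∈ H v)).card : ℝ) := by exact_mod_cast h2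
  linarith [hH2 (i, x.2 + s' i)]

open Classical in
theorem cand_conc {I R X : Type} [Fintype I] [DecidableEq I] [Fintype R] [DecidableEq R]
    [Fintype X] [DecidableEq X] [AddCommGroup X] (P : Finset (I × X)) (H : R → Finset (I × X))
    (n : ℕ) (hn : 1 ≤ n) (κ a p : ℝ) (hκ0 : 0 ≤ κ) (hκ1 : κ ≤ 1) (ha : 0 < a) (hp0 : 0 < p)
    (hp : p ≤ (1 - κ) ^ n)
    (hPn : P.card ≤ n) (hPi : ∀ x ∈ P, ∀ y ∈ P, x.1 = y.1 → x = y)
    (hH1 : ∀ v i, ((univ.filter (fun j : X => (i, j) ∈ H v)).card : ℝ) ≤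
      κ * (Fintype.card X : ℝ))
    (hH2 : ∀ x : I × X, ((univ.filter (fun v => x ∈ H v)).card : ℝ) ≤ a)
    (T : Finset R) :
    ((univ.filter (fun s : I → X =>
        ((T.filter (fun v => Ok P (H v) s)).card : ℝ) ≤ p * (T.card : ℝ) / 2)).card : ℝ) ≤
      Real.exp (-(p * (T.card : ℝ)) ^ 2 / (8 * n * a ^ 2)) * (Fintype.card (I → X) : ℝ) := by
  have : Nonempty X := ⟨0⟩
  have hnR : (0 : ℝ) < n := by exact_mod_cast hn
  have hT0 : (0 : ℝ) ≤ T.card := Nat.cast_nonneg _
  have hcard : (0 : ℝ) < (Fintype.card (I → X) : ℝ) := by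
    exact_mod_cast Fintype.card_pos
  let f : (I → X) → ℝ := fun s => ((T.filter (fun v => Ok P (H v) s)).card : ℝ)
  let c : I → ℝ := fun i => if i ∈ P.image Prod.fst then a else 0
  have hc : ∀ i, 0 ≤ c i := by
    intro i
    show 0 ≤ if i ∈ P.image Prod.fst then a else 0
    split_ifs
    · exact ha.le
    · exact le_refl 0
  have hf : ∀ i, ∀ s s' : I → X, (∀ j, j ≠ i → s j = s' j) → |f s - f s'| ≤ c i := by
    intro i s s' hs
    by_cases hi : i ∈ P.image Prod.fst
    · have hci : c i = a := if_pos hi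
      rw [hci]
      rw [mem_image] at hi
      obtain ⟨x, hx, hxi⟩ := hi
      have g1 := cand_conc_diff P H a hPi hH2 T i x hx hxi s s' hs
      have g2 := cand_conc_diff P H a hPi hH2 T i x hx hxi s' s (fun j hj => (hs j hj).symm)
      rw [abs_le]
      constructor
      · show -a ≤ ((T.filter (fun v => Ok P (H v) s)).card : ℝ) -
          ((T.filter (fun v => Ok P (H v) s')).card : ℝ)
        linarith
      · show ((T.filter (fun v => Ok P (H v) s)).card : ℝ) -
          ((T.filter (fun v => Ok P (H v) s')).card : ℝ) ≤ a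
        linarith
    · have hci : c i = 0 := if_neg hi
      have hOk : ∀ v, Ok P (H v) s ↔ Ok P (H v) s' := by
        intro v
        unfold Ok
        refine forall₂_congr fun x hx => ?_
        have : x.1 ≠ i := by
          rintro rfl
          exact hi (mem_image_of_mem _ hx)
        rw [hs _ this]
      have hff : f s = f s' := by
        show ((T.filter (fun v => Ok P (H v) s)).card : ℝ) =
          ((T.filter (fun v => Ok P (H v) s')).card : ℝ)
        rw [filter_congr (fun v _ => hOk v)]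
      rw [hci, hff, sub_self, abs_zero]
  have hV : ∑ i, c i ^ 2 ≤ n * a ^ 2 := by
    have h1 : ∀ i, c i ^ 2 = if i ∈ P.image Prod.fst then a ^ 2 else 0 := by
      intro i
      show (if i ∈ P.image Prod.fst then a else 0) ^ 2 = _
      split_ifs
      · rfl
      · norm_num
    simp only [h1]
    rw [Finset.sum_ite_mem, univ_inter, sum_const, nsmul_eq_mul]
    apply mul_le_mul_of_nonneg_right _ (sq_nonneg a)
    exact_mod_cast card_image_le.trans hPn
  have hmean : p * (T.card : ℝ) ≤ (∑ s', f s') / (Fintype.card (I → X) : ℝ) := by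
    rw [le_div_iff₀ hcard]
    have h1 : ∑ s', f s' = ∑ v ∈ T, ((univ.filter (fun s : I → X => Ok P (H v) s)).card : ℝ) := by
      show ∑ s' : I → X, ((T.filter (fun v => Ok P (H v) s')).card : ℝ) = _
      simp only [card_filter, Nat.cast_sum]
      exact Finset.sum_comm
    rw [h1]
    have h2 : ∀ v ∈ T, p * (Fintype.card (I → X) : ℝ) ≤
        ((univ.filter (fun s : I → X => Ok P (H v) s)).card : ℝ) := by
      intro v _
      refine le_trans ?_ (avoid_prob P (H v) n κ hκ0 hκ1 hPn hPi (hH1 v))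
      exact mul_le_mul_of_nonneg_right hp hcard.le
    have h3 := Finset.sum_le_sum h2
    rw [sum_const, nsmul_eq_mul] at h3
    linarith
  have key := mcd_lower f c hc hf (n * a ^ 2) (p * (T.card : ℝ) / 2) hV (by positivity)
    (by positivity)
  have hsub : (univ.filter (fun s : I → X => f s ≤ p * (T.card : ℝ) / 2)) ⊆
      (univ.filter (fun s : I → X =>
        f s ≤ (∑ s', f s') / (Fintype.card (I → X) : ℝ) - p * (T.card : ℝ) / 2)) := by
    intro s hs
    rw [mem_filter] at hs ⊢
    exact ⟨hs.1, by linarith [hs.2]⟩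
  have h4 : ((univ.filter (fun s : I → X => f s ≤ p * (T.card : ℝ) / 2)).card : ℝ) ≤
      ((univ.filter (fun s : I → X =>
        f s ≤ (∑ s', f s') / (Fintype.card (I → X) : ℝ) - p * (T.card : ℝ) / 2)).card : ℝ) := by
    exact_mod_cast card_le_card hsub
  have h5 : -((p * (T.card : ℝ) / 2) ^ 2) / (2 * (n * a ^ 2)) =
      -(p * (T.card : ℝ)) ^ 2 / (8 * n * a ^ 2) := by
    rw [div_pow, div_eq_div_iff (by positivity) (by positivity)]
    ring
  rw [← h5]
  exact h4.trans key

open Classical in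
theorem deg_conc {I O X : Type} [Fintype I] [DecidableEq I] [Nonempty I] [Fintype O] [DecidableEq O]
    [Fintype X] [DecidableEq X] [AddCommGroup X] (P : O → Finset (I × X)) (B : Finset (I × X))
    (n : ℕ) (κ e p : ℝ) (hκ0 : 0 ≤ κ) (hκ1 : κ ≤ 1) (he : 0 < e) (hp0 : 0 < p)
    (hp : p ≤ (1 - κ) ^ n)
    (hPn : ∀ w, (P w).card ≤ n) (hPi : ∀ w, ∀ x ∈ P w, ∀ y ∈ P w, x.1 = y.1 → x = y)
    (hhit : ∀ i, ((univ.filter (fun w => ∃ x ∈ P w, x.1 = i)).card : ℝ) ≤ e)
    (hB : ∀ i, ((univ.filter (fun j : X => (i, j) ∈ B)).card : ℝ) ≤ κ * (Fintype.card X : ℝ)) :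
    ((univ.filter (fun s : I → X =>
        ((univ.filter (fun w => Ok (P w) B s)).card : ℝ) ≤ p * (Fintype.card O : ℝ) / 2)).card : ℝ) ≤
      Real.exp (-(p * (Fintype.card O : ℝ)) ^ 2 / (8 * (Fintype.card I : ℝ) * e ^ 2)) *
        (Fintype.card (I → X) : ℝ) := by
  haveI : Nonempty X := ⟨0⟩
  obtain ⟨f, hfdef⟩ : ∃ f : (I → X) → ℝ, f = fun s =>
      ((univ.filter (fun w => Ok (P w) B s)).card : ℝ) := ⟨_, rfl⟩
  have hI : (0:ℝ) < Fintype.card I := by exact_mod_cast Fintype.card_pos
  have hN : (0:ℝ) < Fintype.card (I → X) := by exact_mod_cast Fintype.card_pos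
  have hlip : ∀ i, ∀ s s' : I → X, (∀ j, j ≠ i → s j = s' j) → f s - f s' ≤ e := by
    intro i s s' h
    have hsub : (univ.filter (fun w => Ok (P w) B s)) ⊆
        (univ.filter (fun w => Ok (P w) B s')) ∪ (univ.filter (fun w => ∃ x ∈ P w, x.1 = i)) := by
      intro w hw
      rw [mem_union, mem_filter, mem_filter]
      by_cases hx : ∃ x ∈ P w, x.1 = i
      · right
        exact ⟨mem_univ _, hx⟩
      · left
        refine ⟨mem_univ _, ?_⟩
        intro x hxP
        have hne : x.1 ≠ i := fun h' => hx ⟨x, hxP, h'⟩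
        rw [← h x.1 hne]
        exact (mem_filter.1 hw).2 x hxP
    have h1 := card_le_card hsub
    have h2 := card_union_le (univ.filter (fun w => Ok (P w) B s'))
      (univ.filter (fun w => ∃ x ∈ P w, x.1 = i))
    have h3 := hhit i
    have h4 : f s ≤ f s' + ((univ.filter (fun w => ∃ x ∈ P w, x.1 = i)).card : ℝ) := by
      rw [hfdef]
      show ((univ.filter (fun w => Ok (P w) B s)).card : ℝ) ≤
        ((univ.filter (fun w => Ok (P w) B s')).card : ℝ) + _
      exact_mod_cast h1.trans h2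
    linarith
  have hlip' : ∀ i, ∀ s s' : I → X, (∀ j, j ≠ i → s j = s' j) → |f s - f s'| ≤ e := by
    intro i s s' h
    rw [abs_le]
    have h1 := hlip i s s' h
    have h2 := hlip i s' s (fun j hj => (h j hj).symm)
    constructor <;> linarith
  have hsum : p * (Fintype.card O : ℝ) * (Fintype.card (I → X) : ℝ) ≤ ∑ s, f s := by
    have e1 : ∑ s, f s = ∑ w : O, ((univ.filter (fun s : I → X => Ok (P w) B s)).card : ℝ) := by
      simp only [hfdef, Finset.card_filter, Nat.cast_sum]
      rw [Finset.sum_comm]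
    rw [e1]
    calc p * (Fintype.card O : ℝ) * (Fintype.card (I → X) : ℝ)
        = ∑ w : O, p * (Fintype.card (I → X) : ℝ) := by
          rw [Finset.sum_const, Finset.card_univ, nsmul_eq_mul]
          ring
      _ ≤ _ := Finset.sum_le_sum fun w _ =>
          le_trans (mul_le_mul_of_nonneg_right hp hN.le)
            (avoid_prob (P w) B n κ hκ0 hκ1 (hPn w) (hPi w) hB)
  have hmean : p * (Fintype.card O : ℝ) ≤ (∑ s', f s') / (Fintype.card (I → X) : ℝ) := by
    rw [le_div_iff₀ hN]
    exact hsum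
  have hO : (0:ℝ) ≤ Fintype.card O := by positivity
  have key := mcd_lower f (fun _ => e) (fun _ => he.le) hlip'
    ((Fintype.card I : ℝ) * e ^ 2) (p * (Fintype.card O : ℝ) / 2)
    (by rw [Finset.sum_const, Finset.card_univ, nsmul_eq_mul]) (by positivity) (by positivity)
  have hle : ((univ.filter (fun s : I → X =>
        ((univ.filter (fun w => Ok (P w) B s)).card : ℝ) ≤ p * (Fintype.card O : ℝ) / 2)).card : ℝ) ≤
      ((univ.filter (fun s : I → X =>
        f s ≤ (∑ s', f s') / (Fintype.card (I → X) : ℝ) - p * (Fintype.card O : ℝ) / 2)).card : ℝ) := by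
    have hc : (univ.filter (fun s : I → X =>
        ((univ.filter (fun w => Ok (P w) B s)).card : ℝ) ≤ p * (Fintype.card O : ℝ) / 2)) ⊆
      (univ.filter (fun s : I → X =>
        f s ≤ (∑ s', f s') / (Fintype.card (I → X) : ℝ) - p * (Fintype.card O : ℝ) / 2)) := by
      intro s hs
      rw [mem_filter] at hs ⊢
      refine ⟨hs.1, ?_⟩
      have h5 : f s = ((univ.filter (fun w => Ok (P w) B s)).card : ℝ) := by rw [hfdef]
      rw [h5]
      linarith [hs.2]
    exact_mod_cast card_le_card hc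
  refine hle.trans (key.trans (le_of_eq ?_))
  congr 2
  field_simp
  ring

open Classical in
theorem sample {I O R X : Type} [Fintype I] [DecidableEq I] [Fintype O] [DecidableEq O]
    [Fintype R] [DecidableEq R] [Fintype X] [DecidableEq X] [AddCommGroup X]
    (P : O → Finset (I × X)) (H : R → Finset (I × X)) (m : ℕ) (p q2 : ℝ) (hp0 : 0 ≤ p)
    (hp1 : p ≤ 1) (T : Finset R) (hT : T.Nonempty)
    (hq : ∀ w, ((univ.filter (fun s : I → X =>
        ((T.filter (fun v => Ok (P w) (H v) s)).card : ℝ) ≤ p * (T.card : ℝ) / 2)).card : ℝ) ≤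
      q2 * (Fintype.card (I → X) : ℝ)) :
    ∃ T' : Fin m → R, (∀ k, T' k ∈ T) ∧
      (∑ s : I → X, ((univ.filter (fun w => ∀ k, ¬ Ok (P w) (H (T' k)) s)).card : ℝ)) ≤
        (q2 + (1 - p / 2) ^ m) * (Fintype.card O : ℝ) * (Fintype.card (I → X) : ℝ) := by
  set N : O → (I → X) → ℝ := fun w s => ((T.filter (fun v => ¬ Ok (P w) (H v) s)).card : ℝ) with hN
  set t : ℝ := (T.card : ℝ) with ht
  have ht0 : 0 < t := by
    rw [ht]; exact_mod_cast hT.card_pos
  have hNadd : ∀ w s, ((T.filter (fun v => Ok (P w) (H v) s)).card : ℝ) + N w s = t := by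
    intro w s
    have := Finset.card_filter_add_card_filter_not (s := T) (fun v => Ok (P w) (H v) s)
    have h2 : ((T.filter (fun v => Ok (P w) (H v) s)).card : ℝ) +
        ((T.filter (fun v => ¬ Ok (P w) (H v) s)).card : ℝ) = (T.card : ℝ) := by
      exact_mod_cast this
    exact h2
  have hN0 : ∀ w s, 0 ≤ N w s := fun w s => Nat.cast_nonneg _
  have hNt : ∀ w s, N w s ≤ t := by
    intro w s
    have h1 := hNadd w s
    have h2 : (0 : ℝ) ≤ ((T.filter (fun v => Ok (P w) (H v) s)).card : ℝ) := Nat.cast_nonneg _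
    linarith
  have hp2 : 0 ≤ (1 - p / 2) * t := mul_nonneg (by linarith) ht0.le
  -- sum over `s` for one `w`
  have hw : ∀ w, ∑ s : I → X, N w s ^ m ≤
      t ^ m * ((q2 + (1 - p / 2) ^ m) * (Fintype.card (I → X) : ℝ)) := by
    intro w
    have hpt : ∀ s : I → X, N w s ^ m ≤
        (if ((T.filter (fun v => Ok (P w) (H v) s)).card : ℝ) ≤ p * (T.card : ℝ) / 2 then t ^ m
          else 0) + ((1 - p / 2) * t) ^ m := by
      intro s
      split_ifs with h
      · have := pow_le_pow_left₀ (hN0 w s) (hNt w s) m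
        have h3 : 0 ≤ ((1 - p / 2) * t) ^ m := pow_nonneg hp2 m
        linarith
      · rw [zero_add]
        apply pow_le_pow_left₀ (hN0 w s)
        have h1 := hNadd w s
        push Not at h
        rw [← ht] at h
        nlinarith
    refine (Finset.sum_le_sum (fun s _ => hpt s)).trans ?_
    rw [Finset.sum_add_distrib, Finset.sum_const, ← Finset.sum_filter, Finset.sum_const,
      nsmul_eq_mul, nsmul_eq_mul, Finset.card_univ, mul_pow]
    have h1 := mul_le_mul_of_nonneg_right (hq w) (pow_nonneg ht0.le m)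
    nlinarith
  have hcount : ∀ (w : O) (s : I → X),
      ∑ T' ∈ Fintype.piFinset (fun _ : Fin m => T),
        (if ∀ k, ¬ Ok (P w) (H (T' k)) s then (1 : ℝ) else 0) = N w s ^ m := by
    intro w s
    rw [← Finset.sum_filter, Finset.sum_const, nsmul_eq_mul, mul_one, hN]
    have : (Fintype.piFinset (fun _ : Fin m => T)).filter (fun T' => ∀ k, ¬ Ok (P w) (H (T' k)) s) =
        Fintype.piFinset (fun _ : Fin m => T.filter (fun v => ¬ Ok (P w) (H v) s)) := by
      ext T'
      simp only [Finset.mem_filter, Fintype.mem_piFinset, forall_and]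
    rw [this, Fintype.card_piFinset_const]
    push_cast
    rfl
  have htot : ∑ T' ∈ Fintype.piFinset (fun _ : Fin m => T),
      (∑ s : I → X, ((univ.filter (fun w => ∀ k, ¬ Ok (P w) (H (T' k)) s)).card : ℝ)) ≤
      ∑ T' ∈ Fintype.piFinset (fun _ : Fin m => T),
        (q2 + (1 - p / 2) ^ m) * (Fintype.card O : ℝ) * (Fintype.card (I → X) : ℝ) := by
    have e1 : ∑ T' ∈ Fintype.piFinset (fun _ : Fin m => T),
        (∑ s : I → X, ((univ.filter (fun w => ∀ k, ¬ Ok (P w) (H (T' k)) s)).card : ℝ)) =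
        ∑ w : O, ∑ s : I → X, N w s ^ m := by
      have : ∀ (T' : Fin m → R) (s : I → X),
          ((univ.filter (fun w => ∀ k, ¬ Ok (P w) (H (T' k)) s)).card : ℝ) =
          ∑ w : O, if ∀ k, ¬ Ok (P w) (H (T' k)) s then (1 : ℝ) else 0 := by
        intro T' s
        rw [← Finset.sum_filter, Finset.sum_const, nsmul_eq_mul, mul_one]
      simp only [this]
      rw [Finset.sum_comm]
      rw [Finset.sum_comm (s := (univ : Finset O))]
      refine Finset.sum_congr rfl (fun s _ => ?_)
      rw [Finset.sum_comm]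
      exact Finset.sum_congr rfl (fun w _ => hcount w s)
    rw [e1, Finset.sum_const, nsmul_eq_mul, Fintype.card_piFinset_const]
    refine (Finset.sum_le_sum (fun w _ => hw w)).trans ?_
    rw [Finset.sum_const, nsmul_eq_mul, Finset.card_univ]
    push_cast
    rw [← ht]
    apply le_of_eq
    ring
  obtain ⟨T', hT', hle⟩ := Finset.exists_le_of_sum_le
    ⟨fun _ => hT.choose, Fintype.mem_piFinset.2 (fun _ => hT.choose_spec)⟩ htot
  exact ⟨T', fun k => Fintype.mem_piFinset.1 hT' k, hle⟩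

open Classical in
theorem nice_conc_lip {I O R X : Type} [Fintype I] [DecidableEq I] [Fintype O]
    [DecidableEq O] [Fintype X] [DecidableEq X] [AddCommGroup X]
    (P : O → Finset (I × X)) (H : R → Finset (I × X)) (m : ℕ) (T' : Fin m → R)
    (e : ℝ) (hhit : ∀ i, ((univ.filter (fun w => ∃ x ∈ P w, x.1 = i)).card : ℝ) ≤ e)
    (i : I) (s s' : I → X) (h : ∀ j, j ≠ i → s j = s' j) :
    ((univ.filter (fun w => ∀ k, ¬ Ok (P w) (H (T' k)) s)).card : ℝ) ≤
      ((univ.filter (fun w => ∀ k, ¬ Ok (P w) (H (T' k)) s')).card : ℝ) + e := by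
  have hsub : (univ.filter (fun w => ∀ k, ¬ Ok (P w) (H (T' k)) s)) ⊆
      (univ.filter (fun w => ∀ k, ¬ Ok (P w) (H (T' k)) s')) ∪
        (univ.filter (fun w => ∃ x ∈ P w, x.1 = i)) := by
    intro w hw
    rw [mem_filter] at hw
    rw [mem_union, mem_filter, mem_filter]
    by_cases hx : ∃ x ∈ P w, x.1 = i
    · exact Or.inr ⟨mem_univ _, hx⟩
    · left
      refine ⟨mem_univ _, fun k hok => hw.2 k ?_⟩
      intro x hxP
      have hne : x.1 ≠ i := fun hxi => hx ⟨x, hxP, hxi⟩
      rw [h x.1 hne]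
      exact hok x hxP
  have h1 := (card_le_card hsub).trans (card_union_le _ _)
  have h2 : ((univ.filter (fun w => ∀ k, ¬ Ok (P w) (H (T' k)) s)).card : ℝ) ≤
      ((univ.filter (fun w => ∀ k, ¬ Ok (P w) (H (T' k)) s')).card : ℝ) +
        ((univ.filter (fun w => ∃ x ∈ P w, x.1 = i)).card : ℝ) := by exact_mod_cast h1
  linarith [hhit i]

open Classical in
theorem nice_conc {I O R X : Type} [Fintype I] [DecidableEq I] [Nonempty I] [Fintype O]
    [DecidableEq O] [Fintype X] [DecidableEq X] [AddCommGroup X]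
    (P : O → Finset (I × X)) (H : R → Finset (I × X)) (m : ℕ) (T' : Fin m → R)
    (δ e : ℝ) (hδ : 0 < δ) (he : 0 < e)
    (hhit : ∀ i, ((univ.filter (fun w => ∃ x ∈ P w, x.1 = i)).card : ℝ) ≤ e)
    (hnice : (∑ s : I → X, ((univ.filter (fun w => ∀ k, ¬ Ok (P w) (H (T' k)) s)).card : ℝ)) ≤
        δ / 4 * (Fintype.card O : ℝ) * (Fintype.card (I → X) : ℝ)) :
    ((univ.filter (fun s : I → X => δ * (Fintype.card O : ℝ) ≤
        ((univ.filter (fun w => ∀ k, ¬ Ok (P w) (H (T' k)) s)).card : ℝ))).card : ℝ) ≤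
      Real.exp (-(δ * (Fintype.card O : ℝ)) ^ 2 / (4 * (Fintype.card I : ℝ) * e ^ 2)) *
        (Fintype.card (I → X) : ℝ) := by
  haveI : Nonempty X := ⟨0⟩
  have hI : (0:ℝ) < Fintype.card I := by exact_mod_cast Fintype.card_pos
  have hC : (0:ℝ) < (Fintype.card (I → X) : ℝ) := by exact_mod_cast Fintype.card_pos
  have hO : (0:ℝ) ≤ Fintype.card O := Nat.cast_nonneg _
  have key := mcd_upper (I := I) (X := X)
    (fun s => ((univ.filter (fun w => ∀ k, ¬ Ok (P w) (H (T' k)) s)).card : ℝ)) (fun _ => e)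
    (fun _ => he.le) (by
      intro i s s' h
      rw [abs_le]
      have a1 := nice_conc_lip P H m T' e hhit i s s' h
      have a2 := nice_conc_lip P H m T' e hhit i s' s (fun j hj => (h j hj).symm)
      constructor <;> linarith)
    ((Fintype.card I : ℝ) * e ^ 2) (3 * (δ * (Fintype.card O : ℝ)) / 4)
    (by simp) (by positivity) (by positivity)
  have hmean : (∑ s' : I → X, ((univ.filter (fun w => ∀ k, ¬ Ok (P w) (H (T' k)) s')).card : ℝ)) /
      (Fintype.card (I → X) : ℝ) ≤ δ / 4 * (Fintype.card O : ℝ) := by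
    rw [div_le_iff₀ hC]; exact hnice
  refine le_trans ?_ (key.trans ?_)
  · have : (univ.filter (fun s : I → X => δ * (Fintype.card O : ℝ) ≤
        ((univ.filter (fun w => ∀ k, ¬ Ok (P w) (H (T' k)) s)).card : ℝ))).card ≤
      (univ.filter (fun s : I → X =>
        (∑ s' : I → X, ((univ.filter (fun w => ∀ k, ¬ Ok (P w) (H (T' k)) s')).card : ℝ)) /
          (Fintype.card (I → X) : ℝ) + 3 * (δ * (Fintype.card O : ℝ)) / 4 ≤
        ((univ.filter (fun w => ∀ k, ¬ Ok (P w) (H (T' k)) s)).card : ℝ))).card := by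
      apply card_le_card
      intro s hs
      rw [mem_filter] at hs ⊢
      refine ⟨mem_univ _, ?_⟩
      linarith [hs.2]
    exact_mod_cast this
  · apply mul_le_mul_of_nonneg_right _ hC.le
    apply Real.exp_le_exp.2
    have hpos : 0 < (Fintype.card I : ℝ) * e ^ 2 := by positivity
    rw [div_le_div_iff₀ (by positivity) (by positivity)]
    have : 0 ≤ (δ * (Fintype.card O : ℝ)) ^ 2 * ((Fintype.card I : ℝ) * e ^ 2) := by positivity
    nlinarith [this]

open Classical in
theorem hit_bounds {I O X : Type} [Fintype I] [DecidableEq I] [Fintype O] [DecidableEq O]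
    [Fintype X] [DecidableEq X] (P : O → Finset (I × X)) (n : ℕ)
    (hPn : ∀ w, (P w).card ≤ n)
    (hP3 : ∀ x : I × X, (univ.filter (fun w => x ∈ P w)).card ≤ n) :
    (∀ i, (univ.filter (fun w => ∃ x ∈ P w, x.1 = i)).card ≤ n * Fintype.card X) ∧
    (∀ w, (univ.filter (fun w' => w' ≠ w ∧
      ¬ Disjoint ((P w).image Prod.fst) ((P w').image Prod.fst))).card ≤
        n * (n * Fintype.card X)) := by
  have h1 : ∀ i, (univ.filter (fun w => ∃ x ∈ P w, x.1 = i)).card ≤ n * Fintype.card X := by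
    intro i
    have hsub : (univ.filter (fun w => ∃ x ∈ P w, x.1 = i)) ⊆
        (univ : Finset X).biUnion (fun j => univ.filter (fun w => (i, j) ∈ P w)) := by
      intro w hw
      rw [mem_filter] at hw
      obtain ⟨_, x, hx, hxi⟩ := hw
      rw [mem_biUnion]
      refine ⟨x.2, mem_univ _, ?_⟩
      rw [mem_filter]
      refine ⟨mem_univ _, ?_⟩
      rw [← hxi]
      exact hx
    calc _ ≤ _ := card_le_card hsub
      _ ≤ ∑ j : X, (univ.filter (fun w => (i, j) ∈ P w)).card := card_biUnion_le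
      _ ≤ ∑ _j : X, n := sum_le_sum (fun j _ => hP3 (i, j))
      _ = n * Fintype.card X := by
        rw [sum_const, card_univ, smul_eq_mul, mul_comm]
  refine ⟨h1, fun w => ?_⟩
  have hsub : (univ.filter (fun w' => w' ≠ w ∧
      ¬ Disjoint ((P w).image Prod.fst) ((P w').image Prod.fst))) ⊆
      ((P w).image Prod.fst).biUnion (fun i => univ.filter (fun w' => ∃ x ∈ P w', x.1 = i)) := by
    intro w' hw'
    rw [mem_filter] at hw'
    obtain ⟨_, _, hd⟩ := hw'
    rw [Finset.not_disjoint_iff] at hd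
    obtain ⟨i, hi1, hi2⟩ := hd
    rw [mem_biUnion]
    refine ⟨i, hi1, ?_⟩
    rw [mem_filter]
    refine ⟨mem_univ _, ?_⟩
    rw [mem_image] at hi2
    obtain ⟨x, hx, hxi⟩ := hi2
    exact ⟨x, hx, hxi⟩
  calc _ ≤ _ := card_le_card hsub
    _ ≤ ∑ i ∈ (P w).image Prod.fst, (univ.filter (fun w' => ∃ x ∈ P w', x.1 = i)).card :=
        card_biUnion_le
    _ ≤ ∑ _i ∈ (P w).image Prod.fst, n * Fintype.card X := sum_le_sum (fun i _ => h1 i)
    _ = ((P w).image Prod.fst).card * (n * Fintype.card X) := by rw [sum_const, smul_eq_mul]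
    _ ≤ n * (n * Fintype.card X) :=
        Nat.mul_le_mul_right _ (card_image_le.trans (hPn w))

end Pool.Agent.QCube
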