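import Mathlib
import Pool.Agent.QCube.Conc

set_option autoImplicit false

namespace Pool.Agent.QCube

open Finset

open Classical in
theorem cand_conc3 {I R X : Type} [Fintype I] [DecidableEq I] [Fintype R] [DecidableEq R]
    [Fintype X] [DecidableEq X] [AddCommGroup X] (P : Finset (I × X)) (H : R → Finset (I × X))
    (n : ℕ) (hn : 1 ≤ n) (κ a p : ℝ) (hκ0 : 0 ≤ κ) (hκ1 : κ ≤ 1) (ha : 0 < a) (hp0 : 0 < p)
    (hp : p ≤ (1 - κ) ^ n)
    (hPn : P.card ≤ n) (hPi : ∀ x ∈ P, ∀ y ∈ P, x.1 = y.1 → x = y) (T : Finset R)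
    (hH1 : ∀ v ∈ T, ∀ x ∈ P, ((univ.filter (fun j : X => (x.1, j) ∈ H v)).card : ℝ) ≤
      κ * (Fintype.card X : ℝ))
    (hH2 : ∀ x : I × X, ((univ.filter (fun v => x ∈ H v)).card : ℝ) ≤ a) :
    ((univ.filter (fun s : I → X =>
        ((T.filter (fun v => Ok P (H v) s)).card : ℝ) ≤ p * (T.card : ℝ) / 2)).card : ℝ) ≤
      Real.exp (-(p * (T.card : ℝ)) ^ 2 / (8 * n * a ^ 2)) * (Fintype.card (I → X) : ℝ) := by
  obtain ⟨H', hH'⟩ : ∃ H' : R → Finset (I × X), ∀ v x, x ∈ H' v ↔ (v ∈ T ∧ x ∈ H v ∧ ∃ y ∈ P, y.1 = x.1) := by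
    refine ⟨fun v => (H v).filter (fun x => v ∈ T ∧ ∃ y ∈ P, y.1 = x.1), ?_⟩
    intro v x
    simp only [Finset.mem_filter]
    tauto
  have h1 : ∀ v i, ((univ.filter (fun j : X => (i, j) ∈ H' v)).card : ℝ) ≤
      κ * (Fintype.card X : ℝ) := by
    intro v i
    by_cases h : v ∈ T ∧ ∃ y ∈ P, y.1 = i
    · obtain ⟨hv, y, hy, hyi⟩ := h
      subst hyi
      refine le_trans ?_ (hH1 v hv y hy)
      have : (univ.filter (fun j : X => (y.1, j) ∈ H' v)) ⊆ (univ.filter (fun j : X => (y.1, j) ∈ H v)) := by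
        intro j hj
        simp only [Finset.mem_filter, Finset.mem_univ, true_and] at hj ⊢
        exact ((hH' _ _).1 hj).2.1
      exact_mod_cast Finset.card_le_card this
    · have : (univ.filter (fun j : X => (i, j) ∈ H' v)) = ∅ := by
        rw [Finset.filter_eq_empty_iff]
        intro j _ hj
        obtain ⟨hv, _, hy⟩ := (hH' _ _).1 hj
        exact h ⟨hv, hy⟩
      rw [this]
      simp only [Finset.card_empty, Nat.cast_zero]
      positivity
  have h2 : ∀ x : I × X, ((univ.filter (fun v => x ∈ H' v)).card : ℝ) ≤ a := by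
    intro x
    refine le_trans ?_ (hH2 x)
    have : (univ.filter (fun v => x ∈ H' v)) ⊆ (univ.filter (fun v => x ∈ H v)) := by
      intro v hv
      simp only [Finset.mem_filter, Finset.mem_univ, true_and] at hv ⊢
      exact ((hH' _ _).1 hv).2.1
    exact_mod_cast Finset.card_le_card this
  have key := cand_conc P H' n hn κ a p hκ0 hκ1 ha hp0 hp hPn hPi h1 h2 T
  have hT : ∀ s : I → X, T.filter (fun v => Ok P (H' v) s) = T.filter (fun v => Ok P (H v) s) := by
    intro s
    apply Finset.filter_congr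
    intro v hv
    unfold Ok
    constructor
    · intro h x hx hmem
      exact h x hx ((hH' _ _).2 ⟨hv, hmem, x, hx, rfl⟩)
    · intro h x hx hmem
      exact h x hx ((hH' _ _).1 hmem).2.1
  simp only [hT] at key
  exact key

open Classical in
theorem deg_conc3 {I O X : Type} [Fintype I] [DecidableEq I] [Nonempty I] [Fintype O] [DecidableEq O]
    [Fintype X] [DecidableEq X] [AddCommGroup X] (P : O → Finset (I × X)) (B : Finset (I × X))
    (n : ℕ) (κ e p : ℝ) (hκ0 : 0 ≤ κ) (hκ1 : κ ≤ 1) (he : 0 < e) (hp0 : 0 < p)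
    (hp : p ≤ (1 - κ) ^ n)
    (hPn : ∀ w, (P w).card ≤ n) (hPi : ∀ w, ∀ x ∈ P w, ∀ y ∈ P w, x.1 = y.1 → x = y)
    (hhit : ∀ i, ((univ.filter (fun w => ∃ x ∈ P w, x.1 = i)).card : ℝ) ≤ e) (O' : Finset O)
    (hB : ∀ w ∈ O', ∀ x ∈ P w, ((univ.filter (fun j : X => (x.1, j) ∈ B)).card : ℝ) ≤
      κ * (Fintype.card X : ℝ)) :
    ((univ.filter (fun s : I → X =>
        ((O'.filter (fun w => Ok (P w) B s)).card : ℝ) ≤ p * (O'.card : ℝ) / 2)).card : ℝ) ≤
      Real.exp (-(p * (O'.card : ℝ)) ^ 2 / (8 * (Fintype.card I : ℝ) * e ^ 2)) *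
        (Fintype.card (I → X) : ℝ) := by
  set B' : Finset (I × X) := B.filter (fun x =>
    ((univ.filter (fun j : X => (x.1, j) ∈ B)).card : ℝ) ≤ κ * (Fintype.card X : ℝ)) with hB'
  have hX0 : (0 : ℝ) ≤ κ * (Fintype.card X : ℝ) := by positivity
  have hhit' : ∀ i, ((univ.filter (fun w : {w // w ∈ O'} => ∃ x ∈ P w.1, x.1 = i)).card : ℝ) ≤ e := by
    intro i
    refine le_trans ?_ (hhit i)
    norm_cast
    refine Finset.card_le_card_of_injOn (fun w : {w // w ∈ O'} => w.1) ?_ ?_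
    · intro w hw
      have := (Finset.mem_filter.1 (Finset.mem_coe.1 hw)).2
      exact Finset.mem_coe.2 (Finset.mem_filter.2 ⟨Finset.mem_univ _, this⟩)
    · intro a _ b _ hab
      exact Subtype.ext hab
  have hBB : ∀ i, ((univ.filter (fun j : X => (i, j) ∈ B')).card : ℝ) ≤ κ * (Fintype.card X : ℝ) := by
    intro i
    by_cases hi : ((univ.filter (fun j : X => (i, j) ∈ B)).card : ℝ) ≤ κ * (Fintype.card X : ℝ)
    · refine le_trans ?_ hi
      norm_cast
      refine Finset.card_le_card ?_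
      intro j hj
      have := (Finset.mem_filter.1 hj).2
      rw [hB', Finset.mem_filter] at this
      exact Finset.mem_filter.2 ⟨Finset.mem_univ _, this.1⟩
    · have : (univ.filter (fun j : X => (i, j) ∈ B')) = ∅ := by
        rw [Finset.filter_eq_empty_iff]
        intro j _ hj
        rw [hB', Finset.mem_filter] at hj
        exact hi hj.2
      rw [this]; simpa using hX0
  have hmain := deg_conc (O := {w // w ∈ O'}) (fun w => P w.1) B' n κ e p hκ0 hκ1 he hp0 hp
    (fun w => hPn w.1) (fun w => hPi w.1) hhit' hBB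
  have hc : ∀ s : I → X, (univ.filter (fun w : {w // w ∈ O'} => Ok (P w.1) B' s)).card =
      (O'.filter (fun w => Ok (P w) B s)).card := by
    intro s
    have hok : ∀ w ∈ O', (Ok (P w) B' s ↔ Ok (P w) B s) := by
      intro w hw
      unfold Ok
      refine forall₂_congr fun x hx => ?_
      rw [hB', Finset.mem_filter]
      constructor
      · intro h h2
        exact h ⟨h2, hB w hw x hx⟩
      · intro h h2
        exact h h2.1
    refine Finset.card_bij (fun w _ => w.1) ?_ ?_ ?_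
    · intro w hw
      have := (Finset.mem_filter.1 hw).2
      exact Finset.mem_filter.2 ⟨w.2, (hok w.1 w.2).1 this⟩
    · intro a _ b _ hab
      exact Subtype.ext hab
    · intro b hb
      obtain ⟨hb1, hb2⟩ := Finset.mem_filter.1 hb
      exact ⟨⟨b, hb1⟩, Finset.mem_filter.2 ⟨Finset.mem_univ _, (hok b hb1).2 hb2⟩, rfl⟩
  have hcard : Fintype.card {w // w ∈ O'} = O'.card := Fintype.card_coe O'
  rw [hcard] at hmain
  have hset : (univ.filter (fun s : I → X =>
        ((O'.filter (fun w => Ok (P w) B s)).card : ℝ) ≤ p * (O'.card : ℝ) / 2)).card =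
      (univ.filter (fun s : I → X =>
        ((univ.filter (fun w : {w // w ∈ O'} => Ok (P w.1) B' s)).card : ℝ) ≤
          p * (O'.card : ℝ) / 2)).card := by
    congr 1
    ext s
    simp only [Finset.mem_filter, hc]
  rw [hset]
  exact hmain

open Classical in
theorem sample3 {Ω O R : Type} [Fintype Ω] [Fintype O] [DecidableEq O]
    [Fintype R] [DecidableEq R] (adj : O → R → Ω → Prop) (m : ℕ) (ρ q2 : ℝ) (hρ0 : 0 ≤ ρ)
    (hρ1 : ρ ≤ 1) (T : Finset R) (hT : T.Nonempty)
    (hq : ∀ w, ((univ.filter (fun s : Ω =>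
        ((T.filter (fun v => adj w v s)).card : ℝ) ≤ ρ * (T.card : ℝ))).card : ℝ) ≤
      q2 * (Fintype.card Ω : ℝ)) :
    ∃ T' : Fin m → R, (∀ k, T' k ∈ T) ∧
      (∑ s : Ω, ((univ.filter (fun w => ∀ k, ¬ adj w (T' k) s)).card : ℝ)) ≤
        (q2 + (1 - ρ) ^ m) * (Fintype.card O : ℝ) * (Fintype.card Ω : ℝ) := by
  set N : O → Ω → ℝ := fun w s => ((T.filter (fun v => ¬ adj w v s)).card : ℝ) with hN
  set t : ℝ := (T.card : ℝ) with ht
  have ht0 : 0 < t := by
    rw [ht]; exact_mod_cast hT.card_pos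
  have hNadd : ∀ w s, ((T.filter (fun v => adj w v s)).card : ℝ) + N w s = t := by
    intro w s
    have := Finset.card_filter_add_card_filter_not (s := T) (fun v => adj w v s)
    have h2 : ((T.filter (fun v => adj w v s)).card : ℝ) +
        ((T.filter (fun v => ¬ adj w v s)).card : ℝ) = (T.card : ℝ) := by
      exact_mod_cast this
    exact h2
  have hN0 : ∀ w s, 0 ≤ N w s := fun w s => Nat.cast_nonneg _
  have hNt : ∀ w s, N w s ≤ t := by
    intro w s
    have h1 := hNadd w s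
    have h2 : (0 : ℝ) ≤ ((T.filter (fun v => adj w v s)).card : ℝ) := Nat.cast_nonneg _
    linarith
  have hp2 : 0 ≤ (1 - ρ) * t := mul_nonneg (by linarith) ht0.le
  have hw : ∀ w, ∑ s : Ω, N w s ^ m ≤
      t ^ m * ((q2 + (1 - ρ) ^ m) * (Fintype.card Ω : ℝ)) := by
    intro w
    have hpt : ∀ s : Ω, N w s ^ m ≤
        (if ((T.filter (fun v => adj w v s)).card : ℝ) ≤ ρ * (T.card : ℝ) then t ^ m
          else 0) + ((1 - ρ) * t) ^ m := by
      intro s
      split_ifs with h
      · have := pow_le_pow_left₀ (hN0 w s) (hNt w s) m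
        have h3 : 0 ≤ ((1 - ρ) * t) ^ m := pow_nonneg hp2 m
        linarith
      · rw [zero_add]
        apply pow_le_pow_left₀ (hN0 w s)
        have h1 := hNadd w s
        push Not at h
        rw [← ht] at h
        nlinarith
    refine (Finset.sum_le_sum (fun s _ => hpt s)).trans ?_
    rw [Finset.sum_add_distrib, Finset.sum_const, ← Finset.sum_filter, Finset.sum_const,
      nsmul_eq_mul, nsmul_eq_mul, Finset.card_univ, mul_pow]
    have h1 := mul_le_mul_of_nonneg_right (hq w) (pow_nonneg ht0.le m)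
    nlinarith
  have hcount : ∀ (w : O) (s : Ω),
      ∑ T' ∈ Fintype.piFinset (fun _ : Fin m => T),
        (if ∀ k, ¬ adj w (T' k) s then (1 : ℝ) else 0) = N w s ^ m := by
    intro w s
    rw [← Finset.sum_filter, Finset.sum_const, nsmul_eq_mul, mul_one, hN]
    have : (Fintype.piFinset (fun _ : Fin m => T)).filter (fun T' => ∀ k, ¬ adj w (T' k) s) =
        Fintype.piFinset (fun _ : Fin m => T.filter (fun v => ¬ adj w v s)) := by
      ext T'
      simp only [Finset.mem_filter, Fintype.mem_piFinset, forall_and]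
    rw [this, Fintype.card_piFinset_const]
    push_cast
    rfl
  have htot : ∑ T' ∈ Fintype.piFinset (fun _ : Fin m => T),
      (∑ s : Ω, ((univ.filter (fun w => ∀ k, ¬ adj w (T' k) s)).card : ℝ)) ≤
      ∑ T' ∈ Fintype.piFinset (fun _ : Fin m => T),
        (q2 + (1 - ρ) ^ m) * (Fintype.card O : ℝ) * (Fintype.card Ω : ℝ) := by
    have e1 : ∑ T' ∈ Fintype.piFinset (fun _ : Fin m => T),
        (∑ s : Ω, ((univ.filter (fun w => ∀ k, ¬ adj w (T' k) s)).card : ℝ)) =
        ∑ w : O, ∑ s : Ω, N w s ^ m := by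
      have : ∀ (T' : Fin m → R) (s : Ω),
          ((univ.filter (fun w => ∀ k, ¬ adj w (T' k) s)).card : ℝ) =
          ∑ w : O, if ∀ k, ¬ adj w (T' k) s then (1 : ℝ) else 0 := by
        intro T' s
        rw [← Finset.sum_filter, Finset.sum_const, nsmul_eq_mul, mul_one]
      simp only [this]
      rw [Finset.sum_comm]
      rw [Finset.sum_comm (s := (univ : Finset O))]
      refine Finset.sum_congr rfl (fun s _ => ?_)
      rw [Finset.sum_comm]
      exact Finset.sum_congr rfl (fun w _ => hcount w s)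
    rw [e1, Finset.sum_const, nsmul_eq_mul, Fintype.card_piFinset_const]
    refine (Finset.sum_le_sum (fun w _ => hw w)).trans ?_
    rw [Finset.sum_const, nsmul_eq_mul, Finset.card_univ]
    push_cast
    rw [← ht]
    apply le_of_eq
    ring
  obtain ⟨T', hT', hle⟩ := Finset.exists_le_of_sum_le
    ⟨fun _ => hT.choose, Fintype.mem_piFinset.2 (fun _ => hT.choose_spec)⟩ htot
  exact ⟨T', fun k => Fintype.mem_piFinset.1 hT' k, hle⟩

open Classical in
theorem nice_conc3_lip {I O R X : Type} [Fintype I] [DecidableEq I] [Fintype O]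
    [DecidableEq O] [Fintype X] [DecidableEq X] [AddCommGroup X]
    (P : O → Finset (I × X)) (H : R → Finset (I × X)) (G : O → Finset R) (m : ℕ) (T' : Fin m → R)
    (e : ℝ) (hhit : ∀ i, ((univ.filter (fun w => ∃ x ∈ P w, x.1 = i)).card : ℝ) ≤ e)
    (i : I) (s s' : I → X) (h : ∀ j, j ≠ i → s j = s' j) :
    ((univ.filter (fun w => ∀ k, ¬ (Ok (P w) (H (T' k)) s ∧ T' k ∉ G w))).card : ℝ) ≤
      ((univ.filter (fun w => ∀ k, ¬ (Ok (P w) (H (T' k)) s' ∧ T' k ∉ G w))).card : ℝ) + e := by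
  have hsub : (univ.filter (fun w => ∀ k, ¬ (Ok (P w) (H (T' k)) s ∧ T' k ∉ G w))) ⊆
      (univ.filter (fun w => ∀ k, ¬ (Ok (P w) (H (T' k)) s' ∧ T' k ∉ G w))) ∪
        (univ.filter (fun w => ∃ x ∈ P w, x.1 = i)) := by
    intro w hw
    rw [mem_filter] at hw
    rw [mem_union, mem_filter, mem_filter]
    by_cases hx : ∃ x ∈ P w, x.1 = i
    · exact Or.inr ⟨mem_univ _, hx⟩
    · left
      refine ⟨mem_univ _, fun k hok => hw.2 k ⟨?_, hok.2⟩⟩
      intro x hxP
      have hne : x.1 ≠ i := fun hxi => hx ⟨x, hxP, hxi⟩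
      rw [h x.1 hne]
      exact hok.1 x hxP
  have h1 := (card_le_card hsub).trans (card_union_le _ _)
  have h2 : ((univ.filter (fun w => ∀ k, ¬ (Ok (P w) (H (T' k)) s ∧ T' k ∉ G w))).card : ℝ) ≤
      ((univ.filter (fun w => ∀ k, ¬ (Ok (P w) (H (T' k)) s' ∧ T' k ∉ G w))).card : ℝ) +
        ((univ.filter (fun w => ∃ x ∈ P w, x.1 = i)).card : ℝ) := by exact_mod_cast h1
  linarith [hhit i]

open Classical in
theorem nice_conc3 {I O R X : Type} [Fintype I] [DecidableEq I] [Nonempty I] [Fintype O]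
    [DecidableEq O] [Fintype X] [DecidableEq X] [AddCommGroup X]
    (P : O → Finset (I × X)) (H : R → Finset (I × X)) (G : O → Finset R) (m : ℕ) (T' : Fin m → R)
    (δ e : ℝ) (hδ : 0 < δ) (he : 0 < e)
    (hhit : ∀ i, ((univ.filter (fun w => ∃ x ∈ P w, x.1 = i)).card : ℝ) ≤ e)
    (hnice : (∑ s : I → X, ((univ.filter
        (fun w => ∀ k, ¬ (Ok (P w) (H (T' k)) s ∧ T' k ∉ G w))).card : ℝ)) ≤
        δ / 4 * (Fintype.card O : ℝ) * (Fintype.card (I → X) : ℝ)) :
    ((univ.filter (fun s : I → X => δ * (Fintype.card O : ℝ) ≤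
        ((univ.filter (fun w => ∀ k, ¬ (Ok (P w) (H (T' k)) s ∧ T' k ∉ G w))).card : ℝ))).card : ℝ) ≤
      Real.exp (-(δ * (Fintype.card O : ℝ)) ^ 2 / (4 * (Fintype.card I : ℝ) * e ^ 2)) *
        (Fintype.card (I → X) : ℝ) := by
  haveI : Nonempty X := ⟨0⟩
  have hI : (0:ℝ) < Fintype.card I := by exact_mod_cast Fintype.card_pos
  have hC : (0:ℝ) < (Fintype.card (I → X) : ℝ) := by exact_mod_cast Fintype.card_pos
  have hO : (0:ℝ) ≤ Fintype.card O := Nat.cast_nonneg _
  have key := mcd_upper (I := I) (X := X)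
    (fun s => ((univ.filter
      (fun w => ∀ k, ¬ (Ok (P w) (H (T' k)) s ∧ T' k ∉ G w))).card : ℝ)) (fun _ => e)
    (fun _ => he.le) (by
      intro i s s' h
      rw [abs_le]
      have a1 := nice_conc3_lip P H G m T' e hhit i s s' h
      have a2 := nice_conc3_lip P H G m T' e hhit i s' s (fun j hj => (h j hj).symm)
      constructor <;> linarith)
    ((Fintype.card I : ℝ) * e ^ 2) (3 * (δ * (Fintype.card O : ℝ)) / 4)
    (by simp) (by positivity) (by positivity)
  have hmean : (∑ s' : I → X, ((univ.filter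
      (fun w => ∀ k, ¬ (Ok (P w) (H (T' k)) s' ∧ T' k ∉ G w))).card : ℝ)) /
      (Fintype.card (I → X) : ℝ) ≤ δ / 4 * (Fintype.card O : ℝ) := by
    rw [div_le_iff₀ hC]; exact hnice
  refine le_trans ?_ (key.trans ?_)
  · have : (univ.filter (fun s : I → X => δ * (Fintype.card O : ℝ) ≤
        ((univ.filter (fun w => ∀ k, ¬ (Ok (P w) (H (T' k)) s ∧ T' k ∉ G w))).card : ℝ))).card ≤
      (univ.filter (fun s : I → X =>
        (∑ s' : I → X, ((univ.filter
          (fun w => ∀ k, ¬ (Ok (P w) (H (T' k)) s' ∧ T' k ∉ G w))).card : ℝ)) /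
          (Fintype.card (I → X) : ℝ) + 3 * (δ * (Fintype.card O : ℝ)) / 4 ≤
        ((univ.filter
          (fun w => ∀ k, ¬ (Ok (P w) (H (T' k)) s ∧ T' k ∉ G w))).card : ℝ))).card := by
      apply card_le_card
      intro s hs
      rw [mem_filter] at hs ⊢
      refine ⟨mem_univ _, ?_⟩
      linarith [hs.2]
    exact_mod_cast this
  · apply mul_le_mul_of_nonneg_right _ hC.le
    apply Real.exp_le_exp.2
    have hpos : 0 < (Fintype.card I : ℝ) * e ^ 2 := by positivity
    rw [div_le_div_iff₀ (by positivity) (by positivity)]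
    have : 0 ≤ (δ * (Fintype.card O : ℝ)) ^ 2 * ((Fintype.card I : ℝ) * e ^ 2) := by positivity
    nlinarith [this]

end Pool.Agent.QCube
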