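import Mathlib
import Pool.Agent.QCube.Conc

set_option autoImplicit false

namespace Pool.Agent.QCube

open Finset

open Classical in
theorem core {I O R X : Type} [Fintype I] [DecidableEq I] [Nonempty I] [Fintype O] [DecidableEq O]
    [Fintype R] [DecidableEq R] [Fintype X] [DecidableEq X] [AddCommGroup X]
    (n m h : ℕ) (hn : 1 ≤ n) (hh : 0 < h) (hO : Fintype.card O = h) (hR : Fintype.card R = h)
    (κ a p δ q1 q2 e : ℝ) (hκ0 : 0 ≤ κ) (hκ1 : κ ≤ 1) (ha : 0 < a) (hp0 : 0 < p) (hp1 : p ≤ 1)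
    (hp : p ≤ (1 - κ) ^ n) (hδ : δ = p / 2) (he : e = (n : ℝ) * (Fintype.card X : ℝ))
    (hq1 : q1 = Real.exp (-(p * (h : ℝ)) ^ 2 / (8 * n * a ^ 2)))
    (hq2 : q2 = Real.exp (-(p * (δ * (h : ℝ))) ^ 2 / (8 * n * a ^ 2)))
    (N1 : 4 * q1 * ((n * (n * Fintype.card X) : ℕ) : ℝ) ≤ 1)
    (N2 : q2 + (1 - p / 2) ^ m ≤ δ / 4)
    (N3 : (h : ℝ) * Real.exp (-(p * (h : ℝ)) ^ 2 / (8 * (Fintype.card I : ℝ) * e ^ 2)) +
        (h : ℝ) ^ m * Real.exp (-(δ * (h : ℝ)) ^ 2 / (4 * (Fintype.card I : ℝ) * e ^ 2)) <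
        (1 - 2 * q1) ^ h)
    (P : O → Finset (I × X)) (H : R → Finset (I × X))
    (hPn : ∀ w, (P w).card ≤ n) (hPi : ∀ w, ∀ x ∈ P w, ∀ y ∈ P w, x.1 = y.1 → x = y)
    (hP3 : ∀ x : I × X, (univ.filter (fun w => x ∈ P w)).card ≤ n)
    (hH1 : ∀ v i, ((univ.filter (fun j : X => (i, j) ∈ H v)).card : ℝ) ≤
      κ * (Fintype.card X : ℝ))
    (hH2 : ∀ x : I × X, ((univ.filter (fun v => x ∈ H v)).card : ℝ) ≤ a) :
    ∃ s : I → X, ∃ φ : O → R, Function.Injective φ ∧ ∀ w, Ok (P w) (H (φ w)) s := by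
  haveI : Nonempty X := ⟨0⟩
  have hN : 0 < (Fintype.card (I → X) : ℝ) := by exact_mod_cast Fintype.card_pos
  have hX : (1:ℝ) ≤ (Fintype.card X : ℝ) := by
    exact_mod_cast Nat.succ_le_of_lt (Fintype.card_pos (α := X))
  have hh' : (0:ℝ) < h := by exact_mod_cast hh
  have hn' : (1:ℝ) ≤ n := by exact_mod_cast hn
  have hδ0 : 0 < δ := by rw [hδ]; positivity
  have he0 : 0 < e := by rw [he]; positivity
  have hb := hit_bounds P n hPn hP3
  have hhit : ∀ i, ((univ.filter (fun w => ∃ x ∈ P w, x.1 = i)).card : ℝ) ≤ e := by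
    intro i
    rw [he]
    have := hb.1 i
    exact_mod_cast this
  have hq10 : 0 ≤ q1 := by rw [hq1]; exact (Real.exp_pos _).le
  -- lll
  obtain ⟨A, hAdef⟩ : ∃ A : O → Finset (I → X), A = fun w => univ.filter (fun s : I → X =>
        ((univ.filter (fun v => Ok (P w) (H v) s)).card : ℝ) ≤ p * (h : ℝ) / 2) := ⟨_, rfl⟩
  have hdep : ∀ w, ∀ s s' : I → X, (∀ i ∈ (P w).image Prod.fst, s i = s' i) →
      (s ∈ A w ↔ s' ∈ A w) := by
    intro w s s' hs
    have h2 : ∀ v, Ok (P w) (H v) s ↔ Ok (P w) (H v) s' := by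
      intro v
      unfold Ok
      constructor
      · intro hx x hxP
        have h3 := hs x.1 (Finset.mem_image_of_mem _ hxP)
        rw [← h3]; exact hx x hxP
      · intro hx x hxP
        have h3 := hs x.1 (Finset.mem_image_of_mem _ hxP)
        rw [h3]; exact hx x hxP
    rw [hAdef]
    simp only [mem_filter, mem_univ, true_and, h2]
  have hA : ∀ w, ((A w).card : ℝ) ≤ q1 * (Fintype.card (I → X) : ℝ) := by
    intro w
    have h1 := cand_conc (P w) H n hn κ a p hκ0 hκ1 ha hp0 hp (hPn w) (hPi w) hH1 hH2 univ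
    rw [Finset.card_univ, hR] at h1
    rw [hAdef, hq1]
    exact h1
  have hq4 : 4 * q1 ≤ 1 := by
    refine le_trans ?_ N1
    have h1 : (1:ℝ) ≤ ((n * (n * Fintype.card X) : ℕ) : ℝ) := by
      have : 0 < n * (n * Fintype.card X) := by
        have := Fintype.card_pos (α := X)
        positivity
      exact_mod_cast this
    nlinarith
  have hL := lll A (fun w => (P w).image Prod.fst) hdep q1 (n * (n * Fintype.card X)) hq10 hA
    hb.2 N1 hq4
  rw [hO] at hL
  -- exceptional sets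
  obtain ⟨E1, hE1def⟩ : ∃ E1 : R → Finset (I → X), E1 = fun v => univ.filter (fun s : I → X =>
        ((univ.filter (fun w => Ok (P w) (H v) s)).card : ℝ) ≤ p * (h : ℝ) / 2) := ⟨_, rfl⟩
  have hE1 : ∀ v, ((E1 v).card : ℝ) ≤
      Real.exp (-(p * (h : ℝ)) ^ 2 / (8 * (Fintype.card I : ℝ) * e ^ 2)) *
        (Fintype.card (I → X) : ℝ) := by
    intro v
    have h1 := deg_conc P (H v) n κ e p hκ0 hκ1 he0 hp0 hp hPn hPi hhit (hH1 v)
    rw [hO] at h1
    rw [hE1def]
    exact h1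
  obtain ⟨E2, hE2def⟩ : ∃ E2 : (Fin m → R) → Finset (I → X), E2 = fun T' =>
      univ.filter (fun s : I → X => δ * (h : ℝ) ≤
        ((univ.filter (fun w => ∀ k, ¬ Ok (P w) (H (T' k)) s)).card : ℝ)) := ⟨_, rfl⟩
  obtain ⟨nice, hnicedef⟩ : ∃ nice : Finset (Fin m → R), nice = univ.filter (fun T' =>
      (∑ s : I → X, ((univ.filter (fun w => ∀ k, ¬ Ok (P w) (H (T' k)) s)).card : ℝ)) ≤
        δ / 4 * (h : ℝ) * (Fintype.card (I → X) : ℝ)) := ⟨_, rfl⟩
  have hE2 : ∀ T' ∈ nice, ((E2 T').card : ℝ) ≤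
      Real.exp (-(δ * (h : ℝ)) ^ 2 / (4 * (Fintype.card I : ℝ) * e ^ 2)) *
        (Fintype.card (I → X) : ℝ) := by
    intro T' hT'
    rw [hnicedef, mem_filter] at hT'
    have h1 := nice_conc P H m T' δ e hδ0 he0 hhit (by rw [hO]; exact hT'.2)
    rw [hO] at h1
    rw [hE2def]
    exact h1
  have hnicecard : (nice.card : ℝ) ≤ (h : ℝ) ^ m := by
    have h1 : nice.card ≤ Fintype.card (Fin m → R) := Finset.card_le_univ _
    rw [Fintype.card_fun, Fintype.card_fin, hR] at h1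
    exact_mod_cast h1
  -- choose s
  obtain ⟨s, hsA, hsE1, hsE2⟩ : ∃ s : I → X, (∀ w, s ∉ A w) ∧ (∀ v, s ∉ E1 v) ∧
      (∀ T' ∈ nice, s ∉ E2 T') := by
    by_contra hcon
    push Not at hcon
    have hsub : (univ.filter (fun s : I → X => ∀ w, s ∉ A w)) ⊆
        (univ.biUnion E1) ∪ (nice.biUnion E2) := by
      intro s hs
      rw [mem_filter] at hs
      rw [mem_union, mem_biUnion, mem_biUnion]
      by_cases h1 : ∀ v, s ∉ E1 v
      · obtain ⟨T', hT', h2⟩ := hcon s hs.2 h1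
        exact Or.inr ⟨T', hT', h2⟩
      · push Not at h1
        obtain ⟨v, hv⟩ := h1
        exact Or.inl ⟨v, mem_univ _, hv⟩
    have h1 : ((univ.filter (fun s : I → X => ∀ w, s ∉ A w)).card : ℝ) ≤
        (((univ : Finset R).biUnion E1).card : ℝ) + ((nice.biUnion E2).card : ℝ) := by
      exact_mod_cast (Finset.card_le_card hsub).trans (Finset.card_union_le _ _)
    have h2 : (((univ : Finset R).biUnion E1).card : ℝ) ≤
        (h : ℝ) * (Real.exp (-(p * (h : ℝ)) ^ 2 / (8 * (Fintype.card I : ℝ) * e ^ 2)) *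
        (Fintype.card (I → X) : ℝ)) := by
      have h3 : (((univ : Finset R).biUnion E1).card : ℝ) ≤ ∑ v : R, ((E1 v).card : ℝ) := by
        exact_mod_cast Finset.card_biUnion_le
      refine h3.trans ((Finset.sum_le_sum fun v _ => hE1 v).trans ?_)
      rw [Finset.sum_const, Finset.card_univ, hR, nsmul_eq_mul]
    have h3 : ((nice.biUnion E2).card : ℝ) ≤
        (h : ℝ) ^ m * (Real.exp (-(δ * (h : ℝ)) ^ 2 / (4 * (Fintype.card I : ℝ) * e ^ 2)) *
        (Fintype.card (I → X) : ℝ)) := by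
      have h4 : ((nice.biUnion E2).card : ℝ) ≤ ∑ v ∈ nice, ((E2 v).card : ℝ) := by
        exact_mod_cast Finset.card_biUnion_le
      refine h4.trans ((Finset.sum_le_sum fun v hv => hE2 v hv).trans ?_)
      rw [Finset.sum_const, nsmul_eq_mul]
      exact mul_le_mul_of_nonneg_right hnicecard (by positivity)
    have h5 := mul_lt_mul_of_pos_right N3 hN
    have h6 : ((h : ℝ) * Real.exp (-(p * (h : ℝ)) ^ 2 / (8 * (Fintype.card I : ℝ) * e ^ 2)) +
        (h : ℝ) ^ m * Real.exp (-(δ * (h : ℝ)) ^ 2 / (4 * (Fintype.card I : ℝ) * e ^ 2))) *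
        (Fintype.card (I → X) : ℝ) =
        (h : ℝ) * (Real.exp (-(p * (h : ℝ)) ^ 2 / (8 * (Fintype.card I : ℝ) * e ^ 2)) *
        (Fintype.card (I → X) : ℝ)) +
        (h : ℝ) ^ m * (Real.exp (-(δ * (h : ℝ)) ^ 2 / (4 * (Fintype.card I : ℝ) * e ^ 2)) *
        (Fintype.card (I → X) : ℝ)) := by ring
    rw [h6] at h5
    linarith
  -- Hall
  have hd : 0 < p * (h : ℝ) / 2 := by positivity
  have hdδ : δ * (h : ℝ) = p * (h : ℝ) / 2 := by rw [hδ]; ring
  refine ⟨s, ?_⟩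
  refine hall_lemma h hO hR hh (fun w v => Ok (P w) (H v) s) (p * (h : ℝ) / 2) hd ?_ ?_ ?_
  · intro w
    have h1 := hsA w
    rw [hAdef] at h1
    simp only [mem_filter, mem_univ, true_and, not_le] at h1
    exact h1.le
  · intro v
    have h1 := hsE1 v
    rw [hE1def] at h1
    simp only [mem_filter, mem_univ, true_and, not_le] at h1
    exact h1.le
  · intro T hT
    have hTpos : 0 < T.card := by
      have : (0:ℝ) < T.card := lt_of_lt_of_le hd hT
      exact_mod_cast this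
    have hTne : T.Nonempty := Finset.card_pos.mp hTpos
    have hq : ∀ w, ((univ.filter (fun s : I → X =>
        ((T.filter (fun v => Ok (P w) (H v) s)).card : ℝ) ≤ p * (T.card : ℝ) / 2)).card : ℝ) ≤
        q2 * (Fintype.card (I → X) : ℝ) := by
      intro w
      have h1 := cand_conc (P w) H n hn κ a p hκ0 hκ1 ha hp0 hp (hPn w) (hPi w) hH1 hH2 T
      refine h1.trans ?_
      refine mul_le_mul_of_nonneg_right ?_ hN.le
      rw [hq2]
      apply Real.exp_le_exp.mpr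
      have h3 : p * (δ * (h:ℝ)) ≤ p * (T.card : ℝ) := by
        apply mul_le_mul_of_nonneg_left _ hp0.le
        rw [hdδ]; exact hT
      have h4 : (p * (δ * (h:ℝ))) ^ 2 ≤ (p * (T.card : ℝ)) ^ 2 :=
        pow_le_pow_left₀ (by positivity) h3 2
      have h5 : 0 < 8 * (n:ℝ) * a ^ 2 := by positivity
      exact div_le_div_of_nonneg_right (neg_le_neg h4) h5.le
    obtain ⟨T', hT'T, hT'⟩ := sample P H m p q2 hp0.le hp1 T hTne hq
    have hnice : T' ∈ nice := by
      rw [hnicedef, mem_filter]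
      refine ⟨mem_univ _, hT'.trans ?_⟩
      rw [hO]
      apply mul_le_mul_of_nonneg_right _ hN.le
      exact mul_le_mul_of_nonneg_right N2 hh'.le
    have h1 := hsE2 T' hnice
    rw [hE2def] at h1
    simp only [mem_filter, mem_univ, true_and, not_le] at h1
    rw [hdδ] at h1
    refine lt_of_le_of_lt ?_ h1
    have h2 : (univ.filter (fun w => ∀ v ∈ T, ¬ Ok (P w) (H v) s)) ⊆
        (univ.filter (fun w => ∀ k, ¬ Ok (P w) (H (T' k)) s)) := by
      intro w hw
      rw [mem_filter] at hw ⊢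
      exact ⟨hw.1, fun k => hw.2 _ (hT'T k)⟩
    exact_mod_cast Finset.card_le_card h2

end Pool.Agent.QCube
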