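import Mathlib
import Pool.Agent.QCube.Defs

set_option autoImplicit false

namespace Pool.Agent.QCube

open Finset

/-- add the blocks `c_j g_j` -/
def addc {n l : ℕ} (c : Fin l → Bool) (x : Fin n → Bool) : Fin n → Bool :=
  fun k => xor (x k) (if h : k.val / 4 < l then c ⟨k.val / 4, h⟩ else false)

theorem even_iff_aux {n : ℕ} (x : Fin n → Bool) :
    Even (univ.filter (fun i => x i = true)).card ↔
      (∑ k : Fin n, (if x k = true then (1 : ZMod 2) else 0)) = 0 := by
  rw [Finset.sum_boole, ZMod.natCast_eq_zero_iff_even]

theorem sum_block_aux {n l : ℕ} (hl : 4 * l ≤ n) (c : Fin l → Bool) :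
    (∑ k : Fin n, (if (if h : k.val / 4 < l then c ⟨k.val / 4, h⟩ else false) = true
      then (1 : ZMod 2) else 0)) = 0 := by
  let g : Fin n → Fin n := fun k =>
    if h : k.val < 4 * l then (if h2 : k.val % 2 = 0 then ⟨k.val + 1, by omega⟩ else ⟨k.val - 1, by omega⟩)
    else k
  have hgval : ∀ k : Fin n, k.val < 4 * l →
      (g k).val = if k.val % 2 = 0 then k.val + 1 else k.val - 1 := by
    intro k hk
    simp only [g, dif_pos hk]
    split_ifs <;> rfl
  have hg4 : ∀ k : Fin n, (g k).val / 4 = k.val / 4 := by
    intro k
    by_cases hk : k.val < 4 * l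
    · rw [hgval k hk]
      split_ifs <;> omega
    · simp only [g, dif_neg hk]
  apply Finset.sum_involution (fun k _ => g k)
  · intro k _
    have e : (if h : (g k).val / 4 < l then c ⟨(g k).val / 4, h⟩ else false)
        = (if h : k.val / 4 < l then c ⟨k.val / 4, h⟩ else false) := by
      have h4 := hg4 k
      simp only [h4]
    rw [e]
    split_ifs <;> first | decide | simp
  · intro k _ hk heq
    have hk4 : k.val / 4 < l := by
      by_contra hcon
      simp [hcon] at hk
    have hk' : k.val < 4 * l := by omega
    have h1 := hgval k hk'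
    rw [heq] at h1
    split_ifs at h1 <;> omega
  · intro k _
    exact Finset.mem_univ _
  · intro k _
    by_cases hk : k.val < 4 * l
    · have h1 := hgval k hk
      have hk2 : (g k).val < 4 * l := by
        rw [h1]; split_ifs <;> omega
      have h2 := hgval (g k) hk2
      apply Fin.ext
      rw [h2]
      split_ifs at h1 ⊢ <;> omega
    · have : g k = k := by simp only [g, dif_neg hk]
      show g (g k) = k
      rw [this, this]

theorem even_addc {n l : ℕ} (hl : 4 * l ≤ n) (c : Fin l → Bool) (x : Fin n → Bool) :
    Even (univ.filter (fun i => addc c x i = true)).card ↔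
      Even (univ.filter (fun i => x i = true)).card := by
  rw [even_iff_aux, even_iff_aux]
  have e : (∑ k : Fin n, (if addc c x k = true then (1 : ZMod 2) else 0))
      = (∑ k : Fin n, (if x k = true then (1 : ZMod 2) else 0)) +
        ∑ k : Fin n, (if (if h : k.val / 4 < l then c ⟨k.val / 4, h⟩ else false) = true
          then (1 : ZMod 2) else 0) := by
    rw [← Finset.sum_add_distrib]
    apply Finset.sum_congr rfl
    intro k _
    unfold addc
    generalize (if h : k.val / 4 < l then c ⟨k.val / 4, h⟩ else false) = b
    generalize x k = a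
    cases a <;> cases b <;> decide
  rw [e, sum_block_aux hl, add_zero]

theorem addc_addc {n l : ℕ} (c : Fin l → Bool) (x : Fin n → Bool) : addc c (addc c x) = x := by
  funext k
  unfold addc
  generalize (if h : k.val / 4 < l then c ⟨k.val / 4, h⟩ else false) = b
  generalize x k = a
  cases a <;> cases b <;> rfl

theorem addc_at {n l : ℕ} (hl : 4 * l ≤ n) (c : Fin l → Bool) (x : Fin n → Bool) (j : Fin l)
    (t : Fin 4) (hb : 4 * j.val + t.val < n) :
    addc c x ⟨4 * j.val + t.val, hb⟩ = xor (x ⟨4 * j.val + t.val, hb⟩) (c j) := by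
  unfold addc
  have h1 : (4 * j.val + t.val) / 4 = j.val := by omega
  simp only [h1, dif_pos j.2]

/-- even vertices of the cube split into blocks with no two vertices of a block having a common
(odd) neighbour. -/
theorem cube_blocks (n l : ℕ) (hl : 4 * l ≤ n) (hn : 1 ≤ n) :
    ∃ (I : Type) (_ : Fintype I) (_ : DecidableEq I)
      (e : {x : Fin n → Bool // Even (univ.filter (fun i => x i = true)).card} ≃
        I × (Fin l → ZMod 2)),
      ∀ x y, x ≠ y → (e x).1 = (e y).1 →
        ¬ ∃ w : Fin n → Bool, hammingDist w x.1 = 1 ∧ hammingDist w y.1 = 1 := by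
  classical
  have hb : ∀ (j : Fin l) (t : Fin 4), 4 * j.val + t.val < n := by
    intro j t
    have := j.2; have := t.2; omega
  let cc : (Fin n → Bool) → Fin l → Bool := fun x j => x ⟨4 * j.val + (0 : Fin 4).val, hb j 0⟩
  let I : Type := {x : Fin n → Bool // Even (univ.filter (fun i => x i = true)).card ∧
    ∀ j : Fin l, cc x j = false}
  have hz : ∀ (c : Fin l → Bool) (x : Fin n → Bool) (j : Fin l), cc (addc c x) j = xor (cc x j) (c j) := by
    intro c x j
    exact addc_at hl c x j 0 (hb j 0)
  let e : {x : Fin n → Bool // Even (univ.filter (fun i => x i = true)).card} ≃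
        I × (Fin l → ZMod 2) :=
    { toFun := fun x => (⟨addc (cc x.1) x.1, (even_addc hl _ _).2 x.2, fun j => by
          rw [hz]; simp⟩, fun j => if cc x.1 j = true then 1 else 0)
      invFun := fun p => ⟨addc (fun j => decide (p.2 j = 1)) p.1.1, (even_addc hl _ _).2 p.1.2.1⟩
      left_inv := by
        intro x
        apply Subtype.ext
        show addc (fun j => decide ((if cc x.1 j = true then (1 : ZMod 2) else 0) = 1))
          (addc (cc x.1) x.1) = x.1
        have h1 : (fun j => decide ((if cc x.1 j = true then (1 : ZMod 2) else 0) = 1)) = cc x.1 := by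
          funext j
          cases cc x.1 j <;> simp
        rw [h1, addc_addc]
      right_inv := by
        rintro ⟨i, c⟩
        have h1 : cc (addc (fun j => decide (c j = 1)) i.1) = fun j => decide (c j = 1) := by
          funext j
          rw [hz, i.2.2 j]; simp
        have h2 : addc (cc (addc (fun j => decide (c j = 1)) i.1)) (addc (fun j => decide (c j = 1)) i.1)
            = i.1 := by
          rw [h1, addc_addc]
        apply Prod.ext
        · apply Subtype.ext
          exact h2
        · funext j
          show (if cc (addc (fun j => decide (c j = 1)) i.1) j = true then (1 : ZMod 2) else 0) = c j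
          rw [h1]
          show (if decide (c j = 1) = true then (1 : ZMod 2) else 0) = c j
          generalize c j = z
          revert z
          decide }
  refine ⟨I, inferInstance, inferInstance, e, ?_⟩
  rintro x y hxy hex ⟨w, hw1, hw2⟩
  have hi : addc (cc x.1) x.1 = addc (cc y.1) y.1 := congrArg Subtype.val hex
  have hne : cc x.1 ≠ cc y.1 := by
    intro heq
    apply hxy
    apply Subtype.ext
    have := congrArg (addc (cc x.1)) hi
    rw [addc_addc] at this
    rw [this, heq, addc_addc]
  obtain ⟨j, hj⟩ := Function.ne_iff.mp hne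
  have hdiff : ∀ t : Fin 4, x.1 ⟨4 * j.val + t.val, hb j t⟩ ≠ y.1 ⟨4 * j.val + t.val, hb j t⟩ := by
    intro t heq
    have h1 := congrFun hi ⟨4 * j.val + t.val, hb j t⟩
    rw [addc_at hl, addc_at hl, heq] at h1
    apply hj
    revert h1
    generalize y.1 ⟨4 * j.val + t.val, hb j t⟩ = a
    generalize cc x.1 j = b
    generalize cc y.1 j = d
    revert a b d
    decide
  have h4 : 4 ≤ hammingDist x.1 y.1 := by
    unfold hammingDist
    have hinj : Function.Injective (fun t : Fin 4 => (⟨4 * j.val + t.val, hb j t⟩ : Fin n)) := by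
      intro t t' h
      have := congrArg Fin.val h
      simp only at this
      apply Fin.ext; omega
    calc 4 = (univ.image (fun t : Fin 4 => (⟨4 * j.val + t.val, hb j t⟩ : Fin n))).card := by
            rw [Finset.card_image_of_injective _ hinj]; simp
      _ ≤ _ := by
            apply Finset.card_le_card
            intro k hk
            rw [Finset.mem_image] at hk
            obtain ⟨t, -, rfl⟩ := hk
            simp only [Finset.mem_filter, Finset.mem_univ, true_and]
            exact hdiff t
  have h5 := hammingDist_triangle_left x.1 y.1 w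
  omega

theorem host_desc (g N : ℕ) (h : g ≤ N) (t : ℕ) :
    g.descFactorial t * N ^ t ≤ g ^ t * N.descFactorial t := by
  induction t with
  | zero => simp
  | succ t ih =>
    rw [Nat.descFactorial_succ, Nat.descFactorial_succ, pow_succ, pow_succ]
    have h1 : (g - t) * N ≤ g * (N - t) := by
      rcases le_or_gt g t with h2 | h2
      · rw [Nat.sub_eq_zero_of_le h2]; simp
      · have h3 : t ≤ N := by omega
        zify [h2.le, h3]
        have h4 : (g : ℤ) ≤ N := by exact_mod_cast h
        have h5 : (0 : ℤ) ≤ t := by positivity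
        nlinarith
    calc (g - t) * g.descFactorial t * (N ^ t * N)
        = (g.descFactorial t * N ^ t) * ((g - t) * N) := by ring
      _ ≤ (g ^ t * N.descFactorial t) * (g * (N - t)) := Nat.mul_le_mul ih h1
      _ = g ^ t * g * ((N - t) * N.descFactorial t) := by ring

theorem host_choose (g N : ℕ) (h : g ≤ N) (t : ℕ) :
    g.choose t * N ^ t ≤ g ^ t * N.choose t := by
  have h1 := host_desc g N h t
  rw [Nat.descFactorial_eq_factorial_mul_choose, Nat.descFactorial_eq_factorial_mul_choose] at h1
  have h2 : t.factorial * (g.choose t * N ^ t) ≤ t.factorial * (g ^ t * N.choose t) := by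
    calc t.factorial * (g.choose t * N ^ t) = t.factorial * g.choose t * N ^ t := by ring
      _ ≤ g ^ t * (t.factorial * N.choose t) := h1
      _ = _ := by ring
  exact Nat.le_of_mul_le_mul_left h2 (Nat.factorial_pos t)

theorem host_perm {V : Type} [Fintype V] [DecidableEq V] (S G : Finset V) :
    (univ.filter (fun σ : Equiv.Perm V => ∀ a ∈ S, σ a ∈ G)).card * (Fintype.card V) ^ S.card
      ≤ G.card ^ S.card * Fintype.card (Equiv.Perm V) := by
  classical
  let c : Finset V → ℕ := fun R =>
    (univ.filter (fun σ : Equiv.Perm V => S.map σ.toEmbedding = R)).card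
  have hle : ∀ R R' : Finset V, R.card = R'.card → c R ≤ c R' := by
    intro R R' h
    let π : Equiv.Perm V := (Finset.equivOfCardEq h).extendSubtype
    have hπ : R.map π.toEmbedding = R' := by
      apply Finset.eq_of_subset_of_card_le
      · intro x hx
        obtain ⟨y, hy, rfl⟩ := Finset.mem_map.1 hx
        exact Equiv.extendSubtype_mem _ y hy
      · rw [Finset.card_map, h]
    apply Finset.card_le_card_of_injOn (fun σ => π * σ)
    · intro σ hσ
      simp only [Finset.coe_filter, Finset.mem_univ, true_and, Set.mem_ofPred_eq] at hσ ⊢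
      rw [← hπ, ← hσ, Finset.map_map]
      rfl
    · intro a _ b _ hab
      exact mul_left_cancel hab
  have hc : ∀ R : Finset V, R.card = S.card → c R = c S := fun R h =>
    le_antisymm (hle R S h) (hle S R h.symm)
  have htot : Fintype.card (Equiv.Perm V) = (Fintype.card V).choose S.card * c S := by
    have h1 : (univ : Finset (Equiv.Perm V)).card
        = ∑ R ∈ powersetCard S.card (univ : Finset V),
          (univ.filter (fun σ : Equiv.Perm V => S.map σ.toEmbedding = R)).card := by
      apply Finset.card_eq_sum_card_fiberwise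
      intro σ _
      simp [Finset.mem_powersetCard]
    rw [Finset.card_univ] at h1
    rw [h1]
    have h2 : ∀ R ∈ powersetCard S.card (univ : Finset V),
        (univ.filter (fun σ : Equiv.Perm V => S.map σ.toEmbedding = R)).card = c S :=
      fun R hR => hc R (Finset.mem_powersetCard.1 hR).2
    rw [Finset.sum_congr rfl h2, Finset.sum_const, Finset.card_powersetCard, Finset.card_univ,
      smul_eq_mul]
  have hev : (univ.filter (fun σ : Equiv.Perm V => ∀ a ∈ S, σ a ∈ G)).card
      = G.card.choose S.card * c S := by
    have h1 : (univ.filter (fun σ : Equiv.Perm V => ∀ a ∈ S, σ a ∈ G)).card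
        = ∑ R ∈ powersetCard S.card G,
          ((univ.filter (fun σ : Equiv.Perm V => ∀ a ∈ S, σ a ∈ G)).filter
            (fun σ : Equiv.Perm V => S.map σ.toEmbedding = R)).card := by
      apply Finset.card_eq_sum_card_fiberwise
      intro σ hσ
      simp only [Finset.coe_filter, Finset.mem_univ, true_and, Set.mem_ofPred_eq] at hσ
      rw [Finset.mem_coe, Finset.mem_powersetCard]
      refine ⟨?_, Finset.card_map _⟩
      intro x hx
      obtain ⟨y, hy, rfl⟩ := Finset.mem_map.1 hx
      exact hσ y hy
    rw [h1]
    have h2 : ∀ R ∈ powersetCard S.card G,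
        ((univ.filter (fun σ : Equiv.Perm V => ∀ a ∈ S, σ a ∈ G)).filter
            (fun σ : Equiv.Perm V => S.map σ.toEmbedding = R)).card = c S := by
      intro R hR
      obtain ⟨hRG, hRc⟩ := Finset.mem_powersetCard.1 hR
      rw [← hc R hRc]
      congr 1
      ext σ
      simp only [Finset.mem_filter, Finset.mem_univ, true_and, and_iff_right_iff_imp]
      intro hσ a ha
      apply hRG
      rw [← hσ]
      exact Finset.mem_map.2 ⟨a, ha, rfl⟩
    rw [Finset.sum_congr rfl h2, Finset.sum_const, Finset.card_powersetCard, smul_eq_mul]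
  rw [htot, hev]
  have h3 := host_choose G.card (Fintype.card V) (Finset.card_le_univ G) S.card
  calc G.card.choose S.card * c S * Fintype.card V ^ S.card
      = (G.card.choose S.card * Fintype.card V ^ S.card) * c S := by ring
    _ ≤ (G.card ^ S.card * (Fintype.card V).choose S.card) * c S := Nat.mul_le_mul_right _ h3
    _ = _ := by ring

open Classical in
/-- representative blocks in the host, by a union bound over a random embedding -/
theorem host_blocks {V I X : Type} [Fintype V] [DecidableEq V] [Fintype I] [DecidableEq I]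
    [Fintype X] [DecidableEq X] (Γ : V → Finset V) (γ : ℝ) (hγ : 0 ≤ γ)
    (hΓ : ∀ v, ((Γ v).card : ℝ) ≤ γ * (Fintype.card V : ℝ))
    (hcard : Fintype.card I * Fintype.card X ≤ Fintype.card V) (t : ℕ)
    (ht : (Fintype.card V : ℝ) * (Fintype.card I : ℝ) *
      (((Fintype.card X).choose t : ℕ) : ℝ) * γ ^ t < 1) :
    ∃ ψ : I × X ↪ V, ∀ v i, (univ.filter (fun j : X => ψ (i, j) ∈ Γ v)).card < t := by
  by_contra hcon
  push Not at hcon
  obtain ⟨e⟩ : Nonempty (I × X ↪ V) := Function.Embedding.nonempty_of_card_le
    (by rw [Fintype.card_prod]; exact hcard)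
  let emb : I → (X ↪ V) := fun i => ⟨fun j => e (i, j), fun a b hab => by
    have := e.injective hab
    exact (Prod.mk.inj this).2⟩
  let Bad : V × I × Finset X → Finset (Equiv.Perm V) := fun q =>
    univ.filter (fun σ : Equiv.Perm V => ∀ a ∈ q.2.2.map (emb q.2.1), σ a ∈ Γ q.1)
  have hcov : (univ : Finset (Equiv.Perm V)) ⊆
      ((univ : Finset V) ×ˢ ((univ : Finset I) ×ˢ powersetCard t (univ : Finset X))).biUnion
        Bad := by
    intro σ _
    obtain ⟨v, i, hvi⟩ := hcon (e.trans σ.toEmbedding)
    obtain ⟨J, hJ1, hJ2⟩ := Finset.exists_subset_card_eq hvi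
    rw [Finset.mem_biUnion]
    refine ⟨(v, i, J), ?_, ?_⟩
    · simp only [Finset.mem_product, Finset.mem_univ, true_and, Finset.mem_powersetCard]
      exact ⟨Finset.subset_univ _, hJ2⟩
    · simp only [Bad, Finset.mem_filter, Finset.mem_univ, true_and]
      intro a ha
      obtain ⟨j, hj, rfl⟩ := Finset.mem_map.1 ha
      exact (Finset.mem_filter.1 (hJ1 hj)).2
  have h1 := (Finset.card_le_card hcov).trans Finset.card_biUnion_le
  have h2 : ∀ q ∈ (univ : Finset V) ×ˢ ((univ : Finset I) ×ˢ powersetCard t (univ : Finset X)),
      ((Bad q).card : ℝ) ≤ γ ^ t * (Fintype.card (Equiv.Perm V) : ℝ) := by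
    rintro ⟨v, i, J⟩ hq
    simp only [Finset.mem_product, Finset.mem_univ, true_and, Finset.mem_powersetCard] at hq
    have h3 := host_perm (J.map (emb i)) (Γ v)
    rw [Finset.card_map, hq.2] at h3
    have hN : (0 : ℝ) < (Fintype.card V : ℝ) := by
      have : Nonempty V := ⟨v⟩
      exact_mod_cast Fintype.card_pos
    have h4 : ((Bad (v, i, J)).card : ℝ) * (Fintype.card V : ℝ) ^ t
        ≤ ((Γ v).card : ℝ) ^ t * (Fintype.card (Equiv.Perm V) : ℝ) := by exact_mod_cast h3
    have h5 : ((Γ v).card : ℝ) ^ t ≤ (γ * (Fintype.card V : ℝ)) ^ t :=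
      pow_le_pow_left₀ (by positivity) (hΓ v) t
    have h6 : ((Bad (v, i, J)).card : ℝ) * (Fintype.card V : ℝ) ^ t
        ≤ (γ ^ t * (Fintype.card (Equiv.Perm V) : ℝ)) * (Fintype.card V : ℝ) ^ t := by
      calc _ ≤ ((Γ v).card : ℝ) ^ t * (Fintype.card (Equiv.Perm V) : ℝ) := h4
        _ ≤ (γ * (Fintype.card V : ℝ)) ^ t * (Fintype.card (Equiv.Perm V) : ℝ) :=
          mul_le_mul_of_nonneg_right h5 (by positivity)
        _ = _ := by rw [mul_pow]; ring
    exact le_of_mul_le_mul_right h6 (by positivity)
  have h7 : ((univ : Finset (Equiv.Perm V)).card : ℝ) ≤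
      ∑ q ∈ (univ : Finset V) ×ˢ ((univ : Finset I) ×ˢ powersetCard t (univ : Finset X)),
        ((Bad q).card : ℝ) := by exact_mod_cast h1
  have h8 := h7.trans (Finset.sum_le_sum h2)
  rw [Finset.sum_const, Finset.card_product, Finset.card_product, Finset.card_powersetCard,
    nsmul_eq_mul, Finset.card_univ, Finset.card_univ, Finset.card_univ, Finset.card_univ] at h8
  have hP : (0 : ℝ) < (Fintype.card (Equiv.Perm V) : ℝ) := by
    exact_mod_cast Fintype.card_pos
  push_cast at h8
  have h9 : (Fintype.card V : ℝ) * ((Fintype.card I : ℝ) * (((Fintype.card X).choose t : ℕ) : ℝ)) *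
      (γ ^ t * (Fintype.card (Equiv.Perm V) : ℝ))
      = ((Fintype.card V : ℝ) * (Fintype.card I : ℝ) *
      (((Fintype.card X).choose t : ℕ) : ℝ) * γ ^ t) * (Fintype.card (Equiv.Perm V) : ℝ) := by ring
  rw [h9] at h8
  have h10 := mul_lt_mul_of_pos_right ht hP
  linarith

/-- change one coordinate -/
def flp {n : ℕ} (i : Fin n) (x : Fin n → Bool) : Fin n → Bool := Function.update x i (!x i)

theorem flp_flp {n : ℕ} (i : Fin n) (x : Fin n → Bool) : flp i (flp i x) = x := by
  unfold flp
  funext j
  by_cases h : j = i
  · subst h; simp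
  · simp [h]

theorem flp_par {n : ℕ} (i : Fin n) (x : Fin n → Bool) :
    Even (univ.filter (fun j => x j = true)).card ↔
      ¬ Even (univ.filter (fun j => flp i x j = true)).card := by
  by_cases h : x i = true
  · have h1 : univ.filter (fun j => flp i x j = true) =
        (univ.filter (fun j => x j = true)).erase i := by
      ext j
      rw [Finset.mem_erase]
      simp only [mem_filter, mem_univ, true_and]
      by_cases hj : j = i
      · subst hj; simp [flp, h]
      · simp [flp, hj]
    rw [h1, Finset.card_erase_of_mem (by simp [h])]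
    have hpos : 0 < (univ.filter (fun j => x j = true)).card :=
      Finset.card_pos.mpr ⟨i, by simp [h]⟩
    obtain ⟨c, hc⟩ : ∃ c, (univ.filter (fun j => x j = true)).card = c + 1 :=
      ⟨(univ.filter (fun j => x j = true)).card - 1, by omega⟩
    rw [hc, Nat.even_add_one, Nat.add_sub_cancel]
  · have hf : x i = false := by simpa using h
    have h1 : univ.filter (fun j => flp i x j = true) =
        insert i (univ.filter (fun j => x j = true)) := by
      ext j
      rw [Finset.mem_insert]
      simp only [mem_filter, mem_univ, true_and]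
      by_cases hj : j = i
      · subst hj; simp [flp, hf]
      · simp [flp, hj]
    rw [h1, Finset.card_insert_of_notMem (by simp [hf]), Nat.even_add_one, not_not]

theorem hd_one {n : ℕ} (x y : Fin n → Bool) : hammingDist x y = 1 ↔ ∃ i, y = flp i x := by
  unfold hammingDist
  rw [Finset.card_eq_one]
  constructor
  · rintro ⟨i, hi⟩
    refine ⟨i, ?_⟩
    funext j
    have hj' := Finset.ext_iff.mp hi j
    simp only [mem_filter, mem_univ, true_and, mem_singleton] at hj'
    by_cases hj : j = i
    · subst hj
      have hne : x j ≠ y j := hj'.mpr rfl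
      simp only [flp, Function.update_self]
      revert hne
      cases x j <;> cases y j <;> simp
    · have hxy : x j = y j := by
        by_contra h
        exact hj (hj'.mp h)
      simp [flp, hj, hxy]
  · rintro ⟨i, rfl⟩
    refine ⟨i, ?_⟩
    ext j
    simp only [mem_filter, mem_univ, true_and, mem_singleton]
    by_cases hj : j = i
    · subst hj
      simp [flp]
    · simp [flp, hj]

open Classical in
/-- elementary facts on the hypercube -/
theorem cube_facts (n : ℕ) (hn : 1 ≤ n) :
    Fintype.card {x : Fin n → Bool // Even (univ.filter (fun i => x i = true)).card} = 2 ^ (n - 1) ∧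
    Fintype.card {x : Fin n → Bool // ¬ Even (univ.filter (fun i => x i = true)).card} =
      2 ^ (n - 1) ∧
    (∀ w : Fin n → Bool, (univ.filter (fun x : Fin n → Bool => hammingDist w x = 1)).card = n) ∧
    (∀ x y : Fin n → Bool, hammingDist x y = 1 →
      (Even (univ.filter (fun i => x i = true)).card ↔
        ¬ Even (univ.filter (fun i => y i = true)).card)) := by
  have hinv : Function.Involutive (flp (⟨0, hn⟩ : Fin n)) := fun x => flp_flp _ x
  have heq : Fintype.card {x : Fin n → Bool // Even (univ.filter (fun i => x i = true)).card}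
      = Fintype.card {x : Fin n → Bool // ¬ Even (univ.filter (fun i => x i = true)).card} :=
    Fintype.card_congr (Equiv.subtypeEquiv hinv.toPerm fun x => flp_par _ x)
  have hcompl : Fintype.card
        {x : Fin n → Bool // ¬ Even (univ.filter (fun i => x i = true)).card}
      = Fintype.card (Fin n → Bool) -
        Fintype.card {x : Fin n → Bool // Even (univ.filter (fun i => x i = true)).card} :=
    Fintype.card_subtype_compl _
  have hle : Fintype.card {x : Fin n → Bool // Even (univ.filter (fun i => x i = true)).card}
      ≤ Fintype.card (Fin n → Bool) := Fintype.card_subtype_le _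
  have htot : Fintype.card (Fin n → Bool) = 2 * 2 ^ (n - 1) := by
    rw [Fintype.card_fun, Fintype.card_bool, Fintype.card_fin, ← pow_succ']
    congr 1
    omega
  have h1 : Fintype.card {x : Fin n → Bool // Even (univ.filter (fun i => x i = true)).card}
      = 2 ^ (n - 1) := by omega
  refine ⟨h1, heq ▸ h1, ?_, ?_⟩
  · intro w
    have himg : (univ.filter (fun x : Fin n → Bool => hammingDist w x = 1))
        = Finset.image (fun i => flp i w) univ := by
      ext x
      simp only [mem_filter, mem_univ, true_and, mem_image]
      rw [hd_one]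
      exact exists_congr fun i => eq_comm
    rw [himg, Finset.card_image_of_injective, Finset.card_univ, Fintype.card_fin]
    intro i j hij
    by_contra hne
    have h2 := congrFun hij i
    simp only [flp, Function.update_self] at h2
    rw [Function.update_of_ne hne] at h2
    revert h2
    cases w i <;> simp
  · intro x y hxy
    obtain ⟨i, rfl⟩ := (hd_one x y).mp hxy
    exact flp_par i x

open Classical in
/-- from a good shift `s` and matching `φ` to an embedding of the cube
(`hpar`: adjacent cube vertices have different parity) -/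
theorem cube_transfer {n : ℕ} {I X : Type} [Fintype I] [DecidableEq I] [Fintype X] [DecidableEq X]
    [AddCommGroup X] (G : SimpleGraph (Fin (2 ^ n)))
    (hpar : ∀ x y : Fin n → Bool, hammingDist x y = 1 →
      (Even (univ.filter (fun i => x i = true)).card ↔
        ¬ Even (univ.filter (fun i => y i = true)).card))
    (e : {x : Fin n → Bool // Even (univ.filter (fun i => x i = true)).card} ≃ I × X)
    (ψ : I × X ↪ Fin (2 ^ n)) (s : I → X)
    (φ : {x : Fin n → Bool // ¬ Even (univ.filter (fun i => x i = true)).card} →
      {v : Fin (2 ^ n) // v ∉ Set.range ψ}) (hφ : Function.Injective φ)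
    (hok : ∀ w y, hammingDist w.1 y.1 = 1 →
      G.Adj (φ w).1 (ψ ((e y).1, (e y).2 + s (e y).1))) :
    ∃ f : (Fin n → Bool) ↪ Fin (2 ^ n),
      ∀ x y : Fin n → Bool, hammingDist x y = 1 → G.Adj (f x) (f y) := by
  let f : (Fin n → Bool) → Fin (2 ^ n) := fun x =>
    if h : Even (univ.filter (fun i => x i = true)).card then
      ψ ((e ⟨x, h⟩).1, (e ⟨x, h⟩).2 + s (e ⟨x, h⟩).1) else (φ ⟨x, h⟩).1
  have f1 : ∀ (x : Fin n → Bool) (h : Even (univ.filter (fun i => x i = true)).card),
      f x = ψ ((e ⟨x, h⟩).1, (e ⟨x, h⟩).2 + s (e ⟨x, h⟩).1) := fun x h => dif_pos h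
  have f2 : ∀ (x : Fin n → Bool) (h : ¬ Even (univ.filter (fun i => x i = true)).card),
      f x = (φ ⟨x, h⟩).1 := fun x h => dif_neg h
  have hinj : Function.Injective f := by
    intro x y hxy
    by_cases hx : Even (univ.filter (fun i => x i = true)).card
    · by_cases hy : Even (univ.filter (fun i => y i = true)).card
      · rw [f1 x hx, f1 y hy] at hxy
        have h1 := ψ.injective hxy
        rw [Prod.mk.injEq] at h1
        obtain ⟨h2, h3⟩ := h1
        rw [h2] at h3
        have h4 := add_right_cancel h3
        have h5 : e ⟨x, hx⟩ = e ⟨y, hy⟩ := Prod.ext h2 h4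
        have h6 := e.injective h5
        exact congrArg Subtype.val h6
      · rw [f1 x hx, f2 y hy] at hxy
        exact absurd ⟨_, hxy⟩ (φ ⟨y, hy⟩).2
    · by_cases hy : Even (univ.filter (fun i => y i = true)).card
      · rw [f2 x hx, f1 y hy] at hxy
        exact absurd ⟨_, hxy.symm⟩ (φ ⟨x, hx⟩).2
      · rw [f2 x hx, f2 y hy] at hxy
        have h6 := hφ (Subtype.ext hxy)
        exact congrArg Subtype.val h6
  refine ⟨⟨f, hinj⟩, fun x y hxy => ?_⟩
  show G.Adj (f x) (f y)
  have hp := hpar x y hxy
  by_cases hx : Even (univ.filter (fun i => x i = true)).card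
  · have hy := hp.mp hx
    rw [f1 x hx, f2 y hy]
    exact (hok ⟨y, hy⟩ ⟨x, hx⟩ (by rw [hammingDist_comm]; exact hxy)).symm
  · have hy : Even (univ.filter (fun i => y i = true)).card := by
      by_contra hcon
      exact hx (hp.mpr hcon)
    rw [f2 x hx, f1 y hy]
    exact hok ⟨x, hx⟩ ⟨y, hy⟩ hxy

end Pool.Agent.QCube
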