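import Mathlib
import Pool.Agent.QCube.Conc3
import Pool.Agent.QCube.Cube

set_option autoImplicit false

namespace Pool.Agent.QCube

open Finset

set_option maxHeartbeats 4000000 in
open Classical in
/-- core with forbidden sets `G w` (small degrees on both sides).  Variant of jobs 34203 (`core`) and
34786 (`core2`), whose solutions can be adapted.
Events `A w = {s : card((univ \ G w).filter (fun v => Ok (P w) (H v) s)) ≤ p*card(univ \ G w)/2}`
(`cand_conc3`, T = univ \ G w, |T| ≥ h - g1 ≥ h/2, prob ≤ q1).  Exceptional: for every v,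
`deg_conc3` with O' = {w | v ∉ G w}, |O'| ≥ h - g2 ≥ h/2; for every `T' : Fin m → R` which is nice,
`nice_conc3`.  `hall_lemma` with `adj w v = Ok (P w) (H v) s ∧ v ∉ G w`, `d = δ h = p h/4`.
For T with |T| ≥ δ h: `sample3` (Ω = I → X, ρ = p/4) as |T \ G w| ≥ |T| - g1 ≥ |T|/2 and `cand_conc3` for
T \ G w gives probability ≤ q2. -/
theorem core3 {I O R X : Type} [Fintype I] [DecidableEq I] [Nonempty I] [Fintype O] [DecidableEq O]
    [Fintype R] [DecidableEq R] [Fintype X] [DecidableEq X] [AddCommGroup X]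
    (n m h : ℕ) (hn : 1 ≤ n) (hh : 0 < h) (hO : Fintype.card O = h) (hR : Fintype.card R = h)
    (κ a p δ q1 q2 e g1 g2 : ℝ) (hκ0 : 0 ≤ κ) (hκ1 : κ ≤ 1) (ha : 0 < a)
    (hp0 : 0 < p) (hp1 : p ≤ 1)
    (hp : p ≤ (1 - κ) ^ n) (hδ : δ = p / 4) (he : e = (n : ℝ) * (Fintype.card X : ℝ))
    (hg1 : g1 ≤ δ * (h : ℝ) / 2) (hg2 : g2 ≤ (h : ℝ) / 2)
    (hq1 : q1 = Real.exp (-(p * ((h : ℝ) / 2)) ^ 2 / (8 * n * a ^ 2)))
    (hq2 : q2 = Real.exp (-(p * (δ * (h : ℝ) / 2)) ^ 2 / (8 * n * a ^ 2)))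
    (N1 : 4 * q1 * ((n * (n * Fintype.card X) : ℕ) : ℝ) ≤ 1)
    (N2 : q2 + (1 - p / 4) ^ m ≤ δ / 4)
    (N3 : (h : ℝ) * Real.exp (-(p * ((h : ℝ) / 2)) ^ 2 / (8 * (Fintype.card I : ℝ) * e ^ 2)) +
        (h : ℝ) ^ m * Real.exp (-(δ * (h : ℝ)) ^ 2 / (4 * (Fintype.card I : ℝ) * e ^ 2)) <
        (1 - 2 * q1) ^ h)
    (P : O → Finset (I × X)) (H : R → Finset (I × X)) (G : O → Finset R)
    (hPn : ∀ w, (P w).card ≤ n) (hPi : ∀ w, ∀ x ∈ P w, ∀ y ∈ P w, x.1 = y.1 → x = y)
    (hP3 : ∀ x : I × X, (univ.filter (fun w => x ∈ P w)).card ≤ n)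
    (hH1 : ∀ w v, v ∉ G w → ∀ x ∈ P w,
      ((univ.filter (fun j : X => (x.1, j) ∈ H v)).card : ℝ) ≤ κ * (Fintype.card X : ℝ))
    (hH2 : ∀ x : I × X, ((univ.filter (fun v => x ∈ H v)).card : ℝ) ≤ a)
    (hG1 : ∀ w, ((G w).card : ℝ) ≤ g1)
    (hG2 : ∀ v, ((univ.filter (fun w => v ∈ G w)).card : ℝ) ≤ g2) :
    ∃ s : I → X, ∃ φ : O → R, Function.Injective φ ∧
      ∀ w, Ok (P w) (H (φ w)) s ∧ φ w ∉ G w := by
  haveI : Nonempty X := ⟨0⟩
  have hN : 0 < (Fintype.card (I → X) : ℝ) := by exact_mod_cast Fintype.card_pos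
  have hX : (1:ℝ) ≤ (Fintype.card X : ℝ) := by
    exact_mod_cast Nat.succ_le_of_lt (Fintype.card_pos (α := X))
  have hh' : (0:ℝ) < h := by exact_mod_cast hh
  have hn' : (1:ℝ) ≤ n := by exact_mod_cast hn
  have hδ0 : 0 < δ := by rw [hδ]; positivity
  have he0 : 0 < e := by rw [he]; positivity
  have hb := hit_bounds P n hPn hP3
  have hhit : ∀ i, ((univ.filter (fun w => ∃ x ∈ P w, x.1 = i)).card : ℝ) ≤ e := by
    intro i
    rw [he]
    have := hb.1 i
    exact_mod_cast this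
  have hq10 : 0 ≤ q1 := by rw [hq1]; exact (Real.exp_pos _).le
  have hδh : δ * (h : ℝ) / 2 ≤ (h : ℝ) / 2 := by
    rw [hδ]; nlinarith
  -- lll
  have hFc : ∀ w, (h : ℝ) / 2 ≤ (((univ : Finset R) \ G w).card : ℝ) := by
    intro w
    have h1 : ((univ : Finset R) \ G w).card + (G w).card = h := by
      rw [Finset.card_sdiff_add_card_eq_card (Finset.subset_univ _), Finset.card_univ, hR]
    have h2 : (((univ : Finset R) \ G w).card : ℝ) + ((G w).card : ℝ) = (h : ℝ) := by
      exact_mod_cast h1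
    have h3 := hG1 w
    linarith
  obtain ⟨O', hO'def⟩ : ∃ O' : R → Finset O, O' = fun v => univ.filter (fun w => v ∉ G w) :=
    ⟨_, rfl⟩
  have hOc : ∀ v, (h : ℝ) / 2 ≤ ((O' v).card : ℝ) := by
    intro v
    have h1 : (univ.filter (fun w => v ∈ G w)).card + (univ.filter (fun w => v ∉ G w)).card = h := by
      rw [Finset.card_filter_add_card_filter_not, Finset.card_univ, hO]
    have h2 : ((univ.filter (fun w => v ∈ G w)).card : ℝ) +
        ((univ.filter (fun w => v ∉ G w)).card : ℝ) = (h : ℝ) := by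
      exact_mod_cast h1
    have h3 := hG2 v
    rw [hO'def]
    show (h : ℝ) / 2 ≤ ((univ.filter (fun w => v ∉ G w)).card : ℝ)
    linarith
  obtain ⟨A, hAdef⟩ : ∃ A : O → Finset (I → X), A = fun w => univ.filter (fun s : I → X =>
        ((((univ : Finset R) \ G w).filter (fun v => Ok (P w) (H v) s)).card : ℝ) ≤
          p * (((univ : Finset R) \ G w).card : ℝ) / 2) := ⟨_, rfl⟩
  have hdep : ∀ w, ∀ s s' : I → X, (∀ i ∈ (P w).image Prod.fst, s i = s' i) →
      (s ∈ A w ↔ s' ∈ A w) := by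
    intro w s s' hs
    have h2 : ∀ v, Ok (P w) (H v) s ↔ Ok (P w) (H v) s' := by
      intro v
      unfold Ok
      constructor
      · intro hx x hxP
        have h3 := hs x.1 (Finset.mem_image_of_mem _ hxP)
        rw [← h3]; exact hx x hxP
      · intro hx x hxP
        have h3 := hs x.1 (Finset.mem_image_of_mem _ hxP)
        rw [h3]; exact hx x hxP
    rw [hAdef]
    simp only [mem_filter, mem_univ, true_and, h2]
  have hA : ∀ w, ((A w).card : ℝ) ≤ q1 * (Fintype.card (I → X) : ℝ) := by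
    intro w
    have h1 := cand_conc3 (P w) H n hn κ a p hκ0 hκ1 ha hp0 hp (hPn w) (hPi w)
      ((univ : Finset R) \ G w) (fun v hv x hx => hH1 w v (Finset.mem_sdiff.1 hv).2 x hx) hH2
    rw [hAdef, hq1]
    refine h1.trans ?_
    refine mul_le_mul_of_nonneg_right ?_ hN.le
    apply Real.exp_le_exp.mpr
    have h3 : p * ((h : ℝ) / 2) ≤ p * (((univ : Finset R) \ G w).card : ℝ) :=
      mul_le_mul_of_nonneg_left (hFc w) hp0.le
    have h4 : (p * ((h : ℝ) / 2)) ^ 2 ≤ (p * (((univ : Finset R) \ G w).card : ℝ)) ^ 2 :=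
      pow_le_pow_left₀ (by positivity) h3 2
    have h5 : 0 < 8 * (n:ℝ) * a ^ 2 := by positivity
    exact div_le_div_of_nonneg_right (neg_le_neg h4) h5.le
  have hq4 : 4 * q1 ≤ 1 := by
    refine le_trans ?_ N1
    have h1 : (1:ℝ) ≤ ((n * (n * Fintype.card X) : ℕ) : ℝ) := by
      have : 0 < n * (n * Fintype.card X) := by
        have := Fintype.card_pos (α := X)
        positivity
      exact_mod_cast this
    nlinarith
  have hL := lll A (fun w => (P w).image Prod.fst) hdep q1 (n * (n * Fintype.card X)) hq10 hA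
    hb.2 N1 hq4
  rw [hO] at hL
  -- exceptional sets
  obtain ⟨E1, hE1def⟩ : ∃ E1 : R → Finset (I → X), E1 = fun v => univ.filter (fun s : I → X =>
        (((O' v).filter (fun w => Ok (P w) (H v) s)).card : ℝ) ≤ p * ((O' v).card : ℝ) / 2) :=
    ⟨_, rfl⟩
  have hI0 : (0:ℝ) < (Fintype.card I : ℝ) := by exact_mod_cast Fintype.card_pos
  have hE1 : ∀ v, ((E1 v).card : ℝ) ≤
      Real.exp (-(p * ((h : ℝ) / 2)) ^ 2 / (8 * (Fintype.card I : ℝ) * e ^ 2)) *
        (Fintype.card (I → X) : ℝ) := by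
    intro v
    have h1 := deg_conc3 P (H v) n κ e p hκ0 hκ1 he0 hp0 hp hPn hPi hhit (O' v)
      (fun w hw x hx => hH1 w v (by rw [hO'def] at hw; exact (Finset.mem_filter.1 hw).2) x hx)
    rw [hE1def]
    refine h1.trans ?_
    refine mul_le_mul_of_nonneg_right ?_ hN.le
    apply Real.exp_le_exp.mpr
    have h3 : p * ((h : ℝ) / 2) ≤ p * ((O' v).card : ℝ) :=
      mul_le_mul_of_nonneg_left (hOc v) hp0.le
    have h4 : (p * ((h : ℝ) / 2)) ^ 2 ≤ (p * ((O' v).card : ℝ)) ^ 2 :=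
      pow_le_pow_left₀ (by positivity) h3 2
    have h5 : 0 < 8 * (Fintype.card I : ℝ) * e ^ 2 := by positivity
    exact div_le_div_of_nonneg_right (neg_le_neg h4) h5.le
  obtain ⟨E2, hE2def⟩ : ∃ E2 : (Fin m → R) → Finset (I → X), E2 = fun T' =>
      univ.filter (fun s : I → X => δ * (h : ℝ) ≤
        ((univ.filter (fun w => ∀ k, ¬ (Ok (P w) (H (T' k)) s ∧ T' k ∉ G w))).card : ℝ)) :=
    ⟨_, rfl⟩
  obtain ⟨nice, hnicedef⟩ : ∃ nice : Finset (Fin m → R), nice = univ.filter (fun T' =>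
      (∑ s : I → X, ((univ.filter
        (fun w => ∀ k, ¬ (Ok (P w) (H (T' k)) s ∧ T' k ∉ G w))).card : ℝ)) ≤
        δ / 4 * (h : ℝ) * (Fintype.card (I → X) : ℝ)) := ⟨_, rfl⟩
  have hE2 : ∀ T' ∈ nice, ((E2 T').card : ℝ) ≤
      Real.exp (-(δ * (h : ℝ)) ^ 2 / (4 * (Fintype.card I : ℝ) * e ^ 2)) *
        (Fintype.card (I → X) : ℝ) := by
    intro T' hT'
    rw [hnicedef, mem_filter] at hT'
    have h0 : (∑ s : I → X, ((univ.filter
        (fun w => ∀ k, ¬ (Ok (P w) (H (T' k)) s ∧ T' k ∉ G w))).card : ℝ)) ≤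
        δ / 4 * (h : ℝ) * (Fintype.card (I → X) : ℝ) := by
      convert hT'.2
    have h1 := nice_conc3 P H G m T' δ e hδ0 he0 hhit (by rw [hO]; convert h0)
    rw [hO] at h1
    rw [hE2def]
    convert h1
  have hnicecard : (nice.card : ℝ) ≤ (h : ℝ) ^ m := by
    have h1 : nice.card ≤ Fintype.card (Fin m → R) := Finset.card_le_univ _
    rw [Fintype.card_fun, Fintype.card_fin, hR] at h1
    exact_mod_cast h1
  -- choose s
  obtain ⟨s, hsA, hsE1, hsE2⟩ : ∃ s : I → X, (∀ w, s ∉ A w) ∧ (∀ v, s ∉ E1 v) ∧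
      (∀ T' ∈ nice, s ∉ E2 T') := by
    by_contra hcon
    push Not at hcon
    have hsub : (univ.filter (fun s : I → X => ∀ w, s ∉ A w)) ⊆
        (univ.biUnion E1) ∪ (nice.biUnion E2) := by
      intro s hs
      rw [mem_filter] at hs
      rw [mem_union, mem_biUnion, mem_biUnion]
      by_cases h1 : ∀ v, s ∉ E1 v
      · obtain ⟨T', hT', h2⟩ := hcon s hs.2 h1
        exact Or.inr ⟨T', hT', h2⟩
      · push Not at h1
        obtain ⟨v, hv⟩ := h1
        exact Or.inl ⟨v, mem_univ _, hv⟩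
    have h1 : ((univ.filter (fun s : I → X => ∀ w, s ∉ A w)).card : ℝ) ≤
        (((univ : Finset R).biUnion E1).card : ℝ) + ((nice.biUnion E2).card : ℝ) := by
      exact_mod_cast (Finset.card_le_card hsub).trans (Finset.card_union_le _ _)
    have h2 : (((univ : Finset R).biUnion E1).card : ℝ) ≤
        (h : ℝ) * (Real.exp (-(p * ((h : ℝ) / 2)) ^ 2 / (8 * (Fintype.card I : ℝ) * e ^ 2)) *
        (Fintype.card (I → X) : ℝ)) := by
      have h3 : (((univ : Finset R).biUnion E1).card : ℝ) ≤ ∑ v : R, ((E1 v).card : ℝ) := by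
        exact_mod_cast Finset.card_biUnion_le
      refine h3.trans ((Finset.sum_le_sum fun v _ => hE1 v).trans ?_)
      rw [Finset.sum_const, Finset.card_univ, hR, nsmul_eq_mul]
    have h3 : ((nice.biUnion E2).card : ℝ) ≤
        (h : ℝ) ^ m * (Real.exp (-(δ * (h : ℝ)) ^ 2 / (4 * (Fintype.card I : ℝ) * e ^ 2)) *
        (Fintype.card (I → X) : ℝ)) := by
      have h4 : ((nice.biUnion E2).card : ℝ) ≤ ∑ v ∈ nice, ((E2 v).card : ℝ) := by
        exact_mod_cast Finset.card_biUnion_le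
      refine h4.trans ((Finset.sum_le_sum fun v hv => hE2 v hv).trans ?_)
      rw [Finset.sum_const, nsmul_eq_mul]
      exact mul_le_mul_of_nonneg_right hnicecard (by positivity)
    have h5 := mul_lt_mul_of_pos_right N3 hN
    have h6 : ((h : ℝ) * Real.exp (-(p * ((h : ℝ) / 2)) ^ 2 / (8 * (Fintype.card I : ℝ) * e ^ 2)) +
        (h : ℝ) ^ m * Real.exp (-(δ * (h : ℝ)) ^ 2 / (4 * (Fintype.card I : ℝ) * e ^ 2))) *
        (Fintype.card (I → X) : ℝ) =
        (h : ℝ) * (Real.exp (-(p * ((h : ℝ) / 2)) ^ 2 / (8 * (Fintype.card I : ℝ) * e ^ 2)) *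
        (Fintype.card (I → X) : ℝ)) +
        (h : ℝ) ^ m * (Real.exp (-(δ * (h : ℝ)) ^ 2 / (4 * (Fintype.card I : ℝ) * e ^ 2)) *
        (Fintype.card (I → X) : ℝ)) := by ring
    rw [h6] at h5
    linarith
  -- Hall
  have hd : 0 < δ * (h : ℝ) := by positivity
  have hdδ : δ * (h : ℝ) = p * ((h : ℝ) / 2) / 2 := by rw [hδ]; ring
  obtain ⟨adj, hadj⟩ : ∃ adj : O → R → Prop, ∀ w v, adj w v ↔ (Ok (P w) (H v) s ∧ v ∉ G w) :=
    ⟨fun w v => Ok (P w) (H v) s ∧ v ∉ G w, fun _ _ => Iff.rfl⟩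
  suffices hgoal : ∃ φ : O → R, Function.Injective φ ∧ ∀ w, adj w (φ w) by
    obtain ⟨φ, hφ1, hφ2⟩ := hgoal
    exact ⟨s, φ, hφ1, fun w => (hadj w (φ w)).1 (hφ2 w)⟩
  refine hall_lemma h hO hR hh adj (δ * (h : ℝ)) hd ?_ ?_ ?_
  · intro w
    have h1 := hsA w
    rw [hAdef] at h1
    simp only [mem_filter, mem_univ, true_and, not_le] at h1
    have h2 : p * ((h : ℝ) / 2) ≤ p * (((univ : Finset R) \ G w).card : ℝ) :=
      mul_le_mul_of_nonneg_left (hFc w) hp0.le
    have h3 : ((univ : Finset R) \ G w).filter (fun v => Ok (P w) (H v) s) ⊆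
        univ.filter (fun v => adj w v) := by
      intro v hv
      rw [mem_filter, mem_sdiff] at hv
      rw [mem_filter]
      exact ⟨mem_univ _, (hadj w v).2 ⟨hv.2, hv.1.2⟩⟩
    have h4 : ((((univ : Finset R) \ G w).filter (fun v => Ok (P w) (H v) s)).card : ℝ) ≤
        ((univ.filter (fun v => adj w v)).card : ℝ) := by
      exact_mod_cast Finset.card_le_card h3
    rw [hdδ]
    linarith
  · intro v
    have h1 := hsE1 v
    rw [hE1def] at h1
    simp only [mem_filter, mem_univ, true_and, not_le] at h1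
    have h2 : p * ((h : ℝ) / 2) ≤ p * ((O' v).card : ℝ) :=
      mul_le_mul_of_nonneg_left (hOc v) hp0.le
    have h3 : (O' v).filter (fun w => Ok (P w) (H v) s) ⊆ univ.filter (fun w => adj w v) := by
      intro w hw
      rw [mem_filter] at hw
      have hw1 := hw.1
      rw [hO'def] at hw1
      rw [mem_filter]
      exact ⟨mem_univ _, (hadj w v).2 ⟨hw.2, (Finset.mem_filter.1 hw1).2⟩⟩
    have h4 : (((O' v).filter (fun w => Ok (P w) (H v) s)).card : ℝ) ≤
        ((univ.filter (fun w => adj w v)).card : ℝ) := by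
      exact_mod_cast Finset.card_le_card h3
    rw [hdδ]
    linarith
  · intro T hT
    have hTpos : 0 < T.card := by
      have : (0:ℝ) < T.card := lt_of_lt_of_le hd hT
      exact_mod_cast this
    have hTne : T.Nonempty := Finset.card_pos.mp hTpos
    have hTG : ∀ w, (T.card : ℝ) - g1 ≤ ((T \ G w).card : ℝ) := by
      intro w
      have h1 : T.card ≤ (T \ G w).card + (G w).card := by
        have := Finset.card_le_card (show T ⊆ (T \ G w) ∪ G w from by
          intro v hv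
          by_cases hvG : v ∈ G w
          · exact Finset.mem_union_right _ hvG
          · exact Finset.mem_union_left _ (Finset.mem_sdiff.2 ⟨hv, hvG⟩))
        exact this.trans (Finset.card_union_le _ _)
      have h2 : (T.card : ℝ) ≤ ((T \ G w).card : ℝ) + ((G w).card : ℝ) := by exact_mod_cast h1
      have h3 := hG1 w
      linarith
    have hq : ∀ w, ((univ.filter (fun s : I → X =>
        ((T.filter (fun v => Ok (P w) (H v) s ∧ v ∉ G w)).card : ℝ) ≤
          p / 4 * (T.card : ℝ))).card : ℝ) ≤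
        q2 * (Fintype.card (I → X) : ℝ) := by
      intro w
      have h1 := cand_conc3 (P w) H n hn κ a p hκ0 hκ1 ha hp0 hp (hPn w) (hPi w)
        (T \ G w) (fun v hv x hx => hH1 w v (Finset.mem_sdiff.1 hv).2 x hx) hH2
      have hTGw := hTG w
      have hsub : (univ.filter (fun s : I → X =>
          ((T.filter (fun v => Ok (P w) (H v) s ∧ v ∉ G w)).card : ℝ) ≤ p / 4 * (T.card : ℝ))) ⊆
          (univ.filter (fun s : I → X =>
          (((T \ G w).filter (fun v => Ok (P w) (H v) s)).card : ℝ) ≤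
            p * ((T \ G w).card : ℝ) / 2)) := by
        intro s' hs'
        rw [mem_filter] at hs' ⊢
        refine ⟨mem_univ _, ?_⟩
        have e1 : (T \ G w).filter (fun v => Ok (P w) (H v) s') =
            T.filter (fun v => Ok (P w) (H v) s' ∧ v ∉ G w) := by
          ext v
          simp only [mem_filter, mem_sdiff]
          tauto
        rw [e1]
        refine hs'.2.trans ?_
        have h5 : (T.card : ℝ) / 2 ≤ ((T \ G w).card : ℝ) := by linarith
        nlinarith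
      have h2 : ((univ.filter (fun s : I → X =>
          ((T.filter (fun v => Ok (P w) (H v) s ∧ v ∉ G w)).card : ℝ) ≤
            p / 4 * (T.card : ℝ))).card : ℝ) ≤ ((univ.filter (fun s : I → X =>
          (((T \ G w).filter (fun v => Ok (P w) (H v) s)).card : ℝ) ≤
            p * ((T \ G w).card : ℝ) / 2)).card : ℝ) := by
        exact_mod_cast Finset.card_le_card hsub
      refine h2.trans (h1.trans ?_)
      refine mul_le_mul_of_nonneg_right ?_ hN.le
      rw [hq2]
      apply Real.exp_le_exp.mpr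
      have h3 : p * (δ * (h:ℝ) / 2) ≤ p * ((T \ G w).card : ℝ) := by
        apply mul_le_mul_of_nonneg_left _ hp0.le
        linarith
      have h4 : (p * (δ * (h:ℝ) / 2)) ^ 2 ≤ (p * ((T \ G w).card : ℝ)) ^ 2 :=
        pow_le_pow_left₀ (by positivity) h3 2
      have h5 : 0 < 8 * (n:ℝ) * a ^ 2 := by positivity
      exact div_le_div_of_nonneg_right (neg_le_neg h4) h5.le
    obtain ⟨T', hT'T, hT'⟩ := sample3 (fun w v (s : I → X) => Ok (P w) (H v) s ∧ v ∉ G w) m (p / 4)
      q2 (by positivity) (by linarith) T hTne (fun w => by convert hq w)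
    have hnice : T' ∈ nice := by
      rw [hnicedef, mem_filter]
      refine ⟨mem_univ _, ?_⟩
      have h6 : (∑ s : I → X, ((univ.filter
          (fun w => ∀ k, ¬ (Ok (P w) (H (T' k)) s ∧ T' k ∉ G w))).card : ℝ)) ≤
          (q2 + (1 - p / 4) ^ m) * (Fintype.card O : ℝ) * (Fintype.card (I → X) : ℝ) := by
        convert hT'
      refine h6.trans ?_
      rw [hO]
      apply mul_le_mul_of_nonneg_right _ hN.le
      exact mul_le_mul_of_nonneg_right N2 hh'.le
    have h1 := hsE2 T' hnice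
    rw [hE2def] at h1
    simp only [mem_filter, mem_univ, true_and, not_le] at h1
    have h2 : (univ.filter (fun w => ∀ v ∈ T, ¬ adj w v)) ⊆
        (univ.filter (fun w => ∀ k, ¬ (Ok (P w) (H (T' k)) s ∧ T' k ∉ G w))) := by
      intro w hw
      rw [mem_filter] at hw ⊢
      exact ⟨mem_univ _, fun k h6 => hw.2 _ (hT'T k) ((hadj _ _).2 h6)⟩
    have h3 : ((univ.filter (fun w => ∀ v ∈ T, ¬ adj w v)).card : ℝ) ≤
        ((univ.filter (fun w => ∀ k, ¬ (Ok (P w) (H (T' k)) s ∧ T' k ∉ G w))).card : ℝ) := by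
      exact_mod_cast Finset.card_le_card h2
    exact lt_of_le_of_lt h3 h1

end Pool.Agent.QCube
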