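import Mathlib
import Pool.Agent.QCube.Defs

set_option autoImplicit false

namespace Pool.Agent.QCube

open Finset

open Classical in
theorem gb_min {A T β : Type} [Fintype A] [DecidableEq A] [Fintype T] [DecidableEq T]
    [DecidableEq β] (bl : T → β) (conf : A → A → Prop) (hsymm : ∀ x y, conf x y → conf y x)
    (d L : ℕ) (hd : ∀ x, (univ.filter (fun y => y ≠ x ∧ conf x y)).card ≤ d)
    (hbl : ∀ c, (univ.filter (fun t => bl t = c)).card ≤ L) (e0 : A ≃ T)
    (hA : (2 * d + 1) * L < Fintype.card A) :
    ∃ e : A ≃ T, ∀ x y, x ≠ y → bl (e x) = bl (e y) → ¬ conf x y := by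
  have hne : Nonempty (A ≃ T) := ⟨e0⟩
  let P : (A ≃ T) → Finset (A × A) := fun e =>
    univ.filter (fun p => p.1 ≠ p.2 ∧ bl (e p.1) = bl (e p.2) ∧ conf p.1 p.2)
  obtain ⟨e, he⟩ := Finite.exists_min (fun e : A ≃ T => (P e).card)
  refine ⟨e, ?_⟩
  intro x y hxy hb hc
  -- block sizes on `A`
  have hblA : ∀ c, (univ.filter (fun z => bl (e z) = c)).card ≤ L := by
    intro c
    refine le_trans ?_ (hbl c)
    apply Finset.card_le_card_of_injOn (fun z => e z)
    · intro z hz
      simp only [coe_filter, mem_univ, true_and, Set.mem_ofPred_eq] at hz ⊢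
      exact hz
    · intro a _ b _ h
      exact e.injective h
  -- bad vertices
  let NX : Finset A := univ.filter (fun v => v ≠ x ∧ conf x v)
  let BX : Finset A := univ.filter (fun v => bl (e v) = bl (e x))
  let Bad : Finset A := BX ∪ NX.biUnion (fun v => univ.filter (fun z => bl (e z) = bl (e v))) ∪
    BX.biUnion (fun v => univ.filter (fun z => z ≠ v ∧ conf v z))
  have hBad : Bad.card ≤ (2 * d + 1) * L := by
    have h1 : BX.card ≤ L := hblA _
    have h2 : (NX.biUnion (fun v => univ.filter (fun z => bl (e z) = bl (e v)))).card ≤ d * L :=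
      (Finset.card_biUnion_le_card_mul _ _ L (fun v _ => hblA _)).trans
        (Nat.mul_le_mul_right L (hd x))
    have h3 : (BX.biUnion (fun v => univ.filter (fun z => z ≠ v ∧ conf v z))).card ≤ L * d :=
      (Finset.card_biUnion_le_card_mul _ _ d (fun v _ => hd v)).trans
        (Nat.mul_le_mul_right d h1)
    have h4 : Bad.card ≤ (BX ∪ NX.biUnion (fun v => univ.filter
      (fun z => bl (e z) = bl (e v)))).card + _ := Finset.card_union_le _ _
    have h5 : (BX ∪ NX.biUnion (fun v => univ.filter
      (fun z => bl (e z) = bl (e v)))).card ≤ BX.card + _ := Finset.card_union_le _ _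
    calc Bad.card ≤ (L + d * L) + L * d := by omega
      _ = (2 * d + 1) * L := by ring
  obtain ⟨z, hz⟩ : ∃ z, z ∉ Bad := by
    by_contra hcon
    push Not at hcon
    have : Bad = univ := by
      ext w
      simp [hcon w]
    rw [this, Finset.card_univ] at hBad
    omega
  have hz1 : bl (e z) ≠ bl (e x) := by
    intro h
    apply hz
    apply Finset.mem_union_left
    apply Finset.mem_union_left
    simp [BX, h]
  have hz2 : ∀ v, v ≠ z → bl (e v) = bl (e z) → ¬ conf x v := by
    intro v hvz hbv hcv
    apply hz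
    apply Finset.mem_union_left
    apply Finset.mem_union_right
    rw [Finset.mem_biUnion]
    refine ⟨v, ?_, ?_⟩
    · simp only [NX, mem_filter, mem_univ, true_and]
      refine ⟨?_, hcv⟩
      rintro rfl
      exact hz1 hbv.symm
    · simp [hbv]
  have hz3 : ∀ v, v ≠ x → bl (e v) = bl (e x) → ¬ conf z v := by
    intro v hvx hbv hcv
    apply hz
    apply Finset.mem_union_right
    rw [Finset.mem_biUnion]
    refine ⟨v, ?_, ?_⟩
    · simp [BX, hbv]
    · simp only [mem_filter, mem_univ, true_and]
      refine ⟨?_, hsymm _ _ hcv⟩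
      rintro rfl
      exact hz1 hbv
  have hxz : x ≠ z := by
    rintro rfl
    exact hz1 rfl
  let e' : A ≃ T := (Equiv.swap x z).trans e
  have ex : e' x = e z := by simp [e']
  have ez : e' z = e x := by simp [e']
  have eo : ∀ w, w ≠ x → w ≠ z → e' w = e w := by
    intro w h1 h2
    simp [e', Equiv.swap_apply_of_ne_of_ne h1 h2]
  have hx' : ∀ v, v ≠ x → bl (e' v) = bl (e' x) → ¬ conf x v := by
    intro v hvx hbv
    rw [ex] at hbv
    by_cases hvz : v = z
    · subst hvz
      rw [ez] at hbv
      exact absurd hbv.symm hz1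
    · rw [eo v hvx hvz] at hbv
      exact hz2 v hvz hbv
  have hz' : ∀ v, v ≠ z → bl (e' v) = bl (e' z) → ¬ conf z v := by
    intro v hvz hbv
    rw [ez] at hbv
    by_cases hvx : v = x
    · subst hvx
      rw [ex] at hbv
      exact absurd hbv hz1
    · rw [eo v hvx hvz] at hbv
      exact hz3 v hvx hbv
  have hsub : P e' ⊂ P e := by
    rw [Finset.ssubset_iff_of_subset]
    · refine ⟨(x, y), ?_, ?_⟩
      · simp only [P, mem_filter, mem_univ, true_and]
        exact ⟨hxy, hb, hc⟩
      · simp only [P, mem_filter, mem_univ, true_and]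
        rintro ⟨_, h2, h3⟩
        exact hx' y (Ne.symm hxy) h2.symm h3
    · rintro ⟨u, v⟩ huv
      simp only [P, mem_filter, mem_univ, true_and] at huv ⊢
      obtain ⟨h1, h2, h3⟩ := huv
      have hux : u ≠ x := by
        rintro rfl
        exact hx' v (Ne.symm h1) h2.symm h3
      have huz : u ≠ z := by
        rintro rfl
        exact hz' v (Ne.symm h1) h2.symm h3
      have hvx : v ≠ x := by
        rintro rfl
        exact hx' u h1 h2 (hsymm _ _ h3)
      have hvz : v ≠ z := by
        rintro rfl
        exact hz' u h1 h2 (hsymm _ _ h3)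
      rw [eo u hux huz, eo v hvx hvz] at h2
      exact ⟨h1, h2, h3⟩
  have hlt := Finset.card_lt_card hsub
  have := he e'
  omega

open Classical in
/-- partition of the guest side into conflict-free blocks of size exactly `|X| = L`, with a
conflict-free remainder `U` of size `< L`.
Proof: pick `U` greedily (conflict-free, size r = |A| mod L).  Then take conflict-free `L`-sets greedily
until fewer than `(d+1)L` vertices `M` (|M| a multiple of L) are left; there are at least
`k - (d+1)` blocks.  For the vertices `u` of `M`, in groups of `L`: pick a fresh block `B` with no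
vertex conflicting with `u` and a vertex `x ∈ B` conflicting with none of the vertices already
removed for the current group; replace `x` by `u` in `B`; the `L` removed vertices of a group form a
new conflict-free block. -/
theorem guest_blocks {A X : Type} [Fintype A] [DecidableEq A] [Fintype X] [DecidableEq X]
    (conf : A → A → Prop) (hsymm : ∀ x y, conf x y → conf y x) (d k r : ℕ)
    (hd : ∀ x, (univ.filter (fun y => y ≠ x ∧ conf x y)).card ≤ d)
    (hX : 1 ≤ Fintype.card X) (hr : r < Fintype.card X)
    (hA : Fintype.card A = k * Fintype.card X + r)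
    (hk : 4 * (d + 1) * (Fintype.card X + 1) ≤ k) :
    ∃ (U : Finset A) (e : {x : A // x ∉ U} ≃ Fin k × X), U.card = r ∧
      (∀ x ∈ U, ∀ y ∈ U, x ≠ y → ¬ conf x y) ∧
      (∀ x y, x ≠ y → (e x).1 = (e y).1 → ¬ conf x.1 y.1) := by
  let T := (Fin k × X) ⊕ Fin r
  let bl : T → Option (Fin k) := Sum.elim (fun p => some p.1) (fun _ => none)
  have hcT : Fintype.card A = Fintype.card T := by
    rw [hA]
    simp [T]
  have e0 : A ≃ T := Fintype.equivOfCardEq hcT
  have hbl : ∀ c, (univ.filter (fun t : T => bl t = c)).card ≤ Fintype.card X := by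
    intro c
    cases c with
    | none =>
      have : (univ.filter (fun t : T => bl t = none)) ⊆
          (univ : Finset (Fin r)).image (fun j => (Sum.inr j : T)) := by
        intro t ht
        rw [mem_filter] at ht
        rcases t with p | j
        · exact absurd ht.2 (by simp [bl])
        · simp
      refine (Finset.card_le_card this).trans (Finset.card_image_le.trans ?_)
      rw [Finset.card_univ, Fintype.card_fin]
      exact hr.le
    | some i =>
      have : (univ.filter (fun t : T => bl t = some i)) ⊆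
          (univ : Finset X).image (fun a => (Sum.inl (i, a) : T)) := by
        intro t ht
        rw [mem_filter] at ht
        rcases t with p | j
        · have h2 := ht.2
          simp only [bl, Sum.elim_inl, Option.some.injEq] at h2
          rw [Finset.mem_image]
          exact ⟨p.2, mem_univ _, by rw [← h2]⟩
        · exact absurd ht.2 (by simp [bl])
      refine (Finset.card_le_card this).trans (Finset.card_image_le.trans ?_)
      rw [Finset.card_univ]
  have hbig : (2 * d + 1) * Fintype.card X < Fintype.card A := by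
    rw [hA]
    have h1 : (2 * d + 1) * Fintype.card X < k * Fintype.card X := by
      apply Nat.mul_lt_mul_of_pos_right _ (by omega)
      nlinarith
    omega
  obtain ⟨e, he⟩ := gb_min bl conf hsymm d (Fintype.card X) hd hbl e0 hbig
  let U : Finset A := (univ : Finset (Fin r)).map
    ⟨fun j => e.symm (Sum.inr j), fun a b h => Sum.inr_injective (e.symm.injective h)⟩
  have hU : ∀ x, x ∈ U ↔ ∃ j, e.symm (Sum.inr j) = x := by
    intro x
    simp only [U, mem_map, mem_univ, true_and]
    rfl
  have hFU : ∀ p : Fin k × X, e.symm (Sum.inl p) ∉ U := by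
    intro p hp
    obtain ⟨j, hj⟩ := (hU _).1 hp
    have := e.symm.injective hj
    exact absurd this (by simp)
  let F : Fin k × X → {x : A // x ∉ U} := fun p => ⟨e.symm (Sum.inl p), hFU p⟩
  have hF : Function.Bijective F := by
    constructor
    · intro p q h
      have h1 : e.symm (Sum.inl p) = e.symm (Sum.inl q) := congrArg Subtype.val h
      have h2 := e.symm.injective h1
      exact Sum.inl_injective h2
    · rintro ⟨x, hx⟩
      rcases hex : e x with p | j
      · refine ⟨p, ?_⟩
        apply Subtype.ext
        show e.symm (Sum.inl p) = x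
        rw [← hex, Equiv.symm_apply_apply]
      · exfalso
        apply hx
        rw [hU]
        exact ⟨j, by rw [← hex, Equiv.symm_apply_apply]⟩
  refine ⟨U, (Equiv.ofBijective F hF).symm, ?_, ?_, ?_⟩
  · simp [U]
  · intro x hx y hy hxy
    obtain ⟨i, rfl⟩ := (hU _).1 hx
    obtain ⟨j, rfl⟩ := (hU _).1 hy
    apply he _ _ hxy
    simp [bl]
  · intro x y hxy hfst
    obtain ⟨p, rfl⟩ := hF.2 x
    obtain ⟨q, rfl⟩ := hF.2 y
    have e1 : (Equiv.ofBijective F hF).symm (F p) = p :=
      (Equiv.ofBijective F hF).symm_apply_apply p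
    have e2 : (Equiv.ofBijective F hF).symm (F q) = q :=
      (Equiv.ofBijective F hF).symm_apply_apply q
    rw [e1, e2] at hfst
    apply he
    · intro h
      exact hxy (Subtype.ext h)
    · show bl (e (e.symm (Sum.inl p))) = bl (e (e.symm (Sum.inl q)))
      rw [Equiv.apply_symm_apply, Equiv.apply_symm_apply]
      simp [bl, hfst]

open Classical in
/-- a proper 2-colouring with one class of size ≥ N/2 and the other of size ≥ N/(4D).
If the smaller colour class A has < N/(4D) vertices then less than N/4 vertices of the other class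
have a neighbour, so at least N/4 of them are isolated; recolour ⌊N/4⌋ isolated vertices. -/
theorem rebalance (N D : ℕ) (hD : 2 ≤ D) (hN : 8 ≤ N) (G : SimpleGraph (Fin N)) (hG : G.Colorable 2)
    (hdeg : ∀ v, G.degree v ≤ D) :
    ∃ c : Fin N → Bool, (∀ u v, G.Adj u v → c u ≠ c v) ∧
      N ≤ 2 * (univ.filter (fun v => c v = true)).card ∧
      N ≤ 8 * D * (univ.filter (fun v => c v = false)).card := by
  have hsplit : ∀ b : Fin N → Bool, (univ.filter (fun v => b v = true)).card +
      (univ.filter (fun v => b v = false)).card = N := by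
    intro b
    have h := Finset.card_filter_add_card_filter_not (s := (univ : Finset (Fin N)))
      (fun v => b v = true)
    simp only [Bool.not_eq_true, Finset.card_univ, Fintype.card_fin] at h
    convert h
  obtain ⟨C⟩ := hG
  obtain ⟨b, hb, hbig⟩ : ∃ b : Fin N → Bool, (∀ u v, G.Adj u v → b u ≠ b v) ∧
      N ≤ 2 * (univ.filter (fun v => b v = true)).card := by
    have hp : ∀ u v, G.Adj u v → decide (C u = 0) ≠ decide (C v = 0) := by
      intro u v huv h
      have h1 := C.valid huv
      have h2 : (C u = 0) ↔ (C v = 0) := by simpa using h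
      apply h1
      have h3 : ∀ i j : Fin 2, (i = 0 ↔ j = 0) → i = j := by decide
      exact h3 _ _ h2
    by_cases h : N ≤ 2 * (univ.filter (fun v => (decide (C v = 0)) = true)).card
    · exact ⟨fun v => decide (C v = 0), hp, h⟩
    · refine ⟨fun v => !(decide (C v = 0)), ?_, ?_⟩
      · intro u v huv h'
        exact hp u v huv (by simpa using h')
      · have h1 := hsplit (fun v => decide (C v = 0))
        have h2 : (univ.filter (fun v => (!(decide (C v = 0))) = true)) =
            (univ.filter (fun v => (decide (C v = 0)) = false)) := by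
          ext v; simp
        rw [h2]
        omega
  by_cases hF : N ≤ 8 * D * (univ.filter (fun v => b v = false)).card
  · exact ⟨b, hb, hbig, hF⟩
  push Not at hF
  set T := univ.filter (fun v => b v = true) with hT
  set F := univ.filter (fun v => b v = false) with hFd
  have hTF : T.card + F.card = N := hsplit b
  set W : Finset (Fin N) := F.biUnion (fun u => G.neighborFinset u) with hW
  have hWc : W.card ≤ F.card * D :=
    Finset.card_biUnion_le_card_mul _ _ _ (fun u _ => by
      rw [SimpleGraph.card_neighborFinset_eq_degree]; exact hdeg u)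
  have h8 : 8 * (F.card * D) < N := by
    calc 8 * (F.card * D) = 8 * D * F.card := by ring
      _ < N := hF
  have h9 : F.card * 2 ≤ F.card * D := Nat.mul_le_mul_left _ hD
  have hI : N / 4 ≤ (T \ W).card := by
    have := Finset.le_card_sdiff W T
    omega
  obtain ⟨J, hJ, hJc⟩ := Finset.exists_subset_card_eq hI
  have hiso : ∀ v ∈ J, ∀ u, ¬ G.Adj u v := by
    intro v hv u huv
    have h1 := hJ hv
    rw [Finset.mem_sdiff, hT, Finset.mem_filter] at h1
    apply h1.2
    rw [hW, Finset.mem_biUnion]
    refine ⟨u, ?_, by simpa using huv⟩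
    rw [hFd, Finset.mem_filter]
    refine ⟨Finset.mem_univ _, ?_⟩
    have h2 := hb u v huv
    rw [h1.1.2] at h2
    simpa using h2
  refine ⟨fun v => if v ∈ J then false else b v, ?_, ?_, ?_⟩
  · intro u v huv
    have h1 : v ∉ J := fun h => hiso v h u huv
    have h2 : u ∉ J := fun h => hiso u h v huv.symm
    simp only [h1, h2, if_false]
    exact hb u v huv
  · have h1 : (univ.filter (fun v => (if v ∈ J then false else b v) = true)) = T \ J := by
      ext v
      simp only [hT, Finset.mem_filter, Finset.mem_univ, true_and, Finset.mem_sdiff]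
      by_cases hv : v ∈ J <;> simp [hv]
    rw [h1]
    have h2 : J ⊆ T := hJ.trans Finset.sdiff_subset
    rw [Finset.card_sdiff_of_subset h2, hJc]
    omega
  · have h1 : J ⊆ (univ.filter (fun v => (if v ∈ J then false else b v) = false)) := by
      intro v hv
      simp [hv]
    have h2 := Finset.card_le_card h1
    rw [hJc] at h2
    calc N ≤ 16 * (N / 4) := by omega
      _ ≤ 8 * D * (N / 4) := by
        apply Nat.mul_le_mul_right
        omega
      _ ≤ _ := Nat.mul_le_mul_left _ h2

open Classical in
/-- transfer: from placements of the three parts to a packing permutation -/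
theorem pack_transfer {N : ℕ} {I X : Type} [Fintype I] [DecidableEq I] [Fintype X] [DecidableEq X]
    [AddCommGroup X] (G1 G2 : SimpleGraph (Fin N)) (c : Fin N → Bool)
    (hc : ∀ u v, G1.Adj u v → c u ≠ c v) (U : Finset {v : Fin N // c v = false})
    (e : {x : {v : Fin N // c v = false} // x ∉ U} ≃ I × X) (ψ : I × X ↪ Fin N) (s : I → X)
    (xU : {v : Fin N // c v = false} → Fin N)
    (hx1 : ∀ u ∈ U, ∀ u' ∈ U, xU u = xU u' → u = u') (hx2 : ∀ u ∈ U, xU u ∉ Set.range ψ)
    (φ : {v : Fin N // c v = true} → Fin N) (hφ : Function.Injective φ)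
    (hφ1 : ∀ w, φ w ∉ Set.range ψ) (hφ2 : ∀ w, ∀ u ∈ U, φ w ≠ xU u)
    (hok1 : ∀ (w : {v : Fin N // c v = true}) (x : {x : {v : Fin N // c v = false} // x ∉ U}),
      G1.Adj w.1 x.1.1 → ¬ G2.Adj (φ w) (ψ ((e x).1, (e x).2 + s (e x).1)))
    (hok2 : ∀ (w : {v : Fin N // c v = true}), ∀ u ∈ U, G1.Adj w.1 u.1 → ¬ G2.Adj (φ w) (xU u)) :
    ∃ σ : Equiv.Perm (Fin N), ∀ u v, G1.Adj u v → ¬ G2.Adj (σ u) (σ v) := by
  classical
  have hsh : Function.Injective (fun p : I × X => ((p.1, p.2 + s p.1) : I × X)) := by
    rintro ⟨i, x⟩ ⟨j, y⟩ h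
    simp only [Prod.mk.injEq] at h
    obtain ⟨h1, h2⟩ := h
    subst h1
    rw [add_right_cancel h2]
  obtain ⟨f, hf⟩ : ∃ f : {v : Fin N // c v = false} → Fin N, f = fun x =>
    if h : x ∈ U then xU x else ψ ((e ⟨x, h⟩).1, (e ⟨x, h⟩).2 + s (e ⟨x, h⟩).1) := ⟨_, rfl⟩
  have hf1 : ∀ x ∈ U, f x = xU x := by
    intro x hx
    rw [hf]
    simp only [hx, dif_pos]
  have hf2 : ∀ x (hx : x ∉ U), f x = ψ ((e ⟨x, hx⟩).1, (e ⟨x, hx⟩).2 + s (e ⟨x, hx⟩).1) := by
    intro x hx
    rw [hf]
    simp only [hx, not_false_eq_true, dif_neg]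
  have hfi : Function.Injective f := by
    intro x y hxy
    by_cases hx : x ∈ U
    · by_cases hy : y ∈ U
      · rw [hf1 x hx, hf1 y hy] at hxy
        exact hx1 x hx y hy hxy
      · rw [hf1 x hx, hf2 y hy] at hxy
        exact absurd ⟨_, hxy.symm⟩ (hx2 x hx)
    · by_cases hy : y ∈ U
      · rw [hf2 x hx, hf1 y hy] at hxy
        exact absurd ⟨_, hxy⟩ (hx2 y hy)
      · rw [hf2 x hx, hf2 y hy] at hxy
        have h1 := hsh (ψ.injective hxy)
        have h2 := e.injective h1
        exact congrArg Subtype.val h2
  have hfφ : ∀ w x, φ w ≠ f x := by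
    intro w x h
    by_cases hx : x ∈ U
    · rw [hf1 x hx] at h
      exact hφ2 w x hx h
    · rw [hf2 x hx] at h
      exact hφ1 w ⟨_, h.symm⟩
  have hok : ∀ (w : {v : Fin N // c v = true}) (x : {v : Fin N // c v = false}),
      G1.Adj w.1 x.1 → ¬ G2.Adj (φ w) (f x) := by
    intro w x h
    by_cases hx : x ∈ U
    · rw [hf1 x hx]
      exact hok2 w x hx h
    · rw [hf2 x hx]
      exact hok1 w ⟨x, hx⟩ h
  obtain ⟨g, hg⟩ : ∃ g : Fin N → Fin N, g = fun v =>
    if h : c v = true then φ ⟨v, h⟩ else f ⟨v, Bool.eq_false_iff.2 h⟩ := ⟨_, rfl⟩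
  have hg1 : ∀ v (h : c v = true), g v = φ ⟨v, h⟩ := by
    intro v h
    rw [hg]
    simp only [h, dif_pos]
  have hg2 : ∀ v (h : c v = false), g v = f ⟨v, h⟩ := by
    intro v h
    rw [hg]
    simp [h]
  have hgi : Function.Injective g := by
    intro u v huv
    rcases hu : c u with _ | _
    · rcases hv : c v with _ | _
      · rw [hg2 u hu, hg2 v hv] at huv
        exact congrArg Subtype.val (hfi huv)
      · rw [hg2 u hu, hg1 v hv] at huv
        exact absurd huv.symm (hfφ _ _)
    · rcases hv : c v with _ | _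
      · rw [hg1 u hu, hg2 v hv] at huv
        exact absurd huv (hfφ _ _)
      · rw [hg1 u hu, hg1 v hv] at huv
        exact congrArg Subtype.val (hφ huv)
  refine ⟨Equiv.ofBijective g (Finite.injective_iff_bijective.1 hgi), ?_⟩
  intro u v huv
  have hcuv := hc u v huv
  change ¬ G2.Adj (g u) (g v)
  rcases hu : c u with _ | _
  · rcases hv : c v with _ | _
    · exact absurd (hu.trans hv.symm) hcuv
    · rw [hg2 u hu, hg1 v hv]
      intro h
      exact hok ⟨v, hv⟩ ⟨u, hu⟩ huv.symm h.symm
  · rcases hv : c v with _ | _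
    · rw [hg1 u hu, hg2 v hv]
      exact hok ⟨u, hu⟩ ⟨v, hv⟩ huv
    · exact absurd (hu.trans hv.symm) hcuv

end Pool.Agent.QCube
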