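import Mathlib
import Pool.Agent.QCube.Defs

set_option autoImplicit false

namespace Pool.Agent.QCube

open Finset

theorem hb_desc (a n : ℕ) (c : ℝ) (hc : 0 ≤ c) (han : a ≤ n) (hac : (a:ℝ) ≤ c * n) (t : ℕ) :
    ((a.descFactorial t : ℕ) : ℝ) ≤ c ^ t * ((n.descFactorial t : ℕ) : ℝ) := by
  induction t with
  | zero => simp
  | succ t ih =>
    rw [Nat.descFactorial_succ, Nat.descFactorial_succ, Nat.cast_mul, Nat.cast_mul]
    have h1 : ((a - t : ℕ) : ℝ) ≤ c * ((n - t : ℕ) : ℝ) := by
      rcases le_or_gt t a with h | h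
      · rw [Nat.cast_sub h, Nat.cast_sub (h.trans han)]
        have h3 : (a:ℝ) ≤ n := by exact_mod_cast han
        have h4 : (t:ℝ) ≤ n := by exact_mod_cast h.trans han
        have h5 : (0:ℝ) ≤ t := by positivity
        rcases le_or_gt c 1 with h' | h'
        · nlinarith
        · nlinarith
      · rw [Nat.sub_eq_zero_of_le h.le]
        simp only [Nat.cast_zero]
        positivity
    calc ((a - t : ℕ) : ℝ) * ((a.descFactorial t : ℕ) : ℝ)
        ≤ (c * ((n - t : ℕ) : ℝ)) * (c ^ t * ((n.descFactorial t : ℕ) : ℝ)) :=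
          mul_le_mul h1 ih (by positivity) (by positivity)
      _ = _ := by ring

theorem hb_choose (a n : ℕ) (c : ℝ) (hc : 0 ≤ c) (han : a ≤ n) (hac : (a:ℝ) ≤ c * n) (t : ℕ) :
    ((a.choose t : ℕ) : ℝ) ≤ c ^ t * ((n.choose t : ℕ) : ℝ) := by
  have h := hb_desc a n c hc han hac t
  rw [Nat.descFactorial_eq_factorial_mul_choose, Nat.descFactorial_eq_factorial_mul_choose,
    Nat.cast_mul, Nat.cast_mul] at h
  have hp : (0:ℝ) < (t.factorial : ℝ) := by exact_mod_cast t.factorial_pos
  have : ((t.factorial : ℕ) : ℝ) * ((a.choose t : ℕ) : ℝ) ≤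
      ((t.factorial : ℕ) : ℝ) * (c ^ t * ((n.choose t : ℕ) : ℝ)) := by linarith
  exact le_of_mul_le_mul_left this hp

theorem hb_count {V : Type} [DecidableEq V] (W A : Finset V) (L t : ℕ) (c : ℝ) (hc : 0 ≤ c)
    (hA : ((A ∩ W).card : ℝ) ≤ c * (W.card : ℝ)) (hL : L ≤ W.card) :
    ((((W.powersetCard L).filter (fun B => t ≤ (A ∩ B).card)).card : ℕ) : ℝ) ≤
      ((L.choose t : ℕ) : ℝ) * c ^ t * ((W.card.choose L : ℕ) : ℝ) := by
  rcases lt_or_ge L t with hlt | htL
  · have : (W.powersetCard L).filter (fun B => t ≤ (A ∩ B).card) = ∅ := by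
      apply Finset.filter_eq_empty_iff.mpr
      intro B hB h
      have h1 := (Finset.mem_powersetCard.mp hB).2
      have h2 := Finset.card_le_card (Finset.inter_subset_right : A ∩ B ⊆ B)
      omega
    rw [this]
    simp only [Finset.card_empty, Nat.cast_zero]
    positivity
  · have h1 : ((W.powersetCard L).filter (fun B => t ≤ (A ∩ B).card)).card ≤
        (A ∩ W).card.choose t * (W.card - t).choose (L - t) := by
      have hsub : (W.powersetCard L).filter (fun B => t ≤ (A ∩ B).card) ⊆
          ((A ∩ W).powersetCard t).biUnion (fun T => (W.powersetCard L).filter (fun B => T ⊆ B)) := by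
        intro B hB
        obtain ⟨hB1, hB2⟩ := Finset.mem_filter.mp hB
        obtain ⟨hBW, hBL⟩ := Finset.mem_powersetCard.mp hB1
        obtain ⟨T, hT, hTc⟩ := Finset.exists_subset_card_eq hB2
        refine Finset.mem_biUnion.mpr ⟨T, Finset.mem_powersetCard.mpr ⟨?_, hTc⟩,
          Finset.mem_filter.mpr ⟨hB1, hT.trans Finset.inter_subset_right⟩⟩
        exact hT.trans (Finset.inter_subset_inter_left hBW)
      refine (Finset.card_le_card hsub).trans (Finset.card_biUnion_le.trans ?_)
      have h2 : ∀ T ∈ (A ∩ W).powersetCard t,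
          ((W.powersetCard L).filter (fun B => T ⊆ B)).card ≤ (W.card - t).choose (L - t) := by
        intro T hT
        obtain ⟨hTA, hTc⟩ := Finset.mem_powersetCard.mp hT
        have hTW : T ⊆ W := hTA.trans Finset.inter_subset_right
        have h3 : ((W \ T).powersetCard (L - t)).card = (W.card - t).choose (L - t) := by
          rw [Finset.card_powersetCard, Finset.card_sdiff_of_subset hTW, hTc]
        rw [← h3]
        apply Finset.card_le_card_of_injOn (fun B => B \ T)
        · intro B hB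
          have hB' := Finset.mem_filter.mp (Finset.mem_coe.mp hB)
          obtain ⟨hBW, hBL⟩ := Finset.mem_powersetCard.mp hB'.1
          refine Finset.mem_coe.mpr (Finset.mem_powersetCard.mpr ⟨Finset.sdiff_subset_sdiff hBW subset_rfl, ?_⟩)
          rw [Finset.card_sdiff_of_subset hB'.2, hBL, hTc]
        · intro B hB B' hB' h
          have e1 := (Finset.mem_filter.mp (Finset.mem_coe.mp hB)).2
          have e2 := (Finset.mem_filter.mp (Finset.mem_coe.mp hB')).2
          simp only at h
          rw [← Finset.sdiff_union_of_subset e1, h, Finset.sdiff_union_of_subset e2]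
      refine (Finset.sum_le_card_nsmul _ _ _ h2).trans ?_
      rw [Finset.card_powersetCard, smul_eq_mul]
    have h4 : (W.card.choose L) * (L.choose t) = (W.card.choose t) * (W.card - t).choose (L - t) :=
      Nat.choose_mul htL
    have h5 := hb_choose (A ∩ W).card W.card c hc (Finset.card_le_card Finset.inter_subset_right) hA t
    calc ((((W.powersetCard L).filter (fun B => t ≤ (A ∩ B).card)).card : ℕ) : ℝ)
        ≤ (((A ∩ W).card.choose t * (W.card - t).choose (L - t) : ℕ) : ℝ) := by exact_mod_cast h1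
      _ = (((A ∩ W).card.choose t : ℕ) : ℝ) * (((W.card - t).choose (L - t) : ℕ) : ℝ) := by
          push_cast; ring
      _ ≤ (c ^ t * ((W.card.choose t : ℕ) : ℝ)) * (((W.card - t).choose (L - t) : ℕ) : ℝ) :=
          mul_le_mul_of_nonneg_right h5 (by positivity)
      _ = c ^ t * (((W.card.choose t) * (W.card - t).choose (L - t) : ℕ) : ℝ) := by
          push_cast; ring
      _ = c ^ t * ((((W.card.choose L) * (L.choose t) : ℕ)) : ℝ) := by rw [h4]
      _ = _ := by push_cast; ring

theorem hb_block {V : Type} [Fintype V] [DecidableEq V] (Γ : V → Finset V) (W : Finset V)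
    (L t : ℕ) (c η : ℝ) (hc : 0 ≤ c) (hΓ : ∀ v, ((Γ v ∩ W).card : ℝ) ≤ c * (W.card : ℝ))
    (hL : L ≤ W.card) (hη : ((L.choose t : ℕ) : ℝ) * c ^ t ≤ η) (w : V → ℝ) (hw : ∀ v, 0 ≤ w v) :
    ∃ B ⊆ W, B.card = L ∧ ∑ v ∈ univ.filter (fun v => t ≤ (Γ v ∩ B).card), w v ≤
      η * ∑ v, w v := by
  have hne : (W.powersetCard L).Nonempty := Finset.powersetCard_nonempty.mpr hL
  have hsum : ∑ B ∈ W.powersetCard L, ∑ v ∈ univ.filter (fun v => t ≤ (Γ v ∩ B).card), w v ≤
      ∑ B ∈ W.powersetCard L, η * ∑ v, w v := by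
    calc ∑ B ∈ W.powersetCard L, ∑ v ∈ univ.filter (fun v => t ≤ (Γ v ∩ B).card), w v
        = ∑ B ∈ W.powersetCard L, ∑ v, if t ≤ (Γ v ∩ B).card then w v else 0 := by
          apply Finset.sum_congr rfl
          intro B _
          rw [Finset.sum_filter]
      _ = ∑ v, ∑ B ∈ W.powersetCard L, if t ≤ (Γ v ∩ B).card then w v else 0 := Finset.sum_comm
      _ = ∑ v, ((((W.powersetCard L).filter (fun B => t ≤ (Γ v ∩ B).card)).card : ℕ) : ℝ) * w v := by
          apply Finset.sum_congr rfl
          intro v _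
          rw [← Finset.sum_filter, Finset.sum_const, nsmul_eq_mul]
      _ ≤ ∑ v, (η * ((W.card.choose L : ℕ) : ℝ)) * w v := by
          apply Finset.sum_le_sum
          intro v _
          apply mul_le_mul_of_nonneg_right _ (hw v)
          exact (hb_count W (Γ v) L t c hc (hΓ v) hL).trans
            (mul_le_mul_of_nonneg_right hη (by positivity))
      _ = ∑ B ∈ W.powersetCard L, η * ∑ v, w v := by
          rw [Finset.sum_const, Finset.card_powersetCard, nsmul_eq_mul, ← Finset.mul_sum]
          ring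
  obtain ⟨B, hB, h⟩ := Finset.exists_le_of_sum_le hne hsum
  obtain ⟨h1, h2⟩ := Finset.mem_powersetCard.mp hB
  exact ⟨B, h1, h2, h⟩

open Classical in
theorem hb_greedy {V : Type} [Fintype V] [DecidableEq V] (Γ : V → Finset V) (γ η : ℝ)
    (hγ : 0 ≤ γ) (hη0 : 0 ≤ η) (hΓ : ∀ v, ((Γ v).card : ℝ) ≤ γ * (Fintype.card V : ℝ)) (K L : ℕ)
    (hcard : 2 * (K * L) ≤ Fintype.card V) (hV : 0 < Fintype.card V) (t : ℕ)
    (hη : ((L.choose t : ℕ) : ℝ) * (2 * γ) ^ t ≤ η) (k : ℕ) (hk : k ≤ K) :
    ∃ B : ℕ → Finset V, (∀ i < k, (B i).card = L) ∧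
      (∀ i < k, ∀ j < k, i ≠ j → Disjoint (B i) (B j)) ∧
      (∀ i < k, ((univ.filter (fun v => t ≤ (Γ v ∩ B i).card)).card : ℝ) ≤
        2 * η * (Fintype.card V : ℝ)) ∧
      ∑ v, Real.exp ((((range k).filter (fun i => t ≤ (Γ v ∩ B i).card)).card : ℕ) : ℝ) ≤
        (Fintype.card V : ℝ) * Real.exp (4 * η * (k : ℝ)) := by
  induction k with
  | zero =>
    refine ⟨fun _ => ∅, by simp, by simp, by simp, ?_⟩
    simp
  | succ k ih =>
    obtain ⟨B, hBc, hBd, hBe, hBΦ⟩ := ih (by omega)
    set W : Finset V := univ \ ((range k).biUnion B) with hW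
    have hU : ((range k).biUnion B).card ≤ k * L := by
      refine Finset.card_biUnion_le.trans ?_
      refine (Finset.sum_le_card_nsmul _ _ L (fun i hi => (hBc i (Finset.mem_range.mp hi)).le)).trans ?_
      simp
    have hWc : W.card = Fintype.card V - ((range k).biUnion B).card := by
      rw [hW, Finset.card_sdiff_of_subset (Finset.subset_univ _), Finset.card_univ]
    have hkK : (k + 1) * L ≤ K * L := Nat.mul_le_mul_right L hk
    have hkK' : k * L + L = (k + 1) * L := by ring
    have hWV : Fintype.card V ≤ 2 * W.card := by omega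
    have hLW : L ≤ W.card := by omega
    have hΓW : ∀ v, ((Γ v ∩ W).card : ℝ) ≤ (2 * γ) * (W.card : ℝ) := by
      intro v
      have h1 : ((Γ v ∩ W).card : ℝ) ≤ ((Γ v).card : ℝ) := by
        exact_mod_cast Finset.card_le_card Finset.inter_subset_left
      have h2 : (Fintype.card V : ℝ) ≤ 2 * (W.card : ℝ) := by exact_mod_cast hWV
      have h3 := hΓ v
      have h4 : γ * (Fintype.card V : ℝ) ≤ γ * (2 * (W.card : ℝ)) := mul_le_mul_of_nonneg_left h2 hγ
      linarith
    set e : V → ℝ := fun v => ((((range k).filter (fun i => t ≤ (Γ v ∩ B i).card)).card : ℕ) : ℝ)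
      with he
    set Φ : ℝ := ∑ v, Real.exp (e v) with hΦ
    have hVne : Nonempty V := Fintype.card_pos_iff.mp hV
    have hVr : (0:ℝ) < (Fintype.card V : ℝ) := by exact_mod_cast hV
    have hΦpos : 0 < Φ := Finset.sum_pos (fun v _ => Real.exp_pos _) Finset.univ_nonempty
    obtain ⟨B', hB'W, hB'c, hB'⟩ := hb_block Γ W L t (2 * γ) η (by positivity) hΓW hLW hη
      (fun v => Real.exp (e v) / Φ + 1 / (Fintype.card V : ℝ))
      (fun v => by positivity)
    have hsw : ∑ v : V, (Real.exp (e v) / Φ + 1 / (Fintype.card V : ℝ)) = 2 := by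
      rw [Finset.sum_add_distrib, ← Finset.sum_div, ← hΦ, div_self hΦpos.ne']
      rw [Finset.sum_const, Finset.card_univ, nsmul_eq_mul, mul_one_div, div_self hVr.ne']
      norm_num
    rw [hsw, Finset.sum_add_distrib] at hB'
    set Ex : Finset V := univ.filter (fun v => t ≤ (Γ v ∩ B').card) with hEx
    have p1 : 0 ≤ ∑ v ∈ Ex, Real.exp (e v) / Φ := Finset.sum_nonneg (fun v _ => by positivity)
    have p2 : 0 ≤ ∑ _v ∈ Ex, 1 / (Fintype.card V : ℝ) := Finset.sum_nonneg (fun v _ => by positivity)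
    have q1 : (Ex.card : ℝ) ≤ 2 * η * (Fintype.card V : ℝ) := by
      have : ∑ _v ∈ Ex, 1 / (Fintype.card V : ℝ) ≤ η * 2 := by linarith
      rw [Finset.sum_const, nsmul_eq_mul, mul_one_div, div_le_iff₀ hVr] at this
      linarith
    have q2 : ∑ v ∈ Ex, Real.exp (e v) ≤ 2 * η * Φ := by
      have : ∑ v ∈ Ex, Real.exp (e v) / Φ ≤ η * 2 := by linarith
      rw [← Finset.sum_div, div_le_iff₀ hΦpos] at this
      linarith
    set B2 : ℕ → Finset V := fun i => if i < k then B i else B' with hB2
    have hB2k : ∀ i < k, B2 i = B i := fun i hi => by simp [hB2, hi]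
    have hB2' : B2 k = B' := by simp [hB2]
    have hdisj : ∀ i < k, Disjoint (B i) B' := by
      intro i hi
      rw [Finset.disjoint_left]
      intro v hv hv'
      have := hB'W hv'
      rw [hW, Finset.mem_sdiff] at this
      exact this.2 (Finset.mem_biUnion.mpr ⟨i, Finset.mem_range.mpr hi, hv⟩)
    refine ⟨B2, ?_, ?_, ?_, ?_⟩
    · intro i hi
      rcases Nat.lt_succ_iff_lt_or_eq.mp hi with h | h
      · rw [hB2k i h]; exact hBc i h
      · rw [h, hB2']; exact hB'c
    · intro i hi j hj hij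
      rcases Nat.lt_succ_iff_lt_or_eq.mp hi with h | h <;>
        rcases Nat.lt_succ_iff_lt_or_eq.mp hj with h' | h'
      · rw [hB2k i h, hB2k j h']; exact hBd i h j h' hij
      · rw [hB2k i h, h', hB2']; exact hdisj i h
      · rw [h, hB2', hB2k j h']; exact (hdisj j h').symm
      · exact absurd (h.trans h'.symm) hij
    · intro i hi
      rcases Nat.lt_succ_iff_lt_or_eq.mp hi with h | h
      · rw [hB2k i h]; exact hBe i h
      · rw [h, hB2']; exact q1
    · have hstep : ∀ v, Real.exp ((((range (k+1)).filter (fun i => t ≤ (Γ v ∩ B2 i).card)).card : ℕ) : ℝ)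
          = Real.exp (e v) + (Real.exp 1 - 1) * (if t ≤ (Γ v ∩ B').card then Real.exp (e v) else 0) := by
        intro v
        have hf : (range k).filter (fun i => t ≤ (Γ v ∩ B2 i).card) =
            (range k).filter (fun i => t ≤ (Γ v ∩ B i).card) := by
          apply Finset.filter_congr
          intro i hi
          rw [hB2k i (Finset.mem_range.mp hi)]
        rw [Finset.range_add_one, Finset.filter_insert, hB2', hf]
        by_cases h : t ≤ (Γ v ∩ B').card
        · rw [if_pos h, if_pos h, Finset.card_insert_of_notMem (by simp)]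
          push_cast
          rw [Real.exp_add]
          simp only [he]
          ring
        · rw [if_neg h, if_neg h]
          simp only [he]
          ring
      rw [Finset.sum_congr rfl (fun v _ => hstep v), Finset.sum_add_distrib, ← Finset.mul_sum,
        ← Finset.sum_filter]
      rw [← hΦ, ← hEx]
      have he3 : Real.exp 1 ≤ 3 := by
        have := Real.exp_one_lt_d9
        linarith
      have he1 : 1 ≤ Real.exp 1 := by
        have := Real.add_one_le_exp (1:ℝ)
        linarith
      have r1 : (Real.exp 1 - 1) * ∑ v ∈ Ex, Real.exp (e v) ≤ 2 * (2 * η * Φ) := by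
        have hpos : 0 ≤ ∑ v ∈ Ex, Real.exp (e v) := Finset.sum_nonneg (fun v _ => (Real.exp_pos _).le)
        calc (Real.exp 1 - 1) * ∑ v ∈ Ex, Real.exp (e v) ≤ 2 * ∑ v ∈ Ex, Real.exp (e v) :=
              mul_le_mul_of_nonneg_right (by linarith) hpos
          _ ≤ _ := by linarith
      have r2 : 1 + 4 * η ≤ Real.exp (4 * η) := by
        have := Real.add_one_le_exp (4 * η)
        linarith
      calc Φ + (Real.exp 1 - 1) * ∑ v ∈ Ex, Real.exp (e v) ≤ Φ * (1 + 4 * η) := by linarith
        _ ≤ Φ * Real.exp (4 * η) := mul_le_mul_of_nonneg_left r2 hΦpos.le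
        _ ≤ ((Fintype.card V : ℝ) * Real.exp (4 * η * (k : ℝ))) * Real.exp (4 * η) :=
            mul_le_mul_of_nonneg_right hBΦ (Real.exp_pos _).le
        _ = _ := by
            rw [mul_assoc, ← Real.exp_add]
            congr 2
            push_cast
            ring

open Classical in
/-- greedy choice of host blocks.
(a) One block: for W with 2|W| ≥ |V|, |X| ≤ |W| and weights w_v ≥ 0 there is an |X|-subset B of W with
∑_{v : t ≤ |Γ v ∩ B|} w_v ≤ η ∑ w_v: average over all |X|-subsets of W; for fixed v the fraction of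
B with ≥ t points in Γ v is ≤ C(|X|,t) (|Γ v ∩ W|/|W|)^t ≤ C(|X|,t) (2γ)^t ≤ η (cf. job 34206).
(b) Choose the K blocks one after the other in the unused vertices W, with weights
w_v = exp(e_v)/Φ + 1/|V|, where e_v is the number of earlier blocks for which v is exceptional and
Φ = ∑ exp(e_v): then #exceptional ≤ 2η|V| and Φ grows by a factor ≤ 1 + 2(exp 1 - 1) η ≤ exp(4η).
At the end exp(e_v) ≤ Φ ≤ |V| exp(4ηK). -/
theorem host_blocks2 {V X : Type} [Fintype V] [DecidableEq V]
    [Fintype X] [DecidableEq X] (Γ : V → Finset V) (γ η : ℝ) (hγ : 0 ≤ γ) (hη0 : 0 ≤ η)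
    (hΓ : ∀ v, ((Γ v).card : ℝ) ≤ γ * (Fintype.card V : ℝ)) (K : ℕ)
    (hcard : 2 * (K * Fintype.card X) ≤ Fintype.card V) (hV : 0 < Fintype.card V) (t : ℕ)
    (hη : (((Fintype.card X).choose t : ℕ) : ℝ) * (2 * γ) ^ t ≤ η) :
    ∃ ψ : Fin K × X ↪ V,
      (∀ i, ((univ.filter (fun v => t ≤ (univ.filter (fun j : X => ψ (i, j) ∈ Γ v)).card)).card : ℝ)
        ≤ 2 * η * (Fintype.card V : ℝ)) ∧
      (∀ v, ((univ.filter (fun i => t ≤ (univ.filter (fun j : X => ψ (i, j) ∈ Γ v)).card)).card : ℝ)
        ≤ Real.log (Fintype.card V : ℝ) + 4 * η * (K : ℝ)) := by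
  obtain ⟨B, hBc, hBd, hBe, hBΦ⟩ := hb_greedy Γ γ η hγ hη0 hΓ K (Fintype.card X) hcard hV t hη K le_rfl
  have hVr : (0:ℝ) < (Fintype.card V : ℝ) := by exact_mod_cast hV
  have hcardB : ∀ i : Fin K, Fintype.card X = Fintype.card (B i) := by
    intro i
    rw [Fintype.card_coe, hBc i i.2]
  let eq : ∀ i : Fin K, X ≃ B i := fun i => Fintype.equivOfCardEq (hcardB i)
  let ψ : Fin K × X ↪ V := ⟨fun p => (eq p.1 p.2 : V), by
    rintro ⟨i, j⟩ ⟨i', j'⟩ h
    simp only at h
    by_cases hii : i = i'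
    · subst hii
      have := Subtype.ext h
      rw [(eq i).injective this]
    · exfalso
      have hd := hBd i i.2 i' i'.2 (fun h => hii (Fin.ext h))
      exact Finset.disjoint_left.mp hd (eq i j).2 (h ▸ (eq i' j').2)⟩
  have hψ : ∀ (i : Fin K) (v : V), (univ.filter (fun j : X => ψ (i, j) ∈ Γ v)).card =
      (Γ v ∩ B i).card := by
    intro i v
    apply Finset.card_bij (fun j _ => ψ (i, j))
    · intro j hj
      exact Finset.mem_inter.mpr ⟨(Finset.mem_filter.mp hj).2, (eq i j).2⟩
    · intro j _ j' _ h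
      have := ψ.injective h
      exact (Prod.mk.inj this).2
    · intro b hb
      obtain ⟨h1, h2⟩ := Finset.mem_inter.mp hb
      refine ⟨(eq i).symm ⟨b, h2⟩, ?_, ?_⟩
      · refine Finset.mem_filter.mpr ⟨Finset.mem_univ _, ?_⟩
        show ((eq i ((eq i).symm ⟨b, h2⟩) : B i) : V) ∈ Γ v
        rw [Equiv.apply_symm_apply]
        exact h1
      · show ((eq i ((eq i).symm ⟨b, h2⟩) : B i) : V) = b
        rw [Equiv.apply_symm_apply]
  refine ⟨ψ, ?_, ?_⟩
  · intro i
    simp only [hψ]
    exact hBe i i.2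
  · intro v
    simp only [hψ]
    have h1 : (univ.filter (fun i : Fin K => t ≤ (Γ v ∩ B i).card)).card =
        ((range K).filter (fun i => t ≤ (Γ v ∩ B i).card)).card := by
      apply Finset.card_bij (fun (i : Fin K) _ => (i : ℕ))
      · intro i hi
        exact Finset.mem_filter.mpr ⟨Finset.mem_range.mpr i.2, (Finset.mem_filter.mp hi).2⟩
      · intro i _ j _ h
        exact Fin.ext h
      · intro b hb
        obtain ⟨h2, h3⟩ := Finset.mem_filter.mp hb
        exact ⟨⟨b, Finset.mem_range.mp h2⟩, Finset.mem_filter.mpr ⟨Finset.mem_univ _, h3⟩, rfl⟩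
    rw [h1]
    have h2 : Real.exp ((((range K).filter (fun i => t ≤ (Γ v ∩ B i).card)).card : ℕ) : ℝ) ≤
        (Fintype.card V : ℝ) * Real.exp (4 * η * (K : ℝ)) :=
      (Finset.single_le_sum (f := fun v => Real.exp ((((range K).filter (fun i => t ≤ (Γ v ∩ B i).card)).card : ℕ) : ℝ))
        (fun v _ => (Real.exp_pos _).le) (Finset.mem_univ v)).trans hBΦ
    have h3 := Real.log_le_log (Real.exp_pos _) h2
    rw [Real.log_exp, Real.log_mul hVr.ne' (Real.exp_pos _).ne', Real.log_exp] at h3
    exact h3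

end Pool.Agent.QCube
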