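import Mathlib
import Pool.Agent.QCube.Defs

set_option autoImplicit false

namespace Pool.Agent.QCube

open Finset

theorem numericL_one_sub (y : ℝ) (h0 : 0 ≤ y) (h1 : y ≤ 1 / 2) : Real.exp (-(2 * y)) ≤ 1 - y := by
  have h2 : 2 * y + 1 ≤ Real.exp (2 * y) := Real.add_one_le_exp _
  have h3 : (2 * y + 1) * (1 - y) ≤ Real.exp (2 * y) * (1 - y) :=
    mul_le_mul_of_nonneg_right h2 (by linarith)
  have h4 : 0 ≤ y * (1 - 2 * y) := mul_nonneg h0 (by linarith)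
  have h5 : 1 ≤ Real.exp (2 * y) * (1 - y) := by nlinarith only [h3, h4]
  rw [Real.exp_neg, inv_le_iff_one_le_mul₀ (Real.exp_pos _)]
  linarith only [h5]

theorem numericL_A (l : ℝ) (hl : 4800000 ≤ l) :
    10 * l ≤ Real.exp (l / 25) * 2500 / (128 * l ^ 2) := by
  have hl0 : 0 < l := by linarith
  have h1 : (l / 25) ^ 4 / (Nat.factorial 4 : ℝ) ≤ Real.exp (l / 25) :=
    Real.pow_div_factorial_le_exp _ (by positivity) 4
  have h2 : ((Nat.factorial 4 : ℕ) : ℝ) = 24 := by norm_num [Nat.factorial]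
  rw [h2] at h1
  rw [le_div_iff₀ (by positivity)]
  have h3 : (l / 25) ^ 4 / 24 * 2500 ≤ Real.exp (l / 25) * 2500 := by linarith
  refine le_trans ?_ h3
  have h4 : (l / 25) ^ 4 / 24 * 2500 = l ^ 3 * (l / 3750) := by ring
  have h5 : 10 * l * (128 * l ^ 2) = l ^ 3 * 1280 := by ring
  rw [h4, h5]
  apply mul_le_mul_of_nonneg_left _ (by positivity)
  linarith

theorem numericL_exp1 (x l H p : ℝ) (hx : 0 < x) (hl : 0 < l) (hH : 0 < H) :
    -(p * H) ^ 2 / (8 * x * (2 * (l / 50) * H / x) ^ 2) = -(p ^ 2 * x * 2500 / (32 * l ^ 2)) := by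
  field_simp
  ring

theorem numericL_exp3 (x L Ic H p : ℝ) (hx : 0 < x) (hL : 0 < L) (hH : 0 < H) (h : Ic * L = H) :
    -(p * H) ^ 2 / (8 * Ic * (x * L) ^ 2) = -(p ^ 2 * H / (8 * x ^ 2 * L)) := by
  have e : 8 * Ic * (x * L) ^ 2 = 8 * x ^ 2 * L * (Ic * L) := by ring
  rw [e, h]
  field_simp

theorem numericL_exp4 (x L Ic H p : ℝ) (hx : 0 < x) (hL : 0 < L) (hH : 0 < H) (h : Ic * L = H) :
    -(p / 2 * H) ^ 2 / (4 * Ic * (x * L) ^ 2) = -(p ^ 2 * H / (16 * x ^ 2 * L)) := by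
  have e : 4 * Ic * (x * L) ^ 2 = 4 * x ^ 2 * L * (Ic * L) := by ring
  rw [e, h]
  field_simp
  ring

theorem numericL_fin (x H L p q1 : ℝ) (m h : ℕ) (hh : (h : ℝ) = H) (hx : 4800000 ≤ x)
    (hH12 : x ^ 12 ≤ H) (hHx : H ≤ Real.exp x) (hp0 : 1 / x ≤ p)
    (hL0 : 0 < L) (hL : L ≤ 2 * x ^ 3) (hq0 : 0 ≤ q1) (hq1 : q1 ≤ 1 / x ^ 40)
    (hm1 : 1 ≤ m) (hm : (m : ℝ) ≤ 34 * x ^ 2) :
    H * Real.exp (-(p ^ 2 * H / (8 * x ^ 2 * L))) + H ^ m * Real.exp (-(p ^ 2 * H / (16 * x ^ 2 * L)))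
      < (1 - 2 * q1) ^ h := by
  have hx0 : 0 < x := by linarith
  have hx1 : 1 ≤ x := by linarith
  have hH1 : 1 ≤ H := (one_le_pow₀ hx1).trans hH12
  have hH0 : 0 < H := by linarith
  have hB2 : H / (32 * x ^ 7) ≤ p ^ 2 * H / (16 * x ^ 2 * L) := by
    have h1 : (1 / x) ^ 2 ≤ p ^ 2 := pow_le_pow_left₀ (by positivity) hp0 2
    calc H / (32 * x ^ 7) = (1 / x) ^ 2 * H / (16 * x ^ 2 * (2 * x ^ 3)) := by
          field_simp
          ring
      _ ≤ p ^ 2 * H / (16 * x ^ 2 * (2 * x ^ 3)) := by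
          apply div_le_div_of_nonneg_right _ (by positivity)
          exact mul_le_mul_of_nonneg_right h1 hH0.le
      _ ≤ p ^ 2 * H / (16 * x ^ 2 * L) := by
          apply div_le_div_of_nonneg_left (by positivity) (by positivity)
          exact mul_le_mul_of_nonneg_left hL (by positivity)
  have hB1 : H / (32 * x ^ 7) ≤ p ^ 2 * H / (8 * x ^ 2 * L) := by
    refine hB2.trans ?_
    apply div_le_div_of_nonneg_left (by positivity) (by positivity)
    have : 0 < x ^ 2 * L := by positivity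
    linarith
  set B : ℝ := H / (32 * x ^ 7) with hB
  have hHm : H ≤ H ^ m := by
    calc H = H ^ 1 := (pow_one H).symm
      _ ≤ H ^ m := pow_le_pow_right₀ hH1 hm1
  have hHm2 : H ^ m ≤ Real.exp (34 * x ^ 3) := by
    calc H ^ m ≤ (Real.exp x) ^ m := pow_le_pow_left₀ hH0.le hHx m
      _ = Real.exp (m * x) := by rw [← Real.exp_nat_mul]
      _ ≤ Real.exp (34 * x ^ 3) := by
          apply Real.exp_le_exp.mpr
          calc (m : ℝ) * x ≤ 34 * x ^ 2 * x := mul_le_mul_of_nonneg_right hm hx0.le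
            _ = 34 * x ^ 3 := by ring
  have h1 : H * Real.exp (-(p ^ 2 * H / (8 * x ^ 2 * L))) ≤ Real.exp (34 * x ^ 3) * Real.exp (-B) := by
    apply mul_le_mul (hHm.trans hHm2) _ (Real.exp_pos _).le (Real.exp_pos _).le
    apply Real.exp_le_exp.mpr
    linarith
  have h2 : H ^ m * Real.exp (-(p ^ 2 * H / (16 * x ^ 2 * L))) ≤
      Real.exp (34 * x ^ 3) * Real.exp (-B) := by
    apply mul_le_mul hHm2 _ (Real.exp_pos _).le (Real.exp_pos _).le
    apply Real.exp_le_exp.mpr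
    linarith
  -- lower bound for the right hand side
  have hx33 : (256 : ℝ) ≤ x ^ 33 := by
    calc (256 : ℝ) ≤ x := by linarith
      _ = x ^ 1 := (pow_one x).symm
      _ ≤ x ^ 33 := pow_le_pow_right₀ hx1 (by norm_num)
  have hq4 : 4 * q1 * H ≤ H / (64 * x ^ 7) := by
    have h3 : 1 / x ^ 40 * 256 ≤ 1 / x ^ 7 := by
      rw [div_mul_eq_mul_div, div_le_div_iff₀ (by positivity) (by positivity)]
      calc 1 * 256 * x ^ 7 ≤ x ^ 33 * x ^ 7 := by
            rw [one_mul]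
            exact mul_le_mul_of_nonneg_right hx33 (by positivity)
        _ = 1 * x ^ 40 := by ring
    have h4 : 4 * q1 ≤ 1 / x ^ 7 / 64 := by linarith
    calc 4 * q1 * H ≤ 1 / x ^ 7 / 64 * H := mul_le_mul_of_nonneg_right h4 hH0.le
      _ = H / (64 * x ^ 7) := by field_simp
  have hq2 : 2 * q1 ≤ 1 / 2 := by
    have h3 : 1 / x ^ 40 ≤ 1 / 256 := by
      apply one_div_le_one_div_of_le (by norm_num)
      refine hx33.trans ?_
      exact pow_le_pow_right₀ hx1 (by norm_num)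
    linarith
  have hR : Real.exp (-(4 * q1 * H)) ≤ (1 - 2 * q1) ^ h := by
    have h3 := numericL_one_sub (2 * q1) (by linarith) hq2
    calc Real.exp (-(4 * q1 * H)) = (Real.exp (-(2 * (2 * q1)))) ^ h := by
          rw [← Real.exp_nat_mul, hh]
          congr 1
          ring
      _ ≤ (1 - 2 * q1) ^ h := pow_le_pow_left₀ (Real.exp_pos _).le h3 h
  have hfin : 1 + 34 * x ^ 3 < H / (64 * x ^ 7) := by
    rw [lt_div_iff₀ (by positivity)]
    refine lt_of_lt_of_le ?_ hH12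
    have h3 : 1 + 34 * x ^ 3 ≤ 35 * x ^ 3 := by
      have : 1 ≤ x ^ 3 := one_le_pow₀ hx1
      linarith
    have h4 : (35 * 64 : ℝ) < x ^ 2 := by
      have : x ≤ x ^ 2 := by
        calc x = x ^ 1 := (pow_one x).symm
          _ ≤ x ^ 2 := pow_le_pow_right₀ hx1 (by norm_num)
      linarith
    calc (1 + 34 * x ^ 3) * (64 * x ^ 7) ≤ 35 * x ^ 3 * (64 * x ^ 7) :=
          mul_le_mul_of_nonneg_right h3 (by positivity)
      _ = 35 * 64 * x ^ 10 := by ring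
      _ < x ^ 2 * x ^ 10 := mul_lt_mul_of_pos_right h4 (by positivity)
      _ = x ^ 12 := by ring
  have hB64 : B = 2 * (H / (64 * x ^ 7)) := by
    rw [hB]
    field_simp
    norm_num
  have h3 : (2 : ℝ) ≤ Real.exp 1 := by
    have := Real.add_one_le_exp (1 : ℝ)
    linarith
  calc H * Real.exp (-(p ^ 2 * H / (8 * x ^ 2 * L))) + H ^ m * Real.exp (-(p ^ 2 * H / (16 * x ^ 2 * L)))
      ≤ 2 * (Real.exp (34 * x ^ 3) * Real.exp (-B)) := by linarith
    _ ≤ Real.exp 1 * (Real.exp (34 * x ^ 3) * Real.exp (-B)) :=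
        mul_le_mul_of_nonneg_right h3 (by positivity)
    _ = Real.exp (1 + 34 * x ^ 3 - B) := by
        rw [← Real.exp_add, ← Real.exp_add]
        congr 1
        ring
    _ < Real.exp (-(4 * q1 * H)) := by
        apply Real.exp_lt_exp.mpr
        rw [hB64]
        linarith
    _ ≤ (1 - 2 * q1) ^ h := hR

theorem numericL_m (P x : ℝ) (hP0 : 0 < P) (hP1 : P ≤ 1) (hx : 4800000 ≤ x) (hPx : 1 / x ≤ P) :
    ∃ m : ℕ, 1 ≤ m ∧ (m : ℝ) ≤ 34 * x ^ 2 ∧ (1 - P / 2) ^ m ≤ P / 16 := by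
  have hx0 : 0 < x := by linarith
  have hx1 : 1 ≤ x := by linarith
  have hPi : 1 / P ≤ x := by
    rw [div_le_iff₀ hP0]
    rw [div_le_iff₀ hx0] at hPx
    linarith
  refine ⟨⌈2 / P * Real.log (16 / P)⌉₊ + 1, by omega, ?_, ?_⟩
  · have h1 : 0 ≤ Real.log (16 / P) := by
      apply Real.log_nonneg
      rw [le_div_iff₀ hP0]
      linarith
    have h2 : Real.log (16 / P) ≤ 16 * x := by
      have h3 := Real.log_le_sub_one_of_pos (by positivity : 0 < 16 / P)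
      have h4 : 16 / P = 16 * (1 / P) := by ring
      rw [h4] at h3
      rw [h4]
      linarith
    have h5 : 2 / P ≤ 2 * x := by
      have h4 : 2 / P = 2 * (1 / P) := by ring
      rw [h4]
      linarith
    have h6 : 2 / P * Real.log (16 / P) ≤ 2 * x * (16 * x) :=
      mul_le_mul h5 h2 h1 (by positivity)
    have h7 := Nat.ceil_lt_add_one (mul_nonneg (by positivity : 0 ≤ 2 / P) h1)
    have h8 : (1 : ℝ) ≤ x ^ 2 := one_le_pow₀ hx1
    push_cast
    linarith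
  · have h1 : 2 / P * Real.log (16 / P) ≤ (⌈2 / P * Real.log (16 / P)⌉₊ : ℝ) := Nat.le_ceil _
    have h2 : 1 - P / 2 ≤ Real.exp (-(P / 2)) := by
      have := Real.add_one_le_exp (-(P / 2))
      linarith
    calc (1 - P / 2) ^ (⌈2 / P * Real.log (16 / P)⌉₊ + 1)
        ≤ (Real.exp (-(P / 2))) ^ (⌈2 / P * Real.log (16 / P)⌉₊ + 1) :=
          pow_le_pow_left₀ (by linarith) h2 _
      _ = Real.exp (((⌈2 / P * Real.log (16 / P)⌉₊ + 1 : ℕ) : ℝ) * (-(P / 2))) := by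
          rw [← Real.exp_nat_mul]
      _ ≤ Real.exp (-Real.log (16 / P)) := by
          apply Real.exp_le_exp.mpr
          push_cast
          have h3 : Real.log (16 / P) = (2 / P * Real.log (16 / P)) * (P / 2) := by
            field_simp
          have h4 := mul_le_mul_of_nonneg_right h1 (by positivity : 0 ≤ P / 2)
          rw [← h3] at h4
          linarith
      _ = P / 16 := by
          rw [Real.exp_neg, Real.exp_log (by positivity)]
          rw [inv_div]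

/-- numeric lemma, logarithmic version: C = log n / 50, p = exp(-12C) = n^(-12/50), δ = p/2,
m = ⌈(2/p) * log (8/δ)⌉.
Simplifications: a = 2Ch/n so (p h)^2/(8 n a^2) = p^2 n/(32 C^2) and
(p δ h)^2/(8 n a^2) = p^4 n/(128 C^2) = n^(1-48/50)*2500/(128 (log n)^2); with Ic*L = h and e = nL:
(p h)^2/(8 Ic e^2) = p^2 h/(8 n^2 L) and (δ h)^2/(4 Ic e^2) = δ^2 h/(4 n^2 L), L ≤ 2n^3, h = 2^(n-1).
(1-2q1)^h ≥ exp(-4 q1 h) as 4q1 ≤ 1. And 1-6C/n ≥ exp(-12C/n) as 6C/n ≤ 1/2. -/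
theorem numericL : ∃ n0 : ℕ, ∀ n : ℕ, n0 ≤ n → ∃ m : ℕ, ∀ L Ic h : ℕ, n ^ 3 ≤ L →
      L ≤ 2 * n ^ 3 → Ic * L = h →
      h = 2 ^ (n - 1) → ∀ C κ a p δ q1 q2 e : ℝ, C = Real.log n / 50 → κ = 6 * C / n →
      a = 2 * C * h / n →
      p = Real.exp (-(12 * C)) → δ = p / 2 → e = (n : ℝ) * (L : ℝ) →
      q1 = Real.exp (-(p * (h : ℝ)) ^ 2 / (8 * n * a ^ 2)) →
      q2 = Real.exp (-(p * (δ * (h : ℝ))) ^ 2 / (8 * n * a ^ 2)) →
      (0 ≤ κ ∧ κ ≤ 1 ∧ 0 < a ∧ p ≤ (1 - κ) ^ n ∧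
       4 * q1 * ((n * (n * L) : ℕ) : ℝ) ≤ 1 ∧
       q2 + (1 - p / 2) ^ m ≤ δ / 4 ∧
       (h : ℝ) * Real.exp (-(p * (h : ℝ)) ^ 2 / (8 * (Ic : ℝ) * e ^ 2)) +
        (h : ℝ) ^ m * Real.exp (-(δ * (h : ℝ)) ^ 2 / (4 * (Ic : ℝ) * e ^ 2)) <
        (1 - 2 * q1) ^ h) := by
  refine ⟨⌈Real.exp 4800000⌉₊, ?_⟩
  intro n hn
  have hx : Real.exp 4800000 ≤ (n : ℝ) := Nat.ceil_le.mp hn
  have hxpos : (0 : ℝ) < n := (Real.exp_pos _).trans_le hx
  obtain ⟨x, hxn⟩ : ∃ x : ℝ, x = (n : ℝ) := ⟨_, rfl⟩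
  obtain ⟨l, hln⟩ : ∃ l : ℝ, l = Real.log (n : ℝ) := ⟨_, rfl⟩
  have hx0 : 0 < x := by rw [hxn]; exact hxpos
  have hl : 4800000 ≤ l := by rw [hln]; exact (Real.le_log_iff_exp_le hxpos).mpr hx
  have hl0 : 0 < l := by linarith
  have hexl : Real.exp l = x := by rw [hln, hxn]; exact Real.exp_log hxpos
  have hx48 : 4800000 ≤ x := by
    have := Real.add_one_le_exp l
    linarith
  have hx1 : 1 ≤ x := by linarith
  have hlx : 24 * l ≤ x - 1 := by
    have h1 : l ^ 2 / (Nat.factorial 2 : ℝ) ≤ Real.exp l :=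
      Real.pow_div_factorial_le_exp _ hl0.le 2
    have h2 : ((Nat.factorial 2 : ℕ) : ℝ) = 2 := by norm_num [Nat.factorial]
    rw [h2, hexl] at h1
    have h3 : 4800000 * l ≤ l * l := mul_le_mul_of_nonneg_right hl hl0.le
    have h4 : l ^ 2 = l * l := sq l
    rw [h4] at h1
    linarith only [h1, h3, hl]
  obtain ⟨P, hP⟩ : ∃ P : ℝ, P = Real.exp (-(12 * (l / 50))) := ⟨_, rfl⟩
  have hP0 : 0 < P := by rw [hP]; exact Real.exp_pos _
  have hP1 : P ≤ 1 := by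
    rw [hP]
    apply Real.exp_le_one_iff.mpr
    linarith
  have hPx : 1 / x ≤ P := by
    rw [← hexl, one_div, ← Real.exp_neg, hP]
    apply Real.exp_le_exp.mpr
    linarith
  obtain ⟨m, hm1, hm34, hmP⟩ := numericL_m P x hP0 hP1 hx48 hPx
  refine ⟨m, ?_⟩
  intro L Ic h hL1 hL2 hIL hh C κ a p δ q1 q2 e hC hκ ha hp hδ he hq1 hq2
  rw [← hln] at hC
  have hpP : p = P := by rw [hp, hC, hP]
  rw [hpP] at hδ hq1 hq2 ⊢
  rw [hC] at hκ ha
  obtain ⟨H, hHh⟩ : ∃ H : ℝ, H = (h : ℝ) := ⟨_, rfl⟩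
  obtain ⟨Lr, hLr⟩ : ∃ Lr : ℝ, Lr = (L : ℝ) := ⟨_, rfl⟩
  have hn1 : 1 ≤ n := by
    have : (1 : ℝ) ≤ (n : ℝ) := by rw [← hxn]; exact hx1
    exact_mod_cast this
  have hH2 : H = 2 ^ (n - 1) := by
    rw [hHh, hh]
    push_cast
    rfl
  have hH0 : 0 < H := by rw [hH2]; positivity
  have hLr0 : 0 < Lr := by
    rw [hLr]
    have h1 : 0 < n ^ 3 := by positivity
    exact_mod_cast h1.trans_le hL1
  have hLr2 : Lr ≤ 2 * x ^ 3 := by
    rw [hLr, hxn]
    exact_mod_cast hL2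
  have hILr : (Ic : ℝ) * Lr = H := by
    rw [hLr, hHh]
    exact_mod_cast hIL
  rw [← hHh, ← hxn] at ha hq1 hq2
  rw [← hLr, ← hxn] at he
  rw [← hxn] at hκ
  have hHx : H ≤ Real.exp x := by
    have h1 : (2 : ℝ) ≤ Real.exp 1 := by
      have := Real.add_one_le_exp (1 : ℝ)
      linarith
    calc H = 2 ^ (n - 1) := hH2
      _ ≤ 2 ^ n := pow_le_pow_right₀ (by norm_num) (by omega)
      _ ≤ (Real.exp 1) ^ n := pow_le_pow_left₀ (by norm_num) h1 n
      _ = Real.exp x := by rw [← Real.exp_nat_mul, hxn, mul_one]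
  have hH12 : x ^ 12 ≤ H := by
    have h1 : Real.exp (1 / 2) ≤ 2 := by
      have h2 : Real.exp (1 / 2) ^ 2 ≤ 2 ^ 2 := by
        rw [← Real.exp_nat_mul]
        have h3 : ((2 : ℕ) : ℝ) * (1 / 2) = 1 := by norm_num
        rw [h3]
        have := Real.exp_one_lt_d9
        linarith
      exact le_of_sq_le_sq h2 (by norm_num)
    have h4 : ((n - 1 : ℕ) : ℝ) = x - 1 := by
      rw [Nat.cast_sub hn1, hxn, Nat.cast_one]
    calc x ^ 12 = (Real.exp l) ^ 12 := by rw [hexl]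
      _ = Real.exp ((12 : ℕ) * l) := by rw [← Real.exp_nat_mul]
      _ ≤ Real.exp (((n - 1 : ℕ) : ℝ) * (1 / 2)) := by
          apply Real.exp_le_exp.mpr
          rw [h4]
          push_cast
          linarith
      _ = (Real.exp (1 / 2)) ^ (n - 1) := by rw [← Real.exp_nat_mul]
      _ ≤ 2 ^ (n - 1) := pow_le_pow_left₀ (Real.exp_pos _).le h1 _
      _ = H := hH2.symm
  -- exponents
  have hA := numericL_A l hl
  have hP4 : P ^ 4 * x = Real.exp (l / 25) := by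
    rw [hP, ← hexl, ← Real.exp_nat_mul, ← Real.exp_add]
    congr 1
    push_cast
    ring
  have hE2 : 10 * l ≤ (P * (P / 2)) ^ 2 * x * 2500 / (32 * l ^ 2) := by
    have h1 : (P * (P / 2)) ^ 2 * x * 2500 / (32 * l ^ 2) =
        (P ^ 4 * x) * 2500 / (128 * l ^ 2) := by
      field_simp
      ring
    rw [h1, hP4]
    exact hA
  have hE1 : 40 * l ≤ P ^ 2 * x * 2500 / (32 * l ^ 2) := by
    have h1 : P ^ 4 ≤ P ^ 2 := pow_le_pow_of_le_one hP0.le hP1 (by norm_num)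
    have h2 : P ^ 4 * x * 2500 / (32 * l ^ 2) ≤ P ^ 2 * x * 2500 / (32 * l ^ 2) := by
      apply div_le_div_of_nonneg_right _ (by positivity)
      apply mul_le_mul_of_nonneg_right _ (by norm_num)
      exact mul_le_mul_of_nonneg_right h1 hx0.le
    refine le_trans ?_ h2
    rw [hP4]
    have h3 : Real.exp (l / 25) * 2500 / (32 * l ^ 2) =
        4 * (Real.exp (l / 25) * 2500 / (128 * l ^ 2)) := by
      field_simp
      ring
    rw [h3]
    linarith
  have hq1e : q1 = Real.exp (-(P ^ 2 * x * 2500 / (32 * l ^ 2))) := by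
    rw [hq1, ha, numericL_exp1 x l H P hx0 hl0 hH0]
  have hq2e : q2 = Real.exp (-((P * (P / 2)) ^ 2 * x * 2500 / (32 * l ^ 2))) := by
    rw [hq2, ha, hδ]
    rw [show P * (P / 2 * H) = (P * (P / 2)) * H by ring]
    rw [numericL_exp1 x l H (P * (P / 2)) hx0 hl0 hH0]
  have hq1le : q1 ≤ 1 / x ^ 40 := by
    rw [hq1e, ← hexl, ← Real.exp_nat_mul, one_div, ← Real.exp_neg]
    apply Real.exp_le_exp.mpr
    rw [hexl]
    push_cast
    linarith
  have hq1pos : 0 ≤ q1 := by rw [hq1e]; exact (Real.exp_pos _).le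
  have hq2le : q2 ≤ 1 / x ^ 10 := by
    rw [hq2e, ← hexl, ← Real.exp_nat_mul, one_div, ← Real.exp_neg]
    apply Real.exp_le_exp.mpr
    rw [hexl]
    push_cast
    linarith
  have hκ0 : 0 ≤ κ := by rw [hκ]; positivity
  have hκ2 : κ ≤ 1 / 2 := by
    rw [hκ, div_le_iff₀ hx0]
    linarith
  refine ⟨hκ0, by linarith, ?_, ?_, ?_, ?_, ?_⟩
  · rw [ha]; positivity
  · have h1 := numericL_one_sub κ hκ0 hκ2
    calc P = (Real.exp (-(2 * κ))) ^ n := by
          rw [← Real.exp_nat_mul, hP, hκ, ← hxn]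
          congr 1
          field_simp
          ring
      _ ≤ (1 - κ) ^ n := pow_le_pow_left₀ (Real.exp_pos _).le h1 n
  · have h1 : ((n * (n * L) : ℕ) : ℝ) = x * (x * Lr) := by
      rw [hxn, hLr]
      push_cast
      rfl
    rw [h1]
    have h2 : x * (x * Lr) ≤ 2 * x ^ 5 := by
      calc x * (x * Lr) = x ^ 2 * Lr := by ring
        _ ≤ x ^ 2 * (2 * x ^ 3) := mul_le_mul_of_nonneg_left hLr2 (by positivity)
        _ = 2 * x ^ 5 := by ring
    calc 4 * q1 * (x * (x * Lr)) ≤ 4 * (1 / x ^ 40) * (2 * x ^ 5) := by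
          apply mul_le_mul _ h2 (by positivity) (by positivity)
          linarith
      _ = 8 * x ^ 5 / x ^ 40 := by ring
      _ ≤ 1 := by
          rw [div_le_one (by positivity)]
          have h3 : (8 : ℝ) ≤ x ^ 35 := by
            calc (8 : ℝ) ≤ x := by linarith
              _ = x ^ 1 := (pow_one x).symm
              _ ≤ x ^ 35 := pow_le_pow_right₀ hx1 (by norm_num)
          calc 8 * x ^ 5 ≤ x ^ 35 * x ^ 5 := mul_le_mul_of_nonneg_right h3 (by positivity)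
            _ = x ^ 40 := by ring
  · have h1 : 1 / x ^ 10 ≤ P / 16 := by
      have h2 : 1 / x ^ 10 * 16 ≤ 1 / x := by
        rw [div_mul_eq_mul_div, div_le_div_iff₀ (by positivity) (by positivity)]
        have h3 : (16 : ℝ) ≤ x ^ 9 := by
          calc (16 : ℝ) ≤ x := by linarith
            _ = x ^ 1 := (pow_one x).symm
            _ ≤ x ^ 9 := pow_le_pow_right₀ hx1 (by norm_num)
        calc 1 * 16 * x ≤ x ^ 9 * x := by
              rw [one_mul]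
              exact mul_le_mul_of_nonneg_right h3 hx0.le
          _ = 1 * x ^ 10 := by ring
      linarith
    rw [hδ]
    linarith
  · have h1 := numericL_fin x H Lr P q1 m h hHh.symm hx48 hH12 hHx hPx hLr0 hLr2 hq1pos hq1le hm1 hm34
    rw [← numericL_exp3 x Lr Ic H P hx0 hLr0 hH0 hILr,
      ← numericL_exp4 x Lr Ic H P hx0 hLr0 hH0 hILr] at h1
    rw [← hHh, he, hδ]
    exact h1

/-- numeric lemma for `host_blocks`, uniform in C:
C(L,t) ≤ L^t/t! and t! ≥ (t/e)^t; t > 6CL/n so (e L C/(n t))^t ≤ (e/6)^t ≤ (1/2)^t, t ≥ 6 n^2 (C ≥ 1),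
and 2^n*Ic ≤ 2^(2n). -/
theorem numeric2L :
    ∃ n0 : ℕ, ∀ n : ℕ, n0 ≤ n → ∀ C : ℝ, 1 ≤ C → ∀ L Ic : ℕ, n ^ 3 ≤ L → L ≤ 2 * n ^ 3 →
      Ic * L = 2 ^ (n - 1) →
      ∀ t : ℕ, t = ⌊6 * C / n * (L : ℝ)⌋₊ + 1 →
      ((2 ^ n : ℕ) : ℝ) * (Ic : ℝ) * ((L.choose t : ℕ) : ℝ) * (C / n) ^ t < 1 := by
  refine ⟨1, ?_⟩
  intro n hn C hC L Ic hL hL2 hIc t ht
  have hnpos : (0 : ℝ) < n := by exact_mod_cast hn
  have hn1 : (1 : ℝ) ≤ n := by exact_mod_cast hn
  have hLR : ((n : ℝ)) ^ 3 ≤ L := by exact_mod_cast hL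
  have hLpos : (0 : ℝ) < L := lt_of_lt_of_le (by positivity) hLR
  have hLnat : 1 ≤ L := by exact_mod_cast (Nat.one_le_iff_ne_zero.mpr (by
    intro h0; rw [h0] at hLpos; simp at hLpos))
  set a : ℝ := L * (C / n) with ha
  have hapos : 0 < a := by positivity
  have hta : 6 * a < t := by
    have h1 := Nat.lt_floor_add_one (6 * C / n * (L : ℝ))
    rw [ht]
    push_cast
    have h2 : 6 * a = 6 * C / n * (L : ℝ) := by rw [ha]; ring
    rw [h2]
    exact h1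
  have hafac : (n : ℝ) ^ 2 ≤ a := by
    rw [ha, mul_div_assoc', le_div_iff₀ hnpos]
    nlinarith [mul_le_mul hLR hC (by norm_num) hLpos.le]
  have htn : 6 * n ^ 2 ≤ t := by
    have : (6 * (n : ℝ) ^ 2) ≤ t := by linarith
    exact_mod_cast this
  have hfpos : (0 : ℝ) < (t.factorial : ℝ) := by exact_mod_cast Nat.factorial_pos t
  have h1 : ((L.choose t : ℕ) : ℝ) * (C / n) ^ t ≤ a ^ t / t.factorial := by
    have h := Nat.choose_le_pow_div (α := ℝ) t L
    calc ((L.choose t : ℕ) : ℝ) * (C / n) ^ t ≤ ((L : ℝ) ^ t / t.factorial) * (C / n) ^ t :=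
          mul_le_mul_of_nonneg_right h (by positivity)
      _ = a ^ t / t.factorial := by rw [ha, mul_pow]; ring
  have h2 : a ^ t / t.factorial ≤ (1 / 2 : ℝ) ^ t := by
    have h3 : (6 * a) ^ t / t.factorial ≤ Real.exp t := by
      refine le_trans ?_ (Real.pow_div_factorial_le_exp (t : ℝ) (by positivity) t)
      gcongr
    have h4 : Real.exp t ≤ 3 ^ t := by
      rw [← Real.exp_one_pow]
      exact pow_le_pow_left₀ (Real.exp_pos 1).le (by linarith [Real.exp_one_lt_d9]) t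
    have h5 : a ^ t / t.factorial = (1 / 6 : ℝ) ^ t * ((6 * a) ^ t / t.factorial) := by
      rw [← mul_div_assoc, ← mul_pow]
      congr 2
      ring
    rw [h5]
    calc (1 / 6 : ℝ) ^ t * ((6 * a) ^ t / t.factorial) ≤ (1 / 6 : ℝ) ^ t * 3 ^ t :=
          mul_le_mul_of_nonneg_left (h3.trans h4) (by positivity)
      _ = (1 / 2 : ℝ) ^ t := by rw [← mul_pow]; norm_num
  have h6 : (Ic : ℝ) ≤ 2 ^ (n - 1) := by
    have : Ic ≤ 2 ^ (n - 1) := by
      rw [← hIc]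
      exact Nat.le_mul_of_pos_right _ hLnat
    exact_mod_cast this
  have h7 : ((L.choose t : ℕ) : ℝ) * (C / n) ^ t ≤ (1 / 2 : ℝ) ^ t := h1.trans h2
  have h8 : (1 / 2 : ℝ) ^ t ≤ (1 / 2 : ℝ) ^ (6 * n ^ 2) :=
    pow_le_pow_of_le_one (by norm_num) (by norm_num) htn
  have h9 : (0:ℝ) ≤ ((L.choose t : ℕ) : ℝ) * (C / n) ^ t := by positivity
  calc ((2 ^ n : ℕ) : ℝ) * (Ic : ℝ) * ((L.choose t : ℕ) : ℝ) * (C / n) ^ t
      = (2 ^ n * (Ic : ℝ)) * (((L.choose t : ℕ) : ℝ) * (C / n) ^ t) := by push_cast; ring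
    _ ≤ (2 ^ n * 2 ^ (n - 1)) * (1 / 2 : ℝ) ^ (6 * n ^ 2) := by
        apply mul_le_mul
        · exact mul_le_mul_of_nonneg_left h6 (by positivity)
        · exact h7.trans h8
        · exact h9
        · positivity
    _ = 2 ^ (n + (n - 1)) * (1 / 2 : ℝ) ^ (6 * n ^ 2) := by rw [pow_add]
    _ < 2 ^ (6 * n ^ 2) * (1 / 2 : ℝ) ^ (6 * n ^ 2) := by
        apply mul_lt_mul_of_pos_right _ (by positivity)
        apply pow_lt_pow_right₀ (by norm_num)
        have : n ≤ n ^ 2 := by nlinarith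
        omega
    _ = 1 := by rw [← mul_pow]; norm_num

end Pool.Agent.QCube
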