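import Mathlib
import Pool.Agent.QCube.Core
import Pool.Agent.QCube.Num
import Pool.Agent.QCube.Cube

set_option autoImplicit false

namespace Pool.Agent.QCube

open Finset

theorem hl_clog (n : ℕ) (hn : 129 ≤ n) : 4 * Nat.clog 2 (n ^ 3) ≤ n := by
  have hk : ∀ k : ℕ, 8 ≤ k → 12 * k ≤ 2 ^ (k - 1) := by
    intro k hk
    induction k, hk using Nat.le_induction with
    | base => norm_num
    | succ k hk ih =>
      have h1 : 2 ^ (k + 1 - 1) = 2 * 2 ^ (k - 1) := by
        rw [← pow_succ']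
        congr 1
        omega
      rw [h1]
      omega
  have h1 : n ≤ 2 ^ Nat.clog 2 n := Nat.le_pow_clog (by norm_num) n
  have h2 : 2 ^ (Nat.clog 2 n).pred < n := Nat.pow_pred_clog_lt_self (by norm_num) (by omega)
  have h3 : 8 ≤ Nat.clog 2 n := by
    by_contra h
    have h4 : Nat.clog 2 n ≤ 7 := by omega
    have h5 : 2 ^ Nat.clog 2 n ≤ 2 ^ 7 := Nat.pow_le_pow_right (by norm_num) h4
    omega
  have h4 : Nat.clog 2 (n ^ 3) ≤ 3 * Nat.clog 2 n := by
    apply Nat.clog_le_of_le_pow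
    rw [mul_comm, pow_mul]
    exact Nat.pow_le_pow_left h1 3
  have h5 := hk _ h3
  have h6 : (Nat.clog 2 n).pred = Nat.clog 2 n - 1 := rfl
  rw [h6] at h2
  omega

open Classical in
/-- final assembly (everything above may be used without proof).
Take `n0` from `numericL` and from `numeric2L`; `C = log n/50 ≥ 1` for large n.
For large n put `l = Nat.clog 2 (n^3)`, `L = 2^l`
(n^3 ≤ L ≤ 2 n^3 since n ≥ 2), `X = Fin l → ZMod 2` (card L), `4*l ≤ n`. `cube_blocks` gives `I`, `e`;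
`|I|*L = 2^(n-1)` (number of even-weight vertices, `cube_facts`). `Γ v = univ.filter (¬ G.Adj v ·)`, card
`2^n - deg v ≤ C/n*2^n`, symmetric. `host_blocks` with `γ = C/n`, `t = ⌊6C/n*L⌋+1` gives `ψ`.
`O` = odd vertices, `R = {v // v ∉ Set.range ψ}`, both of card `2^(n-1)`.
`P w = (univ.filter (fun x : even vertices => hammingDist w x = 1)).map e` has ≤ n elements, distinct
blocks by `cube_blocks`; `H v = univ.filter (fun x => ψ x ∈ Γ v)`. `core` gives `s, φ`; then
`cube_transfer`. -/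
theorem hypercube_log :
    ∃ n0 : ℕ, ∀ n : ℕ, n0 ≤ n → ∀ G : SimpleGraph (Fin (2 ^ n)),
      (∀ v, (1 - Real.log n / (50 * n)) * (2 : ℝ) ^ n ≤ ((G.degree v : ℕ) : ℝ)) →
      ∃ f : (Fin n → Bool) ↪ Fin (2 ^ n),
        ∀ x y : Fin n → Bool, hammingDist x y = 1 → G.Adj (f x) (f y) := by
  obtain ⟨n1, hn1⟩ := numericL
  obtain ⟨n2, hn2⟩ := numeric2L
  refine ⟨max (max n1 n2) (max 129 ⌈Real.exp 50⌉₊), fun n hn G hG => ?_⟩
  have hnn1 : n1 ≤ n := le_trans (le_trans (le_max_left _ _) (le_max_left _ _)) hn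
  have hnn2 : n2 ≤ n := le_trans (le_trans (le_max_right _ _) (le_max_left _ _)) hn
  have hn129 : 129 ≤ n := le_trans (le_trans (le_max_left _ _) (le_max_right _ _)) hn
  have hnexp : Real.exp 50 ≤ n :=
    (Nat.le_ceil _).trans (by exact_mod_cast le_trans (le_trans (le_max_right _ _) (le_max_right _ _)) hn)
  have hn0 : 1 ≤ n := by omega
  have hnR : (0 : ℝ) < n := by exact_mod_cast hn0
  have hlog : 50 ≤ Real.log n := by
    rw [Real.le_log_iff_exp_le hnR]
    exact hnexp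
  obtain ⟨C, hC⟩ : ∃ C : ℝ, C = Real.log n / 50 := ⟨_, rfl⟩
  have hC1 : 1 ≤ C := by
    rw [hC]
    linarith
  have hC0 : 0 ≤ C := by linarith
  obtain ⟨l, hl⟩ : ∃ l : ℕ, l = Nat.clog 2 (n ^ 3) := ⟨_, rfl⟩
  have h4l : 4 * l ≤ n := by rw [hl]; exact hl_clog n hn129
  have hL1 : n ^ 3 ≤ 2 ^ l := by rw [hl]; exact Nat.le_pow_clog (by norm_num) _
  have hn3 : 1 < n ^ 3 := Nat.one_lt_pow (by norm_num) (by omega)
  have hl1 : 1 ≤ l := by
    rw [hl]
    exact Nat.clog_pos (by norm_num) (by omega)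
  have hL2 : 2 ^ l ≤ 2 * n ^ 3 := by
    have h1 : 2 ^ (Nat.clog 2 (n ^ 3)).pred < n ^ 3 := Nat.pow_pred_clog_lt_self (by norm_num) hn3
    have h2 : (Nat.clog 2 (n ^ 3)).pred = l - 1 := by rw [hl]; rfl
    rw [h2] at h1
    have h3 : 2 ^ l = 2 * 2 ^ (l - 1) := by
      rw [← pow_succ']
      congr 1
      omega
    omega
  obtain ⟨I, iF, iD, e, he⟩ := cube_blocks n l h4l hn0
  obtain ⟨hcE, hcO, hc3, hpar⟩ := cube_facts n hn0
  have hX : Fintype.card (Fin l → ZMod 2) = 2 ^ l := by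
    rw [Fintype.card_fun, ZMod.card, Fintype.card_fin]
  have hIL : Fintype.card I * Fintype.card (Fin l → ZMod 2) = 2 ^ (n - 1) := by
    rw [← Fintype.card_prod, ← Fintype.card_congr e]
    exact hcE
  have hpowpos : 0 < 2 ^ (n - 1) := by positivity
  have hne : Nonempty I := by
    rw [← Fintype.card_pos_iff]
    rcases Nat.eq_zero_or_pos (Fintype.card I) with h | h
    · rw [h, zero_mul] at hIL
      omega
    · exact h
  have h2n : 2 ^ n = 2 * 2 ^ (n - 1) := by
    rw [← pow_succ']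
    congr 1
    omega
  let Γ : Fin (2 ^ n) → Finset (Fin (2 ^ n)) := fun v => univ.filter (fun u => ¬ G.Adj v u)
  have hΓ : ∀ v, ((Γ v).card : ℝ) ≤ C / n * (2 : ℝ) ^ n := by
    intro v
    have h1 := hG v
    have h2 : G.degree v + (Γ v).card = 2 ^ n := by
      have h3 : G.degree v = (univ.filter (fun u => G.Adj v u)).card := by
        rw [← SimpleGraph.card_neighborFinset_eq_degree, SimpleGraph.neighborFinset_eq_filter]
      rw [h3]
      have h4 := Finset.card_filter_add_card_filter_not (s := (univ : Finset (Fin (2 ^ n)))) (fun u => G.Adj v u)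
      rw [Finset.card_univ, Fintype.card_fin] at h4
      exact h4
    have h3 : ((G.degree v : ℕ) : ℝ) + ((Γ v).card : ℝ) = (2 : ℝ) ^ n := by exact_mod_cast h2
    have h4 : Real.log n / (50 * n) = C / n := by
      rw [hC]
      field_simp
    rw [h4] at h1
    linarith
  obtain ⟨t, ht⟩ : ∃ t : ℕ, t = ⌊6 * C / n * ((Fintype.card (Fin l → ZMod 2) : ℕ) : ℝ)⌋₊ + 1 := ⟨_, rfl⟩
  obtain ⟨ψ, hψ⟩ := host_blocks (V := Fin (2 ^ n)) (I := I) (X := Fin l → ZMod 2) Γ (C / n)
    (by positivity) (fun v => by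
      rw [Fintype.card_fin]
      push_cast
      exact hΓ v) (by
      rw [Fintype.card_fin, hIL]
      omega) t (by
      rw [Fintype.card_fin]
      exact hn2 n hnn2 C hC1 (Fintype.card (Fin l → ZMod 2)) (Fintype.card I)
        (by rw [hX]; exact hL1) (by rw [hX]; exact hL2) hIL t ht)
  obtain ⟨m, hm⟩ := hn1 n hnn1
  obtain ⟨κ, hκ⟩ : ∃ κ : ℝ, κ = 6 * C / n := ⟨_, rfl⟩
  obtain ⟨h, hh⟩ : ∃ h : ℕ, h = 2 ^ (n - 1) := ⟨_, rfl⟩
  obtain ⟨a, ha⟩ : ∃ a : ℝ, a = 2 * C * h / n := ⟨_, rfl⟩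
  obtain ⟨p, hp⟩ : ∃ p : ℝ, p = Real.exp (-(12 * C)) := ⟨_, rfl⟩
  obtain ⟨δ, hδ⟩ : ∃ δ : ℝ, δ = p / 2 := ⟨_, rfl⟩
  obtain ⟨ee, hee⟩ : ∃ ee : ℝ, ee = (n : ℝ) * ((Fintype.card (Fin l → ZMod 2) : ℕ) : ℝ) := ⟨_, rfl⟩
  obtain ⟨q1, hq1⟩ : ∃ q1 : ℝ, q1 = Real.exp (-(p * (h : ℝ)) ^ 2 / (8 * n * a ^ 2)) := ⟨_, rfl⟩
  obtain ⟨q2, hq2⟩ : ∃ q2 : ℝ, q2 = Real.exp (-(p * (δ * (h : ℝ))) ^ 2 / (8 * n * a ^ 2)) := ⟨_, rfl⟩
  obtain ⟨r1, r2, r3, r4, r5, r6, r7⟩ := hm (Fintype.card (Fin l → ZMod 2)) (Fintype.card I) h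
    (by rw [hX]; exact hL1) (by rw [hX]; exact hL2) (by rw [hIL, hh]) hh C κ a p δ q1 q2 ee hC hκ ha
    hp hδ hee hq1 hq2
  let P : {x : Fin n → Bool // ¬ Even (univ.filter (fun i => x i = true)).card} →
      Finset (I × (Fin l → ZMod 2)) := fun w =>
    (univ.filter (fun x : {x : Fin n → Bool // Even (univ.filter (fun i => x i = true)).card} =>
      hammingDist w.1 x.1 = 1)).map e.toEmbedding
  let H : {v : Fin (2 ^ n) // v ∉ Set.range ψ} → Finset (I × (Fin l → ZMod 2)) := fun v =>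
    univ.filter (fun x => ψ x ∈ Γ v.1)
  have hR : Fintype.card {v : Fin (2 ^ n) // v ∉ Set.range ψ} = h := by
    have h1 := Fintype.card_subtype_compl (fun v : Fin (2 ^ n) => v ∈ Set.range ψ)
    have h2 : Fintype.card {v : Fin (2 ^ n) // v ∈ Set.range ψ} = 2 ^ (n - 1) := by
      have h3 : Fintype.card {v : Fin (2 ^ n) // v ∈ Set.range ψ} = Fintype.card (I × (Fin l → ZMod 2)) :=
        Fintype.card_congr (Equiv.ofInjective ψ ψ.injective).symm
      rw [h3, Fintype.card_prod, hIL]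
    rw [h2, Fintype.card_fin] at h1
    rw [hh]
    omega
  have memP : ∀ w x, x ∈ P w ↔ hammingDist w.1 (e.symm x).1 = 1 := by
    intro w x
    show x ∈ (univ.filter (fun x : {x : Fin n → Bool // Even (univ.filter (fun i => x i = true)).card} =>
      hammingDist w.1 x.1 = 1)).map e.toEmbedding ↔ _
    rw [Finset.mem_map]
    constructor
    · rintro ⟨y, hy, rfl⟩
      have h1 := (Finset.mem_filter.1 hy).2
      show hammingDist w.1 (e.symm (e y)).1 = 1
      rw [e.symm_apply_apply]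
      exact h1
    · intro h1
      exact ⟨e.symm x, Finset.mem_filter.2 ⟨Finset.mem_univ _, h1⟩, e.apply_symm_apply x⟩
  have memH : ∀ (v : {v : Fin (2 ^ n) // v ∉ Set.range ψ}) x, x ∈ H v ↔ ¬ G.Adj v.1 (ψ x) := by
    intro v x
    show x ∈ univ.filter (fun x => ψ x ∈ Γ v.1) ↔ _
    rw [Finset.mem_filter]
    show (_ ∧ ψ x ∈ univ.filter (fun u => ¬ G.Adj v.1 u)) ↔ _
    rw [Finset.mem_filter]
    simp
  obtain ⟨s, φ, hφ, hok⟩ := core (I := I)
    (O := {x : Fin n → Bool // ¬ Even (univ.filter (fun i => x i = true)).card})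
    (R := {v : Fin (2 ^ n) // v ∉ Set.range ψ}) (X := Fin l → ZMod 2) n m h hn0
    (by rw [hh]; positivity) (by rw [hcO, hh]) hR κ a p δ q1 q2 ee r1 r2 r3
    (by rw [hp]; exact Real.exp_pos _)
    (by rw [hp]; exact Real.exp_le_one_iff.2 (by linarith)) r4 hδ hee hq1 hq2 r5 r6 r7 P H
    (by
      intro w
      show ((univ.filter (fun x : {x : Fin n → Bool // Even (univ.filter (fun i => x i = true)).card} =>
        hammingDist w.1 x.1 = 1)).map e.toEmbedding).card ≤ n
      rw [Finset.card_map, ← Finset.card_map (Function.Embedding.subtype _)]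
      refine (Finset.card_le_card ?_).trans (hc3 w.1).le
      intro x hx
      obtain ⟨y, hy, rfl⟩ := Finset.mem_map.1 hx
      exact Finset.mem_filter.2 ⟨Finset.mem_univ _, (Finset.mem_filter.1 hy).2⟩)
    (by
      intro w x hx y hy hxy
      rw [memP] at hx hy
      by_contra hne
      have h1 : e.symm x ≠ e.symm y := fun h1 => hne (e.symm.injective h1)
      refine he (e.symm x) (e.symm y) h1 ?_ ⟨w.1, hx, hy⟩
      rw [e.apply_symm_apply, e.apply_symm_apply]
      exact hxy)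
    (by
      intro x
      rw [← Finset.card_map (Function.Embedding.subtype _)]
      refine (Finset.card_le_card ?_).trans (hc3 (e.symm x).1).le
      intro z hz
      obtain ⟨w, hw, rfl⟩ := Finset.mem_map.1 hz
      have h1 := (memP w x).1 (Finset.mem_filter.1 hw).2
      refine Finset.mem_filter.2 ⟨Finset.mem_univ _, ?_⟩
      rw [hammingDist_comm]
      exact h1)
    (by
      intro v i
      have h1 := hψ v.1 i
      have h2 : (univ.filter (fun j : Fin l → ZMod 2 => (i, j) ∈ H v)) =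
          (univ.filter (fun j : Fin l → ZMod 2 => ψ (i, j) ∈ Γ v.1)) := by
        ext j
        constructor
        · intro hj
          have h5 : (i, j) ∈ H v := (Finset.mem_filter.1 hj).2
          exact Finset.mem_filter.2 ⟨Finset.mem_univ _, (Finset.mem_filter.1 h5).2⟩
        · intro hj
          have h5 := (Finset.mem_filter.1 hj).2
          exact Finset.mem_filter.2 ⟨Finset.mem_univ _,
            Finset.mem_filter.2 ⟨Finset.mem_univ _, h5⟩⟩
      rw [h2]
      rw [ht] at h1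
      have h3 : (univ.filter (fun j : Fin l → ZMod 2 => ψ (i, j) ∈ Γ v.1)).card ≤
          ⌊6 * C / n * ((Fintype.card (Fin l → ZMod 2) : ℕ) : ℝ)⌋₊ := Nat.lt_succ_iff.1 h1
      rw [hκ]
      have h4 : (0:ℝ) ≤ 6 * C / n * ((Fintype.card (Fin l → ZMod 2) : ℕ) : ℝ) := by positivity
      exact (Nat.cast_le.2 h3).trans (Nat.floor_le h4))
    (by
      intro x
      have h1 : (univ.filter (fun v : {v : Fin (2 ^ n) // v ∉ Set.range ψ} => x ∈ H v)).card ≤
          (Γ (ψ x)).card := by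
        rw [← Finset.card_map (Function.Embedding.subtype _)]
        apply Finset.card_le_card
        intro z hz
        obtain ⟨v, hv, rfl⟩ := Finset.mem_map.1 hz
        have h1 := (memH v x).1 (Finset.mem_filter.1 hv).2
        refine Finset.mem_filter.2 ⟨Finset.mem_univ _, ?_⟩
        intro h2
        exact h1 h2.symm
      have h2 := hΓ (ψ x)
      have h3 : C / n * (2 : ℝ) ^ n = a := by
        rw [ha, hh]
        have h4 : (2:ℝ) ^ n = 2 * 2 ^ (n - 1) := by exact_mod_cast h2n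
        rw [h4]
        push_cast
        ring
      rw [h3] at h2
      exact (Nat.cast_le.2 h1).trans h2)
  refine cube_transfer G hpar e ψ s φ hφ ?_
  intro w y hwy
  have h1 : e y ∈ P w := by
    rw [memP, e.symm_apply_apply]
    exact hwy
  have h2 := hok w (e y) h1
  rw [memH, not_not] at h2
  exact h2

end Pool.Agent.QCube
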