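import Mathlib
import Pool.Agent.QCube.Defs

set_option autoImplicit false

namespace Pool.Agent.QCube

open Finset

theorem n3_one_sub (y : ℝ) (h0 : 0 ≤ y) (h1 : y ≤ 1 / 2) : Real.exp (-(2 * y)) ≤ 1 - y := by
  have h2 : 2 * y + 1 ≤ Real.exp (2 * y) := Real.add_one_le_exp _
  have h3 : (2 * y + 1) * (1 - y) ≤ Real.exp (2 * y) * (1 - y) :=
    mul_le_mul_of_nonneg_right h2 (by linarith)
  have h4 : 0 ≤ y * (1 - 2 * y) := mul_nonneg h0 (by linarith)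
  have h5 : 1 ≤ Real.exp (2 * y) * (1 - y) := by nlinarith only [h3, h4]
  rw [Real.exp_neg, inv_le_iff_one_le_mul₀ (Real.exp_pos _)]
  linarith only [h5]

theorem n3_A (l : ℝ) (hl : 4800000 ≤ l) :
    10 * l ≤ Real.exp (l / 25) * 2500 / (128 * l ^ 2) := by
  have hl0 : 0 < l := by linarith
  have h1 : (l / 25) ^ 4 / (Nat.factorial 4 : ℝ) ≤ Real.exp (l / 25) :=
    Real.pow_div_factorial_le_exp _ (by positivity) 4
  have h2 : ((Nat.factorial 4 : ℕ) : ℝ) = 24 := by norm_num [Nat.factorial]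
  rw [h2] at h1
  rw [le_div_iff₀ (by positivity)]
  have h3 : (l / 25) ^ 4 / 24 * 2500 ≤ Real.exp (l / 25) * 2500 := by linarith
  refine le_trans ?_ h3
  have h4 : (l / 25) ^ 4 / 24 * 2500 = l ^ 3 * (l / 3750) := by ring
  have h5 : 10 * l * (128 * l ^ 2) = l ^ 3 * 1280 := by ring
  rw [h4, h5]
  apply mul_le_mul_of_nonneg_left _ (by positivity)
  linarith

theorem n3_exp1 (x l H p : ℝ) (hx : 0 < x) (hl : 0 < l) (hH : 0 < H) :
    -(p * H) ^ 2 / (8 * x * (2 * (l / 100) * H / x) ^ 2)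
      = -(p ^ 2 * x * 10000 / (32 * l ^ 2)) := by
  field_simp
  ring

theorem n3_E (x H Ic Num c : ℝ) (hx : 0 < x) (hH : 0 < H) (hIc : 0 < Ic)
    (hIH : Ic * x ^ 3 ≤ H) (hc : 0 < c) (hc64 : c * (1 / 256) * (H ^ 2 / x) ≤ Num) :
    H / (256 * x ^ 6) ≤ Num / (c * Ic * (x * x ^ 3) ^ 2) := by
  rw [le_div_iff₀ (by positivity)]
  have h1 : c * Ic * (x * x ^ 3) ^ 2 = c * x ^ 5 * (Ic * x ^ 3) := by ring
  rw [h1]
  calc H / (256 * x ^ 6) * (c * x ^ 5 * (Ic * x ^ 3)) ≤ H / (256 * x ^ 6) * (c * x ^ 5 * H) := by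
        gcongr
    _ = c * (1 / 256) * (H ^ 2 / x) := by
        field_simp
    _ ≤ Num := hc64

theorem n3_fin (x H q1 E1 E2 : ℝ) (m h : ℕ) (hh : (h : ℝ) = H) (hx : 4800000 ≤ x)
    (hH10 : x ^ 10 ≤ 2 * H) (hHx : H ≤ Real.exp (x ^ 2))
    (hE1 : H / (256 * x ^ 6) ≤ E1) (hE2 : H / (256 * x ^ 6) ≤ E2)
    (hq0 : 0 ≤ q1) (hq1 : q1 ≤ 1 / x ^ 40)
    (hm1 : 1 ≤ m) (hm : (m : ℝ) ≤ 130 * x) :
    H * Real.exp (-E1) + H ^ m * Real.exp (-E2) < (1 - 2 * q1) ^ h := by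
  have hx0 : 0 < x := by linarith
  have hx1 : 1 ≤ x := by linarith
  have hx10 : x ≤ x ^ 10 := by
    calc x = x ^ 1 := (pow_one x).symm
      _ ≤ x ^ 10 := pow_le_pow_right₀ hx1 (by norm_num)
  have hH1 : 1 ≤ H := by linarith
  have hH0 : 0 < H := by linarith
  set B : ℝ := H / (256 * x ^ 6) with hB
  have hHm : H ≤ H ^ m := by
    calc H = H ^ 1 := (pow_one H).symm
      _ ≤ H ^ m := pow_le_pow_right₀ hH1 hm1
  have hHm2 : H ^ m ≤ Real.exp (130 * x ^ 3) := by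
    calc H ^ m ≤ (Real.exp (x ^ 2)) ^ m := pow_le_pow_left₀ hH0.le hHx m
      _ = Real.exp (m * x ^ 2) := by rw [← Real.exp_nat_mul]
      _ ≤ Real.exp (130 * x ^ 3) := by
          apply Real.exp_le_exp.mpr
          calc (m : ℝ) * x ^ 2 ≤ 130 * x * x ^ 2 := mul_le_mul_of_nonneg_right hm (by positivity)
            _ = 130 * x ^ 3 := by ring
  have h1 : H * Real.exp (-E1) ≤ Real.exp (130 * x ^ 3) * Real.exp (-B) := by
    apply mul_le_mul (hHm.trans hHm2) _ (Real.exp_pos _).le (Real.exp_pos _).le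
    apply Real.exp_le_exp.mpr
    linarith
  have h2 : H ^ m * Real.exp (-E2) ≤ Real.exp (130 * x ^ 3) * Real.exp (-B) := by
    apply mul_le_mul hHm2 _ (Real.exp_pos _).le (Real.exp_pos _).le
    apply Real.exp_le_exp.mpr
    linarith
  have hx34 : (2048 : ℝ) ≤ x ^ 34 := by
    calc (2048 : ℝ) ≤ x := by linarith
      _ = x ^ 1 := (pow_one x).symm
      _ ≤ x ^ 34 := pow_le_pow_right₀ hx1 (by norm_num)
  have hq4 : 4 * q1 * H ≤ H / (512 * x ^ 6) := by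
    have h3 : 1 / x ^ 40 * 2048 ≤ 1 / x ^ 6 := by
      rw [div_mul_eq_mul_div, div_le_div_iff₀ (by positivity) (by positivity)]
      calc 1 * 2048 * x ^ 6 ≤ x ^ 34 * x ^ 6 := by
            rw [one_mul]
            exact mul_le_mul_of_nonneg_right hx34 (by positivity)
        _ = 1 * x ^ 40 := by ring
    have h4 : 4 * q1 ≤ 1 / x ^ 6 / 512 := by linarith
    calc 4 * q1 * H ≤ 1 / x ^ 6 / 512 * H := mul_le_mul_of_nonneg_right h4 hH0.le
      _ = H / (512 * x ^ 6) := by field_simp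
  have hq2 : 2 * q1 ≤ 1 / 2 := by
    have h3 : 1 / x ^ 40 ≤ 1 / 256 := by
      apply one_div_le_one_div_of_le (by norm_num)
      refine le_trans (by norm_num) (hx34.trans ?_)
      exact pow_le_pow_right₀ hx1 (by norm_num)
    linarith
  have hR : Real.exp (-(4 * q1 * H)) ≤ (1 - 2 * q1) ^ h := by
    have h3 := n3_one_sub (2 * q1) (by linarith) hq2
    calc Real.exp (-(4 * q1 * H)) = (Real.exp (-(2 * (2 * q1)))) ^ h := by
          rw [← Real.exp_nat_mul, hh]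
          congr 1
          ring
      _ ≤ (1 - 2 * q1) ^ h := pow_le_pow_left₀ (Real.exp_pos _).le h3 h
  have hfin : 1 + 130 * x ^ 3 < H / (512 * x ^ 6) := by
    rw [lt_div_iff₀ (by positivity)]
    have h3 : 1 + 130 * x ^ 3 ≤ 131 * x ^ 3 := by
      have : 1 ≤ x ^ 3 := one_le_pow₀ hx1
      linarith
    have h5 : (1 + 130 * x ^ 3) * (512 * x ^ 6) ≤ 131 * x ^ 3 * (512 * x ^ 6) :=
      mul_le_mul_of_nonneg_right h3 (by positivity)
    have h6 : 131 * x ^ 3 * (512 * x ^ 6) = 67072 * x ^ 9 := by ring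
    have h7 : 134144 * x ^ 9 < x * x ^ 9 := mul_lt_mul_of_pos_right (by linarith) (by positivity)
    have h8 : x * x ^ 9 = x ^ 10 := by ring
    linarith
  have hB64 : B = 2 * (H / (512 * x ^ 6)) := by
    rw [hB]
    field_simp
    norm_num
  have h3 : (2 : ℝ) ≤ Real.exp 1 := by
    have := Real.add_one_le_exp (1 : ℝ)
    linarith
  calc H * Real.exp (-E1) + H ^ m * Real.exp (-E2)
      ≤ 2 * (Real.exp (130 * x ^ 3) * Real.exp (-B)) := by linarith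
    _ ≤ Real.exp 1 * (Real.exp (130 * x ^ 3) * Real.exp (-B)) :=
        mul_le_mul_of_nonneg_right h3 (by positivity)
    _ = Real.exp (1 + 130 * x ^ 3 - B) := by
        rw [← Real.exp_add, ← Real.exp_add]
        congr 1
        ring
    _ < Real.exp (-(4 * q1 * H)) := by
        apply Real.exp_lt_exp.mpr
        rw [hB64]
        linarith
    _ ≤ (1 - 2 * q1) ^ h := hR

theorem n3_m (P x : ℝ) (hP0 : 0 < P) (hP1 : P ≤ 1) (hx : 4800000 ≤ x) (hPx : 1 / x ≤ P ^ 2) :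
    ∃ m : ℕ, 1 ≤ m ∧ (m : ℝ) ≤ 130 * x ∧ (1 - P / 2) ^ m ≤ P / 64 := by
  have hx0 : 0 < x := by linarith
  have hx1 : 1 ≤ x := by linarith
  have hPi : 1 / P ^ 2 ≤ x := by
    rw [div_le_iff₀ (by positivity)]
    rw [div_le_iff₀ hx0] at hPx
    linarith
  refine ⟨⌈2 / P * Real.log (64 / P)⌉₊ + 1, by omega, ?_, ?_⟩
  · have h1 : 0 ≤ Real.log (64 / P) := by
      apply Real.log_nonneg
      rw [le_div_iff₀ hP0]
      linarith
    have h2 : Real.log (64 / P) ≤ 64 / P := by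
      have h3 := Real.log_le_sub_one_of_pos (by positivity : 0 < 64 / P)
      linarith
    have h6 : 2 / P * Real.log (64 / P) ≤ 2 / P * (64 / P) :=
      mul_le_mul_of_nonneg_left h2 (by positivity)
    have h6' : 2 / P * (64 / P) = 128 * (1 / P ^ 2) := by
      field_simp
      norm_num
    have h7 := Nat.ceil_lt_add_one (mul_nonneg (by positivity : 0 ≤ 2 / P) h1)
    push_cast
    linarith
  · have h1 : 2 / P * Real.log (64 / P) ≤ (⌈2 / P * Real.log (64 / P)⌉₊ : ℝ) := Nat.le_ceil _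
    have h2 : 1 - P / 2 ≤ Real.exp (-(P / 2)) := by
      have := Real.add_one_le_exp (-(P / 2))
      linarith
    calc (1 - P / 2) ^ (⌈2 / P * Real.log (64 / P)⌉₊ + 1)
        ≤ (Real.exp (-(P / 2))) ^ (⌈2 / P * Real.log (64 / P)⌉₊ + 1) :=
          pow_le_pow_left₀ (by linarith) h2 _
      _ = Real.exp (((⌈2 / P * Real.log (64 / P)⌉₊ + 1 : ℕ) : ℝ) * (-(P / 2))) := by
          rw [← Real.exp_nat_mul]
      _ ≤ Real.exp (-Real.log (64 / P)) := by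
          apply Real.exp_le_exp.mpr
          push_cast
          have h3 : Real.log (64 / P) = (2 / P * Real.log (64 / P)) * (P / 2) := by
            field_simp
          have h4 := mul_le_mul_of_nonneg_right h1 (by positivity : 0 ≤ P / 2)
          rw [← h3] at h4
          linarith
      _ = P / 64 := by
          rw [Real.exp_neg, Real.exp_log (by positivity)]
          rw [inv_div]

/-- numeric lemma: C = log D / 100, p = exp(-12C) = D^(-12/100), δ = p/4,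
m = ⌈(2/p) * log (16/δ)⌉ (so (1-p/2)^m ≤ exp(-pm/2) ≤ δ/16).
Simplifications: a = 2Ch/D so (p h/2)^2/(8 D a^2) = p^2 D/(128 C^2) and
(p δ h)^2/(8 D a^2) = p^4 D/(512 C^2) = D^(52/100)*10^4/(512 (log D)^2) → ∞; with Ic*D^3 ≤ h and
e = D*D^3: (p h)^2/(8 Ic e^2) ≥ p^2 h/(8 D^5) and (δ/2 h)^2/(4 Ic e^2) ≥ δ^2 h/(16 D^5);
h ≥ D^10/2, log h ≤ D^2. (1-2q1)^h ≥ exp(-4 q1 h) as 4q1 ≤ 1. 1-6C/D ≥ exp(-12C/D) as 6C/D ≤ 1/2. -/
theorem numeric3 : ∃ D0 : ℕ, ∀ D : ℕ, D0 ≤ D → ∃ m : ℕ, ∀ Ic h : ℕ, D ^ 10 ≤ 2 * h →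
      Real.log h ≤ (D : ℝ) ^ 2 → 0 < Ic → Ic * D ^ 3 ≤ h →
      ∀ C κ a p δ q1 q2 e : ℝ, C = Real.log D / 100 → κ = 6 * C / D →
      a = 2 * C * h / D → p = Real.exp (-(12 * C)) → δ = p / 4 → e = (D : ℝ) * (D : ℝ) ^ 3 →
      q1 = Real.exp (-(p * ((h : ℝ) / 2)) ^ 2 / (8 * D * a ^ 2)) →
      q2 = Real.exp (-(p * (δ * (h : ℝ))) ^ 2 / (8 * D * a ^ 2)) →
      (1 ≤ C ∧ 0 ≤ κ ∧ κ ≤ 1 ∧ 0 < a ∧ a ≤ (h : ℝ) / 2 ∧ 0 < p ∧ p ≤ 1 ∧ p ≤ (1 - κ) ^ D ∧
       (D : ℝ) ^ 4 ≤ δ * (h : ℝ) / 2 ∧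
       4 * q1 * ((D * (D * D ^ 3) : ℕ) : ℝ) ≤ 1 ∧
       q2 + (1 - p / 2) ^ m ≤ δ / 8 ∧
       (h : ℝ) * Real.exp (-(p * (h : ℝ)) ^ 2 / (8 * (Ic : ℝ) * e ^ 2)) +
        (h : ℝ) ^ m * Real.exp (-(δ / 2 * (h : ℝ)) ^ 2 / (4 * (Ic : ℝ) * e ^ 2)) <
        (1 - 2 * q1) ^ h) := by
  refine ⟨⌈Real.exp 4800000⌉₊, ?_⟩
  intro D hD
  have hx : Real.exp 4800000 ≤ (D : ℝ) := Nat.ceil_le.mp hD
  have hxpos : (0 : ℝ) < D := (Real.exp_pos _).trans_le hx
  obtain ⟨x, hxn⟩ : ∃ x : ℝ, x = (D : ℝ) := ⟨_, rfl⟩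
  obtain ⟨l, hln⟩ : ∃ l : ℝ, l = Real.log (D : ℝ) := ⟨_, rfl⟩
  have hx0 : 0 < x := by rw [hxn]; exact hxpos
  have hl : 4800000 ≤ l := by rw [hln]; exact (Real.le_log_iff_exp_le hxpos).mpr hx
  have hl0 : 0 < l := by linarith
  have hexl : Real.exp l = x := by rw [hln, hxn]; exact Real.exp_log hxpos
  have hlx : l ≤ x := by
    have := Real.add_one_le_exp l
    linarith
  have hx48 : 4800000 ≤ x := by linarith
  have hx1 : 1 ≤ x := by linarith
  obtain ⟨P, hP⟩ : ∃ P : ℝ, P = Real.exp (-(12 * (l / 100))) := ⟨_, rfl⟩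
  have hP0 : 0 < P := by rw [hP]; exact Real.exp_pos _
  have hP1 : P ≤ 1 := by
    rw [hP]
    apply Real.exp_le_one_iff.mpr
    linarith
  have hPx2 : 1 / x ≤ P ^ 2 := by
    rw [← hexl, one_div, ← Real.exp_neg, hP, ← Real.exp_nat_mul]
    apply Real.exp_le_exp.mpr
    push_cast
    linarith
  have hPx : 1 / x ≤ P := by
    refine hPx2.trans ?_
    nlinarith only [hP0, hP1]
  obtain ⟨m, hm1, hm34, hmP⟩ := n3_m P x hP0 hP1 hx48 hPx2
  refine ⟨m, ?_⟩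
  intro Ic h hh10 hlogh hIc hIch C κ a p δ q1 q2 e hC hκ ha hp hδ he hq1 hq2
  rw [← hln] at hC
  have hpP : p = P := by rw [hp, hC, hP]
  rw [hpP] at hδ hq1 hq2 ⊢
  rw [hC] at hκ ha
  obtain ⟨H, hHh⟩ : ∃ H : ℝ, H = (h : ℝ) := ⟨_, rfl⟩
  obtain ⟨J, hJ⟩ : ∃ J : ℝ, J = (Ic : ℝ) := ⟨_, rfl⟩
  have hJ0 : 0 < J := by
    rw [hJ]
    exact_mod_cast hIc
  have hH10 : x ^ 10 ≤ 2 * H := by
    rw [hHh, hxn]
    exact_mod_cast hh10
  have hx10 : x ≤ x ^ 10 := by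
    calc x = x ^ 1 := (pow_one x).symm
      _ ≤ x ^ 10 := pow_le_pow_right₀ hx1 (by norm_num)
  have hH0 : 0 < H := by linarith
  have hJH : J * x ^ 3 ≤ H := by
    rw [hJ, hxn, hHh]
    exact_mod_cast hIch
  rw [← hHh, ← hxn] at ha hq1 hq2
  rw [← hxn] at he hκ
  have hHx : H ≤ Real.exp (x ^ 2) := by
    rw [← hHh, ← hxn] at hlogh
    exact (Real.log_le_iff_le_exp hH0).mp hlogh
  -- exponents
  have hA := n3_A l hl
  have hP4 : Real.exp (l / 25) ≤ P ^ 4 * x := by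
    rw [hP, ← hexl, ← Real.exp_nat_mul, ← Real.exp_add]
    apply Real.exp_le_exp.mpr
    push_cast
    linarith
  have hE2 : 10 * l ≤ (P * (P / 4)) ^ 2 * x * 10000 / (32 * l ^ 2) := by
    have h1 : (P * (P / 4)) ^ 2 * x * 10000 / (32 * l ^ 2) =
        (P ^ 4 * x) * 2500 / (128 * l ^ 2) := by
      field_simp
      ring
    rw [h1]
    refine hA.trans ?_
    apply div_le_div_of_nonneg_right _ (by positivity)
    exact mul_le_mul_of_nonneg_right hP4 (by norm_num)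
  have hE1 : 40 * l ≤ (P * (1 / 2)) ^ 2 * x * 10000 / (32 * l ^ 2) := by
    have h1 : P ^ 4 ≤ P ^ 2 := pow_le_pow_of_le_one hP0.le hP1 (by norm_num)
    have h2 : (P * (1 / 2)) ^ 2 * x * 10000 / (32 * l ^ 2)
        = 4 * (P ^ 2 * x * 2500 / (128 * l ^ 2)) := by
      field_simp
      ring
    have h3 : P ^ 4 * x * 2500 / (128 * l ^ 2) ≤ P ^ 2 * x * 2500 / (128 * l ^ 2) := by
      apply div_le_div_of_nonneg_right _ (by positivity)
      apply mul_le_mul_of_nonneg_right _ (by norm_num)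
      exact mul_le_mul_of_nonneg_right h1 hx0.le
    have h4 : Real.exp (l / 25) * 2500 / (128 * l ^ 2) ≤ P ^ 4 * x * 2500 / (128 * l ^ 2) := by
      apply div_le_div_of_nonneg_right _ (by positivity)
      exact mul_le_mul_of_nonneg_right hP4 (by norm_num)
    rw [h2]
    linarith
  have hq1e : q1 = Real.exp (-((P * (1 / 2)) ^ 2 * x * 10000 / (32 * l ^ 2))) := by
    rw [hq1, ha]
    rw [show P * (H / 2) = (P * (1 / 2)) * H by ring]
    rw [n3_exp1 x l H (P * (1 / 2)) hx0 hl0 hH0]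
  have hq2e : q2 = Real.exp (-((P * (P / 4)) ^ 2 * x * 10000 / (32 * l ^ 2))) := by
    rw [hq2, ha, hδ]
    rw [show P * (P / 4 * H) = (P * (P / 4)) * H by ring]
    rw [n3_exp1 x l H (P * (P / 4)) hx0 hl0 hH0]
  have hx40 : 1 / x ^ 40 = Real.exp (-((40 : ℕ) * l)) := by
    rw [← hexl, ← Real.exp_nat_mul, one_div, ← Real.exp_neg]
  have hq1le : q1 ≤ 1 / x ^ 40 := by
    rw [hq1e, hx40]
    apply Real.exp_le_exp.mpr
    push_cast
    linarith
  have hq1pos : 0 ≤ q1 := by rw [hq1e]; exact (Real.exp_pos _).le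
  have hq2le : q2 ≤ 1 / x ^ 10 := by
    rw [hq2e, ← hexl, ← Real.exp_nat_mul, one_div, ← Real.exp_neg]
    apply Real.exp_le_exp.mpr
    rw [hexl]
    push_cast
    linarith
  have hκ0 : 0 ≤ κ := by rw [hκ]; positivity
  have hκ2 : κ ≤ 1 / 2 := by
    rw [hκ, div_le_iff₀ hx0]
    linarith
  rw [← hHh, ← hJ, ← hxn]
  refine ⟨by rw [hC]; linarith, hκ0, by linarith, ?_, ?_, hP0, hP1, ?_, ?_, ?_, ?_, ?_⟩
  · rw [ha]; positivity
  · rw [ha, div_le_iff₀ hx0]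
    have h1 : 0 ≤ H * (x - l) := mul_nonneg hH0.le (by linarith)
    have h2 : 0 ≤ H * x := by positivity
    nlinarith only [h1, h2]
  · have h1 := n3_one_sub κ hκ0 hκ2
    calc P = (Real.exp (-(2 * κ))) ^ D := by
          rw [← Real.exp_nat_mul, hP, hκ, ← hxn]
          congr 1
          field_simp
          ring
      _ ≤ (1 - κ) ^ D := pow_le_pow_left₀ (Real.exp_pos _).le h1 D
  · -- x^4 ≤ δ H / 2
    rw [hδ]
    have h1 : 1 / x * x ^ 10 ≤ P * (2 * H) :=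
      mul_le_mul hPx hH10 (by positivity) hP0.le
    have h2 : 1 / x * x ^ 10 = x ^ 5 * x ^ 4 := by
      field_simp
    have h3 : (16 : ℝ) ≤ x ^ 5 := by
      calc (16 : ℝ) ≤ x := by linarith
        _ = x ^ 1 := (pow_one x).symm
        _ ≤ x ^ 5 := pow_le_pow_right₀ hx1 (by norm_num)
    have h4 : 16 * x ^ 4 ≤ x ^ 5 * x ^ 4 := mul_le_mul_of_nonneg_right h3 (by positivity)
    linarith
  · have h1 : ((D * (D * D ^ 3) : ℕ) : ℝ) = x ^ 5 := by
      rw [hxn]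
      push_cast
      ring
    rw [h1]
    calc 4 * q1 * x ^ 5 ≤ 4 * (1 / x ^ 40) * x ^ 5 := by
          apply mul_le_mul_of_nonneg_right _ (by positivity)
          linarith
      _ = 4 * x ^ 5 / x ^ 40 := by ring
      _ ≤ 1 := by
          rw [div_le_one (by positivity)]
          have h3 : (4 : ℝ) ≤ x ^ 35 := by
            calc (4 : ℝ) ≤ x := by linarith
              _ = x ^ 1 := (pow_one x).symm
              _ ≤ x ^ 35 := pow_le_pow_right₀ hx1 (by norm_num)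
          calc 4 * x ^ 5 ≤ x ^ 35 * x ^ 5 := mul_le_mul_of_nonneg_right h3 (by positivity)
            _ = x ^ 40 := by ring
  · have h1 : 1 / x ^ 10 ≤ P / 64 := by
      have h2 : 1 / x ^ 10 * 64 ≤ 1 / x := by
        rw [div_mul_eq_mul_div, div_le_div_iff₀ (by positivity) (by positivity)]
        have h3 : (64 : ℝ) ≤ x ^ 9 := by
          calc (64 : ℝ) ≤ x := by linarith
            _ = x ^ 1 := (pow_one x).symm
            _ ≤ x ^ 9 := pow_le_pow_right₀ hx1 (by norm_num)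
        calc 1 * 64 * x ≤ x ^ 9 * x := by
              rw [one_mul]
              exact mul_le_mul_of_nonneg_right h3 hx0.le
          _ = 1 * x ^ 10 := by ring
      linarith
    rw [hδ]
    linarith
  · have hPP : H ^ 2 / x ≤ (P * H) ^ 2 := by
      calc H ^ 2 / x = 1 / x * H ^ 2 := by ring
        _ ≤ P ^ 2 * H ^ 2 := mul_le_mul_of_nonneg_right hPx2 (by positivity)
        _ = (P * H) ^ 2 := by ring
    have hHx0 : 0 ≤ H ^ 2 / x := by positivity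
    have hEE1 := n3_E x H J ((P * H) ^ 2) 8 hx0 hH0 hJ0 hJH (by norm_num) (by linarith)
    have hEE2 := n3_E x H J ((P / 4 / 2 * H) ^ 2) 4 hx0 hH0 hJ0 hJH (by norm_num) (by
      have : (P / 4 / 2 * H) ^ 2 = (1 / 64) * (P * H) ^ 2 := by ring
      rw [this]
      linarith)
    have h1 := n3_fin x H q1 _ _ m h hHh.symm hx48 hH10 hHx hEE1 hEE2 hq1pos hq1le hm1 hm34
    rw [he, hδ, neg_div, neg_div]
    exact h1

/-- numeric lemma for `host_blocks`: C(L,t) ≤ L^t/t! and t! ≥ (t/e)^t; t > 6CL/D so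
(e L C/(D t))^t ≤ (e/6)^t ≤ (1/2)^t, t ≥ 6 C D^2 ≥ 6 D^2, and N*Ic ≤ N^2 ≤ exp(2 D^2) < 2^(6 D^2). -/
theorem numeric4 (D : ℕ) (hD : 2 ≤ D) (C : ℝ) (hC : 1 ≤ C) (N Ic : ℕ) (hN : 1 ≤ N)
    (hlog : Real.log N ≤ (D : ℝ) ^ 2) (hI : Ic ≤ N) (t : ℕ)
    (ht : t = ⌊6 * C / D * ((D ^ 3 : ℕ) : ℝ)⌋₊ + 1) :
      (N : ℝ) * (Ic : ℝ) * (((D ^ 3).choose t : ℕ) : ℝ) * (C / D) ^ t < 1 := by
  generalize hLdef : D ^ 3 = L at ht ⊢
  have hD1 : 1 ≤ D := by omega
  have hnpos : (0 : ℝ) < D := by exact_mod_cast (by omega : 0 < D)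
  have hLR : ((D : ℝ)) ^ 3 ≤ L := by
    rw [← hLdef]; push_cast; exact le_rfl
  have hLpos : (0 : ℝ) < L := lt_of_lt_of_le (by positivity) hLR
  set a : ℝ := L * (C / D) with ha
  have hapos : 0 < a := by positivity
  have hta : 6 * a < t := by
    have h1 := Nat.lt_floor_add_one (6 * C / D * (L : ℝ))
    rw [ht]
    push_cast
    have h2 : 6 * a = 6 * C / D * (L : ℝ) := by rw [ha]; ring
    rw [h2]
    exact h1
  have hafac : (D : ℝ) ^ 2 ≤ a := by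
    rw [ha, mul_div_assoc', le_div_iff₀ hnpos]
    nlinarith [mul_le_mul hLR hC (by norm_num) hLpos.le]
  have htn : 6 * D ^ 2 ≤ t := by
    have : (6 * (D : ℝ) ^ 2) ≤ t := by linarith
    exact_mod_cast this
  have hfpos : (0 : ℝ) < (t.factorial : ℝ) := by exact_mod_cast Nat.factorial_pos t
  have h1 : ((L.choose t : ℕ) : ℝ) * (C / D) ^ t ≤ a ^ t / t.factorial := by
    have h := Nat.choose_le_pow_div (α := ℝ) t L
    calc ((L.choose t : ℕ) : ℝ) * (C / D) ^ t ≤ ((L : ℝ) ^ t / t.factorial) * (C / D) ^ t :=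
          mul_le_mul_of_nonneg_right h (by positivity)
      _ = a ^ t / t.factorial := by rw [ha, mul_pow]; ring
  have h2 : a ^ t / t.factorial ≤ (1 / 2 : ℝ) ^ t := by
    have h3 : (6 * a) ^ t / t.factorial ≤ Real.exp t := by
      refine le_trans ?_ (Real.pow_div_factorial_le_exp (t : ℝ) (by positivity) t)
      gcongr
    have h4 : Real.exp t ≤ 3 ^ t := by
      rw [← Real.exp_one_pow]
      exact pow_le_pow_left₀ (Real.exp_pos 1).le (by linarith [Real.exp_one_lt_d9]) t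
    have h5 : a ^ t / t.factorial = (1 / 6 : ℝ) ^ t * ((6 * a) ^ t / t.factorial) := by
      rw [← mul_div_assoc, ← mul_pow]
      congr 2
      ring
    rw [h5]
    calc (1 / 6 : ℝ) ^ t * ((6 * a) ^ t / t.factorial) ≤ (1 / 6 : ℝ) ^ t * 3 ^ t :=
          mul_le_mul_of_nonneg_left (h3.trans h4) (by positivity)
      _ = (1 / 2 : ℝ) ^ t := by rw [← mul_pow]; norm_num
  have hNpos : (0 : ℝ) < N := by exact_mod_cast hN
  have hNexp : (N : ℝ) ≤ 3 ^ (D ^ 2) := by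
    calc (N : ℝ) = Real.exp (Real.log N) := (Real.exp_log hNpos).symm
      _ ≤ Real.exp ((D : ℝ) ^ 2) := Real.exp_le_exp.mpr hlog
      _ = Real.exp 1 ^ (D ^ 2) := by
          rw [Real.exp_one_pow]; push_cast; rfl
      _ ≤ 3 ^ (D ^ 2) :=
          pow_le_pow_left₀ (Real.exp_pos 1).le (by linarith [Real.exp_one_lt_d9]) _
  have h6 : (Ic : ℝ) ≤ 3 ^ (D ^ 2) := le_trans (by exact_mod_cast hI) hNexp
  have h7 : ((L.choose t : ℕ) : ℝ) * (C / D) ^ t ≤ (1 / 2 : ℝ) ^ t := h1.trans h2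
  have h8 : (1 / 2 : ℝ) ^ t ≤ (1 / 2 : ℝ) ^ (6 * D ^ 2) :=
    pow_le_pow_of_le_one (by norm_num) (by norm_num) htn
  have h9 : (0:ℝ) ≤ ((L.choose t : ℕ) : ℝ) * (C / D) ^ t := by positivity
  calc (N : ℝ) * (Ic : ℝ) * ((L.choose t : ℕ) : ℝ) * (C / D) ^ t
      = ((N : ℝ) * (Ic : ℝ)) * (((L.choose t : ℕ) : ℝ) * (C / D) ^ t) := by ring
    _ ≤ (3 ^ (D ^ 2) * 3 ^ (D ^ 2)) * (1 / 2 : ℝ) ^ (6 * D ^ 2) := by
        apply mul_le_mul
        · exact mul_le_mul hNexp h6 (by positivity) (by positivity)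
        · exact h7.trans h8
        · exact h9
        · positivity
    _ = (9 / 64 : ℝ) ^ (D ^ 2) := by
        rw [pow_mul, ← mul_pow, ← mul_pow]
        congr 1
        norm_num
    _ < 1 := by
        apply pow_lt_one₀ (by norm_num) (by norm_num)
        have : 0 < D ^ 2 := by positivity
        omega

end Pool.Agent.QCube
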