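import Mathlib
import Pool.Agent.QCube.Defs

set_option autoImplicit false

namespace Pool.Agent.QCube

open Finset

theorem n5_one_sub (y : ℝ) (h0 : 0 ≤ y) (h1 : y ≤ 1 / 2) : Real.exp (-(2 * y)) ≤ 1 - y := by
  have h2 : 2 * y + 1 ≤ Real.exp (2 * y) := Real.add_one_le_exp _
  have h3 : (2 * y + 1) * (1 - y) ≤ Real.exp (2 * y) * (1 - y) :=
    mul_le_mul_of_nonneg_right h2 (by linarith)
  have h4 : 0 ≤ y * (1 - 2 * y) := mul_nonneg h0 (by linarith)
  have h5 : 1 ≤ Real.exp (2 * y) * (1 - y) := by nlinarith only [h3, h4]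
  rw [Real.exp_neg, inv_le_iff_one_le_mul₀ (Real.exp_pos _)]
  linarith only [h5]

theorem n5_A (l : ℝ) (hl : 4800000 ≤ l) :
    10 * l ≤ Real.exp (l / 25) * 2500 / (128 * l ^ 2) := by
  have hl0 : 0 < l := by linarith
  have h1 : (l / 25) ^ 4 / (Nat.factorial 4 : ℝ) ≤ Real.exp (l / 25) :=
    Real.pow_div_factorial_le_exp _ (by positivity) 4
  have h2 : ((Nat.factorial 4 : ℕ) : ℝ) = 24 := by norm_num [Nat.factorial]
  rw [h2] at h1
  rw [le_div_iff₀ (by positivity)]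
  have h3 : (l / 25) ^ 4 / 24 * 2500 ≤ Real.exp (l / 25) * 2500 := by linarith
  refine le_trans ?_ h3
  have h4 : (l / 25) ^ 4 / 24 * 2500 = l ^ 3 * (l / 3750) := by ring
  have h5 : 10 * l * (128 * l ^ 2) = l ^ 3 * 1280 := by ring
  rw [h4, h5]
  apply mul_le_mul_of_nonneg_left _ (by positivity)
  linarith

theorem n5_exp1 (x l H p : ℝ) (hx : 0 < x) (hl : 0 < l) (hH : 0 < H) :
    -(p * H) ^ 2 / (8 * x * (2 * (l / 200) * H / x) ^ 2)
      = -(p ^ 2 * x * 10000 / (8 * l ^ 2)) := by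
  field_simp
  ring

theorem n5_E (x H Ic Num c : ℝ) (hx : 0 < x) (hH : 0 < H) (hIc : 0 < Ic)
    (hIH : Ic * x ^ 3 ≤ H) (hc : 0 < c) (hc64 : c * (1 / 256) * (H ^ 2 / x) ≤ Num) :
    H / (256 * x ^ 6) ≤ Num / (c * Ic * (x * x ^ 3) ^ 2) := by
  rw [le_div_iff₀ (by positivity)]
  have h1 : c * Ic * (x * x ^ 3) ^ 2 = c * x ^ 5 * (Ic * x ^ 3) := by ring
  rw [h1]
  calc H / (256 * x ^ 6) * (c * x ^ 5 * (Ic * x ^ 3)) ≤ H / (256 * x ^ 6) * (c * x ^ 5 * H) := by
        gcongr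
    _ = c * (1 / 256) * (H ^ 2 / x) := by
        field_simp
    _ ≤ Num := hc64

theorem n5_fin (x H q1 E1 E2 T : ℝ) (m h : ℕ) (hh : (h : ℝ) = H) (hx : 2400000 ≤ x)
    (hH10 : x ^ 10 ≤ 2 * H) (hHm2 : H ^ m ≤ Real.exp T)
    (hfin : 1 + T < H / (512 * x ^ 6))
    (hE1 : H / (256 * x ^ 6) ≤ E1) (hE2 : H / (256 * x ^ 6) ≤ E2)
    (hq0 : 0 ≤ q1) (hq1 : q1 ≤ 1 / x ^ 40)
    (hm1 : 1 ≤ m) :
    H * Real.exp (-E1) + H ^ m * Real.exp (-E2) < (1 - 2 * q1) ^ h := by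
  have hx0 : 0 < x := by linarith
  have hx1 : 1 ≤ x := by linarith
  have hx10 : x ≤ x ^ 10 := by
    calc x = x ^ 1 := (pow_one x).symm
      _ ≤ x ^ 10 := pow_le_pow_right₀ hx1 (by norm_num)
  have hH1 : 1 ≤ H := by linarith
  have hH0 : 0 < H := by linarith
  set B : ℝ := H / (256 * x ^ 6) with hB
  have hHm : H ≤ H ^ m := by
    calc H = H ^ 1 := (pow_one H).symm
      _ ≤ H ^ m := pow_le_pow_right₀ hH1 hm1
  have h1 : H * Real.exp (-E1) ≤ Real.exp T * Real.exp (-B) := by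
    apply mul_le_mul (hHm.trans hHm2) _ (Real.exp_pos _).le (Real.exp_pos _).le
    apply Real.exp_le_exp.mpr
    linarith
  have h2 : H ^ m * Real.exp (-E2) ≤ Real.exp T * Real.exp (-B) := by
    apply mul_le_mul hHm2 _ (Real.exp_pos _).le (Real.exp_pos _).le
    apply Real.exp_le_exp.mpr
    linarith
  have hx34 : (2048 : ℝ) ≤ x ^ 34 := by
    calc (2048 : ℝ) ≤ x := by linarith
      _ = x ^ 1 := (pow_one x).symm
      _ ≤ x ^ 34 := pow_le_pow_right₀ hx1 (by norm_num)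
  have hq4 : 4 * q1 * H ≤ H / (512 * x ^ 6) := by
    have h3 : 1 / x ^ 40 * 2048 ≤ 1 / x ^ 6 := by
      rw [div_mul_eq_mul_div, div_le_div_iff₀ (by positivity) (by positivity)]
      calc 1 * 2048 * x ^ 6 ≤ x ^ 34 * x ^ 6 := by
            rw [one_mul]
            exact mul_le_mul_of_nonneg_right hx34 (by positivity)
        _ = 1 * x ^ 40 := by ring
    have h4 : 4 * q1 ≤ 1 / x ^ 6 / 512 := by linarith
    calc 4 * q1 * H ≤ 1 / x ^ 6 / 512 * H := mul_le_mul_of_nonneg_right h4 hH0.le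
      _ = H / (512 * x ^ 6) := by field_simp
  have hq2 : 2 * q1 ≤ 1 / 2 := by
    have h3 : 1 / x ^ 40 ≤ 1 / 256 := by
      apply one_div_le_one_div_of_le (by norm_num)
      refine le_trans (by norm_num) (hx34.trans ?_)
      exact pow_le_pow_right₀ hx1 (by norm_num)
    linarith
  have hR : Real.exp (-(4 * q1 * H)) ≤ (1 - 2 * q1) ^ h := by
    have h3 := n5_one_sub (2 * q1) (by linarith) hq2
    calc Real.exp (-(4 * q1 * H)) = (Real.exp (-(2 * (2 * q1)))) ^ h := by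
          rw [← Real.exp_nat_mul, hh]
          congr 1
          ring
      _ ≤ (1 - 2 * q1) ^ h := pow_le_pow_left₀ (Real.exp_pos _).le h3 h
  have hB64 : B = 2 * (H / (512 * x ^ 6)) := by
    rw [hB]
    field_simp
    norm_num
  have h3 : (2 : ℝ) ≤ Real.exp 1 := by
    have := Real.add_one_le_exp (1 : ℝ)
    linarith
  calc H * Real.exp (-E1) + H ^ m * Real.exp (-E2)
      ≤ 2 * (Real.exp T * Real.exp (-B)) := by linarith
    _ ≤ Real.exp 1 * (Real.exp T * Real.exp (-B)) :=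
        mul_le_mul_of_nonneg_right h3 (by positivity)
    _ = Real.exp (1 + T - B) := by
        rw [← Real.exp_add, ← Real.exp_add]
        congr 1
        ring
    _ < Real.exp (-(4 * q1 * H)) := by
        apply Real.exp_lt_exp.mpr
        rw [hB64]
        linarith
    _ ≤ (1 - 2 * q1) ^ h := hR

/-- `log N ≤ 4 N / S^15` as soon as `S^20 ≤ N`. -/
theorem n5_log (S N : ℝ) (hS : 1 ≤ S) (hN : S ^ 20 ≤ N) : Real.log N * S ^ 15 ≤ 4 * N := by
  have hN1 : 1 ≤ N := (one_le_pow₀ hS).trans hN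
  have hN0 : 0 < N := by linarith
  obtain ⟨r, hr⟩ : ∃ r : ℝ, r = Real.sqrt (Real.sqrt N) := ⟨_, rfl⟩
  have hr0 : 0 < r := by rw [hr]; positivity
  have hr4 : r ^ 4 = N := by
    have h1 : r ^ 2 = Real.sqrt N := by rw [hr]; exact Real.sq_sqrt (Real.sqrt_nonneg _)
    calc r ^ 4 = (r ^ 2) ^ 2 := by ring
      _ = N := by rw [h1]; exact Real.sq_sqrt hN0.le
  have hrS : S ^ 5 ≤ r := by
    have h1 : (S ^ 5) ^ 4 ≤ r ^ 4 := by
      rw [hr4, ← pow_mul]
      exact hN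
    exact le_of_pow_le_pow_left₀ (by norm_num) hr0.le h1
  have hlog : Real.log N ≤ 4 * r := by
    rw [← hr4, Real.log_pow]
    have := Real.log_le_sub_one_of_pos hr0
    push_cast
    linarith
  have hS15 : S ^ 15 ≤ r ^ 3 := by
    calc S ^ 15 = (S ^ 5) ^ 3 := by ring
      _ ≤ r ^ 3 := pow_le_pow_left₀ (by positivity) hrS 3
  calc Real.log N * S ^ 15 ≤ 4 * r * S ^ 15 := mul_le_mul_of_nonneg_right hlog (by positivity)
    _ ≤ 4 * r * r ^ 3 := mul_le_mul_of_nonneg_left hS15 (by positivity)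
    _ = 4 * N := by rw [← hr4]; ring

theorem n5_m (P x : ℝ) (hP0 : 0 < P) (hP1 : P ≤ 1) (hx : 4800000 ≤ x) (hPx : 1 / x ≤ P ^ 2) :
    ∃ m : ℕ, 1 ≤ m ∧ (m : ℝ) ≤ 258 * x ∧ (1 - P / 4) ^ m ≤ P / 64 := by
  have hx0 : 0 < x := by linarith
  have hx1 : 1 ≤ x := by linarith
  have hPi : 1 / P ^ 2 ≤ x := by
    rw [div_le_iff₀ (by positivity)]
    rw [div_le_iff₀ hx0] at hPx
    linarith
  refine ⟨⌈4 / P * Real.log (64 / P)⌉₊ + 1, by omega, ?_, ?_⟩
  · have h1 : 0 ≤ Real.log (64 / P) := by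
      apply Real.log_nonneg
      rw [le_div_iff₀ hP0]
      linarith
    have h2 : Real.log (64 / P) ≤ 64 / P := by
      have h3 := Real.log_le_sub_one_of_pos (by positivity : 0 < 64 / P)
      linarith
    have h6 : 4 / P * Real.log (64 / P) ≤ 4 / P * (64 / P) :=
      mul_le_mul_of_nonneg_left h2 (by positivity)
    have h6' : 4 / P * (64 / P) = 256 * (1 / P ^ 2) := by
      field_simp
      norm_num
    have h7 := Nat.ceil_lt_add_one (mul_nonneg (by positivity : 0 ≤ 4 / P) h1)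
    push_cast
    linarith
  · have h1 : 4 / P * Real.log (64 / P) ≤ (⌈4 / P * Real.log (64 / P)⌉₊ : ℝ) := Nat.le_ceil _
    have h2 : 1 - P / 4 ≤ Real.exp (-(P / 4)) := by
      have := Real.add_one_le_exp (-(P / 4))
      linarith
    calc (1 - P / 4) ^ (⌈4 / P * Real.log (64 / P)⌉₊ + 1)
        ≤ (Real.exp (-(P / 4))) ^ (⌈4 / P * Real.log (64 / P)⌉₊ + 1) :=
          pow_le_pow_left₀ (by linarith) h2 _
      _ = Real.exp (((⌈4 / P * Real.log (64 / P)⌉₊ + 1 : ℕ) : ℝ) * (-(P / 4))) := by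
          rw [← Real.exp_nat_mul]
      _ ≤ Real.exp (-Real.log (64 / P)) := by
          apply Real.exp_le_exp.mpr
          push_cast
          have h3 : Real.log (64 / P) = (4 / P * Real.log (64 / P)) * (P / 4) := by
            field_simp
          have h4 := mul_le_mul_of_nonneg_right h1 (by positivity : 0 ≤ P / 4)
          rw [← h3] at h4
          linarith
      _ = P / 64 := by
          rw [Real.exp_neg, Real.exp_log (by positivity)]
          rw [inv_div]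

/-- numeric lemma: C = log D / 200, p = exp(-24C) = D^(-12/100), δ = p/4,
m = ⌈(4/p) * log (8/δ)⌉ (so (1-p/4)^m ≤ exp(-pm/4) ≤ δ/8).  Variant of jobs 34427, 34787.
Simplifications: a = 2Ch/D so (p h/2)^2/(8 D a^2) = p^2 D/(128 C^2) and
(p δ h/2)^2/(8 D a^2) = p^4 D/(2048 C^2) = D^(52/100)*4*10^4/(2048 (log D)^2) → ∞; with Ic*D^3 ≤ h and
e = D*D^3: (p h/2)^2/(8 Ic e^2) ≥ p^2 h/(32 D^5) and (δ h)^2/(4 Ic e^2) ≥ δ^2 h/(4 D^5);
h ≥ N/2 ≥ D^10/2 (so h/D^5 ≥ sqrt(h)/2, which beats m * log h * poly for large D as m ≤ D).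
(1-2q1)^h ≥ exp(-4 q1 h) as 4q1 ≤ 1 and q1*D^10 → 0. 1-12C/D ≥ exp(-24C/D) as 12C/D ≤ 1/2. -/
theorem numeric5 : ∃ D0 : ℕ, ∀ D : ℕ, D0 ≤ D → ∃ m : ℕ, ∀ Ic h N : ℕ, D ^ 10 ≤ N → N ≤ 2 * h →
      h ≤ N → 0 < Ic → Ic * D ^ 3 ≤ h →
      ∀ C κ a p δ q1 q2 e : ℝ, C = Real.log D / 200 → κ = 12 * C / D →
      a = 2 * C * h / D → p = Real.exp (-(24 * C)) → δ = p / 4 → e = (D : ℝ) * (D : ℝ) ^ 3 →
      q1 = Real.exp (-(p * ((h : ℝ) / 2)) ^ 2 / (8 * D * a ^ 2)) →
      q2 = Real.exp (-(p * (δ * (h : ℝ) / 2)) ^ 2 / (8 * D * a ^ 2)) →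
      (1 ≤ C ∧ 0 ≤ κ ∧ κ ≤ 1 ∧ 0 < a ∧ 0 < p ∧ p ≤ 1 ∧ p ≤ (1 - κ) ^ D ∧
       a + (D : ℝ) * (2 * (1 / (D : ℝ) ^ 3) * N) ≤ δ * (h : ℝ) / 2 ∧
       (D : ℝ) ^ 4 + (Real.log N + 4 * (1 / (D : ℝ) ^ 3) * (Ic : ℝ)) * e ≤ (h : ℝ) / 2 ∧
       4 * q1 * ((D * (D * D ^ 3) : ℕ) : ℝ) ≤ 1 ∧
       q2 + (1 - p / 4) ^ m ≤ δ / 4 ∧
       (h : ℝ) * Real.exp (-(p * ((h : ℝ) / 2)) ^ 2 / (8 * (Ic : ℝ) * e ^ 2)) +
        (h : ℝ) ^ m * Real.exp (-(δ * (h : ℝ)) ^ 2 / (4 * (Ic : ℝ) * e ^ 2)) <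
        (1 - 2 * q1) ^ h) := by
  refine ⟨⌈Real.exp 4800000⌉₊, ?_⟩
  intro D hD
  have hx : Real.exp 4800000 ≤ (D : ℝ) := Nat.ceil_le.mp hD
  have hxpos : (0 : ℝ) < D := (Real.exp_pos _).trans_le hx
  obtain ⟨x, hxn⟩ : ∃ x : ℝ, x = (D : ℝ) := ⟨_, rfl⟩
  obtain ⟨l, hln⟩ : ∃ l : ℝ, l = Real.log (D : ℝ) := ⟨_, rfl⟩
  have hx0 : 0 < x := by rw [hxn]; exact hxpos
  have hl : 4800000 ≤ l := by rw [hln]; exact (Real.le_log_iff_exp_le hxpos).mpr hx
  have hl0 : 0 < l := by linarith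
  have hexl : Real.exp l = x := by rw [hln, hxn]; exact Real.exp_log hxpos
  have hlx : l ≤ x := by
    have := Real.add_one_le_exp l
    linarith
  have hx48 : 4800000 ≤ x := by linarith
  have hx1 : 1 ≤ x := by linarith
  obtain ⟨S, hS⟩ : ∃ S : ℝ, S = Real.exp (l / 2) := ⟨_, rfl⟩
  have hS0 : 0 < S := by rw [hS]; exact Real.exp_pos _
  have hS2 : S ^ 2 = x := by
    rw [hS, ← Real.exp_nat_mul, ← hexl]
    congr 1
    push_cast
    ring
  have hSl : l / 2 + 1 ≤ S := by rw [hS]; exact Real.add_one_le_exp _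
  have hS24 : 2400000 ≤ S := by linarith
  have hS1 : 1 ≤ S := by linarith
  obtain ⟨P, hP⟩ : ∃ P : ℝ, P = Real.exp (-(12 * (l / 100))) := ⟨_, rfl⟩
  have hP0 : 0 < P := by rw [hP]; exact Real.exp_pos _
  have hP1 : P ≤ 1 := by
    rw [hP]
    apply Real.exp_le_one_iff.mpr
    linarith
  have hPx2 : 1 / x ≤ P ^ 2 := by
    rw [← hexl, one_div, ← Real.exp_neg, hP, ← Real.exp_nat_mul]
    apply Real.exp_le_exp.mpr
    push_cast
    linarith
  have hPS : 1 / S ≤ P := by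
    rw [hS, one_div, ← Real.exp_neg, hP]
    apply Real.exp_le_exp.mpr
    linarith
  have hPx : 1 / x ≤ P := by
    refine hPx2.trans ?_
    nlinarith only [hP0, hP1]
  obtain ⟨m, hm1, hm34, hmP⟩ := n5_m P x hP0 hP1 hx48 hPx2
  refine ⟨m, ?_⟩
  intro Ic h N hN10 hN2 hhN hIc hIch C κ a p δ q1 q2 e hC hκ ha hp hδ he hq1 hq2
  rw [← hln] at hC
  have hpP : p = P := by
    rw [hp, hC, hP]
    congr 1
    ring
  rw [hpP] at hδ hq1 hq2 ⊢
  rw [hC] at hκ ha
  obtain ⟨H, hHh⟩ : ∃ H : ℝ, H = (h : ℝ) := ⟨_, rfl⟩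
  obtain ⟨J, hJ⟩ : ∃ J : ℝ, J = (Ic : ℝ) := ⟨_, rfl⟩
  obtain ⟨M, hM⟩ : ∃ M : ℝ, M = (N : ℝ) := ⟨_, rfl⟩
  have hJ0 : 0 < J := by
    rw [hJ]
    exact_mod_cast hIc
  have hM10 : x ^ 10 ≤ M := by
    rw [hM, hxn]
    exact_mod_cast hN10
  have hM2 : M ≤ 2 * H := by
    rw [hM, hHh]
    exact_mod_cast hN2
  have hHM : H ≤ M := by
    rw [hM, hHh]
    exact_mod_cast hhN
  have hH10 : x ^ 10 ≤ 2 * H := hM10.trans hM2
  have hx10 : x ≤ x ^ 10 := by
    calc x = x ^ 1 := (pow_one x).symm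
      _ ≤ x ^ 10 := pow_le_pow_right₀ hx1 (by norm_num)
  have hH0 : 0 < H := by linarith
  have hM0 : 0 < M := by linarith
  have hJH : J * x ^ 3 ≤ H := by
    rw [hJ, hxn, hHh]
    exact_mod_cast hIch
  rw [← hHh, ← hxn] at ha hq1 hq2
  rw [← hxn] at he hκ
  have hM20 : S ^ 20 ≤ M := by
    calc S ^ 20 = (S ^ 2) ^ 10 := by ring
      _ ≤ M := by rw [hS2]; exact hM10
  have hlogM := n5_log S M hS1 hM20
  have hlogH : Real.log H ≤ Real.log M := Real.log_le_log hH0 hHM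
  -- exponents
  have hA := n5_A l hl
  have hP4 : Real.exp (l / 25) ≤ P ^ 4 * x := by
    rw [hP, ← hexl, ← Real.exp_nat_mul, ← Real.exp_add]
    apply Real.exp_le_exp.mpr
    push_cast
    linarith
  have hE2 : 10 * l ≤ (P * (P / 4 / 2)) ^ 2 * x * 10000 / (8 * l ^ 2) := by
    have h1 : (P * (P / 4 / 2)) ^ 2 * x * 10000 / (8 * l ^ 2) =
        (P ^ 4 * x) * 2500 / (128 * l ^ 2) := by
      field_simp
      ring
    rw [h1]
    refine hA.trans ?_
    apply div_le_div_of_nonneg_right _ (by positivity)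
    exact mul_le_mul_of_nonneg_right hP4 (by norm_num)
  have hE1 : 40 * l ≤ (P * (1 / 2)) ^ 2 * x * 10000 / (8 * l ^ 2) := by
    have h1 : P ^ 4 ≤ P ^ 2 := pow_le_pow_of_le_one hP0.le hP1 (by norm_num)
    have h2 : (P * (1 / 2)) ^ 2 * x * 10000 / (8 * l ^ 2)
        = 16 * (P ^ 2 * x * 2500 / (128 * l ^ 2)) := by
      field_simp
      ring
    have h3 : P ^ 4 * x * 2500 / (128 * l ^ 2) ≤ P ^ 2 * x * 2500 / (128 * l ^ 2) := by
      apply div_le_div_of_nonneg_right _ (by positivity)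
      apply mul_le_mul_of_nonneg_right _ (by norm_num)
      exact mul_le_mul_of_nonneg_right h1 hx0.le
    have h4 : Real.exp (l / 25) * 2500 / (128 * l ^ 2) ≤ P ^ 4 * x * 2500 / (128 * l ^ 2) := by
      apply div_le_div_of_nonneg_right _ (by positivity)
      exact mul_le_mul_of_nonneg_right hP4 (by norm_num)
    rw [h2]
    linarith
  have hq1e : q1 = Real.exp (-((P * (1 / 2)) ^ 2 * x * 10000 / (8 * l ^ 2))) := by
    rw [hq1, ha]
    rw [show P * (H / 2) = (P * (1 / 2)) * H by ring]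
    rw [n5_exp1 x l H (P * (1 / 2)) hx0 hl0 hH0]
  have hq2e : q2 = Real.exp (-((P * (P / 4 / 2)) ^ 2 * x * 10000 / (8 * l ^ 2))) := by
    rw [hq2, ha, hδ]
    rw [show P * (P / 4 * H / 2) = (P * (P / 4 / 2)) * H by ring]
    rw [n5_exp1 x l H (P * (P / 4 / 2)) hx0 hl0 hH0]
  have hx40 : 1 / x ^ 40 = Real.exp (-((40 : ℕ) * l)) := by
    rw [← hexl, ← Real.exp_nat_mul, one_div, ← Real.exp_neg]
  have hq1le : q1 ≤ 1 / x ^ 40 := by
    rw [hq1e, hx40]
    apply Real.exp_le_exp.mpr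
    push_cast
    linarith
  have hq1pos : 0 ≤ q1 := by rw [hq1e]; exact (Real.exp_pos _).le
  have hq2le : q2 ≤ 1 / x ^ 10 := by
    rw [hq2e, ← hexl, ← Real.exp_nat_mul, one_div, ← Real.exp_neg]
    apply Real.exp_le_exp.mpr
    rw [hexl]
    push_cast
    linarith
  have hκ0 : 0 ≤ κ := by rw [hκ]; positivity
  have hκ2 : κ ≤ 1 / 2 := by
    rw [hκ, div_le_iff₀ hx0]
    linarith
  rw [← hHh, ← hJ, ← hxn, ← hM]
  refine ⟨by rw [hC]; linarith, hκ0, by linarith, ?_, hP0, hP1, ?_, ?_, ?_, ?_, ?_, ?_⟩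
  · rw [ha]; positivity
  · have h1 := n5_one_sub κ hκ0 hκ2
    calc P = (Real.exp (-(2 * κ))) ^ D := by
          rw [← Real.exp_nat_mul, hP, hκ, ← hxn]
          congr 1
          field_simp
          ring
      _ ≤ (1 - κ) ^ D := pow_le_pow_left₀ (Real.exp_pos _).le h1 D
  · -- a + x (2 / x^3) M ≤ δ H / 2
    have h1 : x * (2 * (1 / x ^ 3) * M) = 2 * M / x ^ 2 := by
      field_simp
    have h2 : 2 * M / x ^ 2 ≤ 4 * H / x ^ 2 := by
      apply div_le_div_of_nonneg_right _ (by positivity)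
      linarith
    have h3 : a = l / 100 * H / x := by
      rw [ha]
      ring
    have h4 : l / 100 * H / x ≤ H / (16 * S) := by
      rw [div_le_div_iff₀ hx0 (by positivity), ← hS2]
      have : l * 16 / 100 ≤ S := by linarith
      calc l / 100 * H * (16 * S) = H * S * (l * 16 / 100) := by ring
        _ ≤ H * S * S := mul_le_mul_of_nonneg_left this (by positivity)
        _ = H * S ^ 2 := by ring
    have h5 : 4 * H / x ^ 2 ≤ H / (16 * S) := by
      rw [div_le_div_iff₀ (by positivity) (by positivity), ← hS2]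
      have : (64 : ℝ) ≤ S ^ 3 := by
        calc (64 : ℝ) ≤ S := by linarith
          _ = S ^ 1 := (pow_one S).symm
          _ ≤ S ^ 3 := pow_le_pow_right₀ hS1 (by norm_num)
      calc 4 * H * (16 * S) = H * S * 64 := by ring
        _ ≤ H * S * S ^ 3 := mul_le_mul_of_nonneg_left this (by positivity)
        _ = H * (S ^ 2) ^ 2 := by ring
    have h6 : H / (16 * S) + H / (16 * S) ≤ P / 4 * H / 2 := by
      have h7 : H / (16 * S) + H / (16 * S) = 1 / S * (H / 8) := by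
        field_simp
        norm_num
      have h8 : 1 / S * (H / 8) ≤ P * (H / 8) := mul_le_mul_of_nonneg_right hPS (by positivity)
      rw [h7]
      linarith
    rw [h1, hδ, h3]
    linarith
  · -- x^4 + (log M + 4 J / x^3) e ≤ H/2
    rw [he]
    have h1 : (Real.log M + 4 * (1 / x ^ 3) * J) * (x * x ^ 3) = Real.log M * x ^ 4 + 4 * J * x := by
      field_simp
    rw [h1]
    have h2 : 4 * J * x ≤ H / 16 := by
      have h3 : 64 * x ≤ x ^ 3 := by
        have : (64 : ℝ) ≤ x ^ 2 := by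
          calc (64 : ℝ) ≤ x := by linarith
            _ = x ^ 1 := (pow_one x).symm
            _ ≤ x ^ 2 := pow_le_pow_right₀ hx1 (by norm_num)
        calc 64 * x ≤ x ^ 2 * x := mul_le_mul_of_nonneg_right this hx0.le
          _ = x ^ 3 := by ring
      have h4 : J * (64 * x) ≤ J * x ^ 3 := mul_le_mul_of_nonneg_left h3 hJ0.le
      linarith
    have h3 : Real.log M * x ^ 4 ≤ H / 16 := by
      have h5 : Real.log M * x ^ 4 * S ^ 7 ≤ 8 * H := by
        calc Real.log M * x ^ 4 * S ^ 7 = Real.log M * S ^ 15 := by rw [← hS2]; ring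
          _ ≤ 4 * M := hlogM
          _ ≤ 8 * H := by linarith
      have h6 : (128 : ℝ) ≤ S ^ 7 := by
        calc (128 : ℝ) ≤ S := by linarith
          _ = S ^ 1 := (pow_one S).symm
          _ ≤ S ^ 7 := pow_le_pow_right₀ hS1 (by norm_num)
      have h7 : 0 ≤ Real.log M := Real.log_nonneg (by linarith)
      have h8 : Real.log M * x ^ 4 * 128 ≤ Real.log M * x ^ 4 * S ^ 7 :=
        mul_le_mul_of_nonneg_left h6 (by positivity)
      linarith
    have h4 : x ^ 4 ≤ H / 16 := by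
      have h5 : (32 : ℝ) ≤ x ^ 6 := by
        calc (32 : ℝ) ≤ x := by linarith
          _ = x ^ 1 := (pow_one x).symm
          _ ≤ x ^ 6 := pow_le_pow_right₀ hx1 (by norm_num)
      have h6 : 32 * x ^ 4 ≤ x ^ 6 * x ^ 4 := mul_le_mul_of_nonneg_right h5 (by positivity)
      have h7 : x ^ 6 * x ^ 4 = x ^ 10 := by ring
      linarith
    linarith
  · have h1 : ((D * (D * D ^ 3) : ℕ) : ℝ) = x ^ 5 := by
      rw [hxn]
      push_cast
      ring
    rw [h1]
    calc 4 * q1 * x ^ 5 ≤ 4 * (1 / x ^ 40) * x ^ 5 := by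
          apply mul_le_mul_of_nonneg_right _ (by positivity)
          linarith
      _ = 4 * x ^ 5 / x ^ 40 := by ring
      _ ≤ 1 := by
          rw [div_le_one (by positivity)]
          have h3 : (4 : ℝ) ≤ x ^ 35 := by
            calc (4 : ℝ) ≤ x := by linarith
              _ = x ^ 1 := (pow_one x).symm
              _ ≤ x ^ 35 := pow_le_pow_right₀ hx1 (by norm_num)
          calc 4 * x ^ 5 ≤ x ^ 35 * x ^ 5 := mul_le_mul_of_nonneg_right h3 (by positivity)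
            _ = x ^ 40 := by ring
  · have h1 : 1 / x ^ 10 ≤ P / 64 := by
      have h2 : 1 / x ^ 10 * 64 ≤ 1 / x := by
        rw [div_mul_eq_mul_div, div_le_div_iff₀ (by positivity) (by positivity)]
        have h3 : (64 : ℝ) ≤ x ^ 9 := by
          calc (64 : ℝ) ≤ x := by linarith
            _ = x ^ 1 := (pow_one x).symm
            _ ≤ x ^ 9 := pow_le_pow_right₀ hx1 (by norm_num)
        calc 1 * 64 * x ≤ x ^ 9 * x := by
              rw [one_mul]
              exact mul_le_mul_of_nonneg_right h3 hx0.le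
          _ = 1 * x ^ 10 := by ring
      linarith
    rw [hδ]
    linarith
  · have hPP : H ^ 2 / x ≤ (P * H) ^ 2 := by
      calc H ^ 2 / x = 1 / x * H ^ 2 := by ring
        _ ≤ P ^ 2 * H ^ 2 := mul_le_mul_of_nonneg_right hPx2 (by positivity)
        _ = (P * H) ^ 2 := by ring
    have hHx0 : 0 ≤ H ^ 2 / x := by positivity
    have hEE1 := n5_E x H J ((P * (H / 2)) ^ 2) 8 hx0 hH0 hJ0 hJH (by norm_num) (by
      have : (P * (H / 2)) ^ 2 = (1 / 4) * (P * H) ^ 2 := by ring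
      rw [this]
      linarith)
    have hEE2 := n5_E x H J ((P / 4 * H) ^ 2) 4 hx0 hH0 hJ0 hJH (by norm_num) (by
      have : (P / 4 * H) ^ 2 = (1 / 16) * (P * H) ^ 2 := by ring
      rw [this]
      linarith)
    have hT : H ^ m ≤ Real.exp ((m : ℝ) * Real.log H) := by
      rw [Real.exp_nat_mul, Real.exp_log hH0]
    have hfin : 1 + (m : ℝ) * Real.log H < H / (512 * x ^ 6) := by
      rw [lt_div_iff₀ (by positivity)]
      have hlM0 : 0 ≤ Real.log M := Real.log_nonneg (by linarith)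
      have h3 : (m : ℝ) * Real.log H ≤ 258 * x * Real.log M := by
        calc (m : ℝ) * Real.log H ≤ (m : ℝ) * Real.log M :=
              mul_le_mul_of_nonneg_left hlogH (Nat.cast_nonneg m)
          _ ≤ 258 * x * Real.log M := mul_le_mul_of_nonneg_right hm34 hlM0
      have h4 : (m : ℝ) * Real.log H * (x ^ 6 * S) ≤ 2064 * H := by
        calc (m : ℝ) * Real.log H * (x ^ 6 * S) ≤ 258 * x * Real.log M * (x ^ 6 * S) :=
              mul_le_mul_of_nonneg_right h3 (by positivity)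
          _ = 258 * (Real.log M * S ^ 15) := by rw [← hS2]; ring
          _ ≤ 258 * (4 * M) := mul_le_mul_of_nonneg_left hlogM (by norm_num)
          _ ≤ 2064 * H := by linarith
      have h5 : x ^ 6 * S ≤ H := by
        have h6 : 2 * (x ^ 6 * S) ≤ x ^ 10 := by
          have h7 : (2 : ℝ) ≤ S ^ 7 := by
            calc (2 : ℝ) ≤ S := by linarith
              _ = S ^ 1 := (pow_one S).symm
              _ ≤ S ^ 7 := pow_le_pow_right₀ hS1 (by norm_num)
          calc 2 * (x ^ 6 * S) ≤ S ^ 7 * (x ^ 6 * S) := mul_le_mul_of_nonneg_right h7 (by positivity)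
            _ = x ^ 10 := by rw [← hS2]; ring
        linarith
      have h6 : (1 + (m : ℝ) * Real.log H) * (512 * x ^ 6) * S ≤ 1057280 * H := by
        calc (1 + (m : ℝ) * Real.log H) * (512 * x ^ 6) * S
            = 512 * (x ^ 6 * S) + 512 * ((m : ℝ) * Real.log H * (x ^ 6 * S)) := by ring
          _ ≤ 1057280 * H := by linarith
      have h7 : 1057280 * H < H * S := by
        have := mul_lt_mul_of_pos_left (by linarith : (1057280 : ℝ) < S) hH0
        linarith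
      exact lt_of_mul_lt_mul_right (h6.trans_lt h7) hS0.le
    have h1 := n5_fin x H q1 _ _ _ m h hHh.symm (by linarith) hH10 hT hfin hEE1 hEE2 hq1pos hq1le hm1
    rw [he, hδ, neg_div, neg_div]
    exact h1

/-- C(L,t) ≤ L^t/t! and t! ≥ (t/e)^t; t > 12CL/D so (2 e L C/(D t))^t ≤ (e/6)^t ≤ (1/2)^t,
t ≥ 12 C D^2 ≥ 12 D^2, and 2^(-12 D^2) ≤ 1/D^3.  Variant of jobs 34428, 34788. -/
theorem numeric6 (D : ℕ) (hD : 2 ≤ D) (C : ℝ) (hC : 1 ≤ C) (t : ℕ)
    (ht : t = ⌊12 * C / D * ((D ^ 3 : ℕ) : ℝ)⌋₊ + 1) :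
      (((D ^ 3).choose t : ℕ) : ℝ) * (2 * (C / D)) ^ t ≤ 1 / (D : ℝ) ^ 3 := by
  generalize hLdef : D ^ 3 = L at ht ⊢
  have hD1 : 1 ≤ D := by omega
  have hnpos : (0 : ℝ) < D := by exact_mod_cast (by omega : 0 < D)
  have hLR : ((D : ℝ)) ^ 3 ≤ L := by
    rw [← hLdef]; push_cast; exact le_rfl
  have hLpos : (0 : ℝ) < L := lt_of_lt_of_le (by positivity) hLR
  set a : ℝ := L * (C / D) with ha
  have hapos : 0 < a := by positivity
  have hta : 12 * a < t := by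
    have h1 := Nat.lt_floor_add_one (12 * C / D * (L : ℝ))
    rw [ht]
    push_cast
    have h2 : 12 * a = 12 * C / D * (L : ℝ) := by rw [ha]; ring
    rw [h2]
    exact h1
  have hafac : (D : ℝ) ^ 2 ≤ a := by
    rw [ha, mul_div_assoc', le_div_iff₀ hnpos]
    nlinarith [mul_le_mul hLR hC (by norm_num) hLpos.le]
  have htn : 12 * D ^ 2 ≤ t := by
    have : (12 * (D : ℝ) ^ 2) ≤ t := by linarith
    exact_mod_cast this
  have hfpos : (0 : ℝ) < (t.factorial : ℝ) := by exact_mod_cast Nat.factorial_pos t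
  have h1 : ((L.choose t : ℕ) : ℝ) * (2 * (C / D)) ^ t ≤ (2 * a) ^ t / t.factorial := by
    have h := Nat.choose_le_pow_div (α := ℝ) t L
    calc ((L.choose t : ℕ) : ℝ) * (2 * (C / D)) ^ t
        ≤ ((L : ℝ) ^ t / t.factorial) * (2 * (C / D)) ^ t :=
          mul_le_mul_of_nonneg_right h (by positivity)
      _ = (2 * a) ^ t / t.factorial := by
          rw [ha, div_mul_eq_mul_div, ← mul_pow]
          congr 2
          ring
  have h2 : (2 * a) ^ t / t.factorial ≤ (1 / 2 : ℝ) ^ t := by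
    have h3 : (12 * a) ^ t / t.factorial ≤ Real.exp t := by
      refine le_trans ?_ (Real.pow_div_factorial_le_exp (t : ℝ) (by positivity) t)
      gcongr
    have h4 : Real.exp t ≤ 3 ^ t := by
      rw [← Real.exp_one_pow]
      exact pow_le_pow_left₀ (Real.exp_pos 1).le (by linarith [Real.exp_one_lt_d9]) t
    have h5 : (2 * a) ^ t / t.factorial = (1 / 6 : ℝ) ^ t * ((12 * a) ^ t / t.factorial) := by
      rw [← mul_div_assoc, ← mul_pow]
      congr 2
      ring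
    rw [h5]
    calc (1 / 6 : ℝ) ^ t * ((12 * a) ^ t / t.factorial) ≤ (1 / 6 : ℝ) ^ t * 3 ^ t :=
          mul_le_mul_of_nonneg_left (h3.trans h4) (by positivity)
      _ = (1 / 2 : ℝ) ^ t := by rw [← mul_pow]; norm_num
  have h8 : (1 / 2 : ℝ) ^ t ≤ (1 / 2 : ℝ) ^ (12 * D ^ 2) :=
    pow_le_pow_of_le_one (by norm_num) (by norm_num) htn
  have h10 : (D : ℝ) ^ 3 ≤ 2 ^ (12 * D ^ 2) := by
    have e1 : D ≤ 2 ^ D := (Nat.lt_two_pow_self).le
    have e2 : D ^ 3 ≤ (2 ^ D) ^ 3 := Nat.pow_le_pow_left e1 3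
    have e3 : (2 ^ D) ^ 3 ≤ 2 ^ (12 * D ^ 2) := by
      rw [← pow_mul]
      apply Nat.pow_le_pow_right (by norm_num)
      nlinarith
    exact_mod_cast e2.trans e3
  have h11 : (1 / 2 : ℝ) ^ (12 * D ^ 2) ≤ 1 / (D : ℝ) ^ 3 := by
    rw [one_div_pow]
    exact one_div_le_one_div_of_le (by positivity) h10
  exact (h1.trans h2).trans (h8.trans h11)

end Pool.Agent.QCube
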