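import Mathlib
import Pool.Agent.QCube.Core2
import Pool.Agent.QCube.Num2
import Pool.Agent.QCube.Guest
import Pool.Agent.QCube.Cube

set_option autoImplicit false

namespace Pool.Agent.QCube

open Finset

open Classical in
/-- final assembly (everything above may be used without proof).
`c` from `rebalance`; O = {v // c v = true} (card h, N ≤ 2h), A = {v // c v = false}
(card nA = N - h ≥ N/(8D)); X = ZMod (D^3) (card L = D^3); k = nA / L, r = nA % L;
conf x y := ∃ w, G1.Adj w x ∧ G1.Adj w y on A, each x has ≤ D*D conflicts; `guest_blocks` (d = D*D;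
4(D^2+1)(D^3+1) ≤ k for large D) gives U, e; I = Fin k.  Γ v = G2.neighborFinset v, γ = C/D with
C = log D/100; `host_blocks` with t = ⌊6C/D*D^3⌋+1 (`numeric4`) gives ψ.  The complement of range ψ
has h + r vertices; choose an injection xU : U → complement and R = complement minus image (card h).
P w = e-images of the vertices of A \ U adjacent to w; H v = {y | ψ y ∈ Γ v};
F w = {v ∈ R | ∃ u ∈ U, G1.Adj w u ∧ G2.Adj v (xU u)} (|F w| ≤ a = 2Ch/D as at most one such u by
conflict-freeness of U; F w nonempty for ≤ |U|*D ≤ D^4 =: f vertices w).  `core2` (n := D,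
numeric facts from `numeric3`) gives s, φ.  σ: x ∈ A \ U ↦ ψ ((e x).1, (e x).2 + s (e x).1),
u ∈ U ↦ xU u, w ∈ O ↦ φ w; injective on Fin N hence a permutation. -/
theorem pack_bip : ∃ D0 : ℕ, ∀ D : ℕ, D0 ≤ D → ∀ N : ℕ, D ^ 10 ≤ N →
      Real.log N ≤ (D : ℝ) ^ 2 → ∀ G1 G2 : SimpleGraph (Fin N), G1.Colorable 2 →
      (∀ v, G1.degree v ≤ D) →
      (∀ v, ((G2.degree v : ℕ) : ℝ) ≤ Real.log D / (100 * D) * N) →
      ∃ σ : Equiv.Perm (Fin N), ∀ u v, G1.Adj u v → ¬ G2.Adj (σ u) (σ v) := by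
  obtain ⟨D1, hD1⟩ := numeric3
  refine ⟨max D1 128, fun D hD N hN hlogN G1 G2 hcol hdeg1 hdeg2 => ?_⟩
  have hDD1 : D1 ≤ D := (le_max_left _ _).trans hD
  have hD128 : 128 ≤ D := (le_max_right _ _).trans hD
  have hD0 : (0 : ℝ) < D := by
    have : 0 < D := by omega
    exact_mod_cast this
  have hN8 : 8 ≤ N := by
    have h1 : 128 ^ 10 ≤ D ^ 10 := Nat.pow_le_pow_left hD128 10
    have h2 : 8 ≤ 128 ^ 10 := by norm_num
    omega
  have hNpos : (0 : ℝ) < N := by
    have : 0 < N := by omega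
    exact_mod_cast this
  obtain ⟨c, hc, hcO, hcA⟩ := rebalance N D (by omega) hN8 G1 hcol hdeg1
  -- sizes
  obtain ⟨h, hh⟩ : ∃ h : ℕ, h = Fintype.card {v : Fin N // c v = true} := ⟨_, rfl⟩
  obtain ⟨nA, hnA⟩ : ∃ nA : ℕ, nA = Fintype.card {v : Fin N // c v = false} := ⟨_, rfl⟩
  have hh' : (univ.filter (fun v => c v = true)).card = h := by
    rw [hh, Fintype.card_subtype]
  have hnA' : (univ.filter (fun v => c v = false)).card = nA := by
    rw [hnA, Fintype.card_subtype]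
  rw [hh'] at hcO
  rw [hnA'] at hcA
  have hsum : h + nA = N := by
    have h1 := Finset.card_filter_add_card_filter_not (s := (univ : Finset (Fin N))) (fun v => c v = true)
    rw [Finset.card_univ, Fintype.card_fin, hh'] at h1
    have h2 : (univ.filter (fun v => ¬ c v = true)) = univ.filter (fun v => c v = false) := by
      ext v
      simp
    rw [h2, hnA'] at h1
    exact h1
  have hhpos : 0 < h := by omega
  have hnA8 : 16 * D ^ 8 ≤ nA := by
    have h1 : D ^ 10 ≤ 8 * D * nA := hN.trans hcA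
    have h2 : D * D ^ 9 ≤ D * (8 * nA) := by
      calc D * D ^ 9 = D ^ 10 := by ring
        _ ≤ 8 * D * nA := h1
        _ = D * (8 * nA) := by ring
    have h3 : D ^ 9 ≤ 8 * nA := Nat.le_of_mul_le_mul_left h2 (by omega)
    have h4 : 128 * D ^ 8 ≤ D ^ 9 := by
      calc 128 * D ^ 8 ≤ D * D ^ 8 := Nat.mul_le_mul_right _ hD128
        _ = D ^ 9 := by ring
    omega
  haveI : NeZero (D ^ 3) := ⟨by
    have : 0 < D ^ 3 := Nat.pow_pos (by omega)
    omega⟩
  have hD3 : 0 < D ^ 3 := Nat.pow_pos (by omega)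
  have hX : Fintype.card (ZMod (D ^ 3)) = D ^ 3 := ZMod.card _
  obtain ⟨k, hk⟩ : ∃ k : ℕ, k = nA / D ^ 3 := ⟨_, rfl⟩
  obtain ⟨r, hr⟩ : ∃ r : ℕ, r = nA % D ^ 3 := ⟨_, rfl⟩
  have hkr : nA = k * D ^ 3 + r := by
    rw [hk, hr, mul_comm]
    exact (Nat.div_add_mod nA (D ^ 3)).symm
  have hrlt : r < D ^ 3 := by rw [hr]; exact Nat.mod_lt _ hD3
  have hk16 : 16 * D ^ 5 ≤ k := by
    rw [hk, Nat.le_div_iff_mul_le hD3]
    calc 16 * D ^ 5 * D ^ 3 = 16 * D ^ 8 := by ring
      _ ≤ nA := hnA8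
  have hk4 : 4 * (D * D + 1) * (D ^ 3 + 1) ≤ k := by
    refine le_trans ?_ hk16
    have h1 : D * D + 1 ≤ 2 * D ^ 2 := by nlinarith
    have h2 : D ^ 3 + 1 ≤ 2 * D ^ 3 := by omega
    calc 4 * (D * D + 1) * (D ^ 3 + 1) ≤ 4 * (2 * D ^ 2) * (2 * D ^ 3) := by gcongr
      _ = 16 * D ^ 5 := by ring
  have hkpos : 0 < k := by
    have : 0 < D ^ 5 := Nat.pow_pos (by omega)
    omega
  haveI : Nonempty (Fin k) := ⟨⟨0, hkpos⟩⟩
  -- conflicts
  let conf : {v : Fin N // c v = false} → {v : Fin N // c v = false} → Prop :=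
    fun x y => ∃ w : Fin N, G1.Adj w x.1 ∧ G1.Adj w y.1
  have hdeg1' : ∀ v, (G1.neighborFinset v).card ≤ D := fun v => by
    rw [SimpleGraph.card_neighborFinset_eq_degree]; exact hdeg1 v
  have hconf : ∀ x, (univ.filter (fun y => y ≠ x ∧ conf x y)).card ≤ D * D := by
    intro x
    rw [← Finset.card_map (Function.Embedding.subtype _)]
    have h1 : ((univ.filter (fun y => y ≠ x ∧ conf x y)).map (Function.Embedding.subtype _)) ⊆
        (G1.neighborFinset x.1).biUnion (fun w => G1.neighborFinset w) := by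
      intro z hz
      obtain ⟨y, hy, rfl⟩ := Finset.mem_map.1 hz
      obtain ⟨_, _, w, hw1, hw2⟩ := Finset.mem_filter.1 hy
      rw [Finset.mem_biUnion]
      exact ⟨w, (SimpleGraph.mem_neighborFinset _ _ _).2 hw1.symm,
        (SimpleGraph.mem_neighborFinset _ _ _).2 hw2⟩
    refine (Finset.card_le_card h1).trans ?_
    refine (Finset.card_biUnion_le_card_mul _ _ D (fun w _ => hdeg1' w)).trans ?_
    exact Nat.mul_le_mul_right _ (hdeg1' x.1)
  obtain ⟨U, e, hUr, hU, he⟩ := guest_blocks (A := {v : Fin N // c v = false}) (X := ZMod (D ^ 3)) conf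
    (fun x y ⟨w, h1, h2⟩ => ⟨w, h2, h1⟩) (D * D) k r (fun x => by convert hconf x) (by rw [hX]; exact hD3)
    (by rw [hX]; exact hrlt) (by rw [hX, ← hnA]; exact hkr) (by rw [hX]; exact hk4)
  -- numbers
  obtain ⟨m, hm⟩ := hD1 D hDD1
  obtain ⟨C, hC⟩ : ∃ C : ℝ, C = Real.log D / 100 := ⟨_, rfl⟩
  obtain ⟨κ, hκ⟩ : ∃ κ : ℝ, κ = 6 * C / D := ⟨_, rfl⟩
  obtain ⟨a, ha⟩ : ∃ a : ℝ, a = 2 * C * h / D := ⟨_, rfl⟩
  obtain ⟨p, hp⟩ : ∃ p : ℝ, p = Real.exp (-(12 * C)) := ⟨_, rfl⟩
  obtain ⟨δ, hδ⟩ : ∃ δ : ℝ, δ = p / 4 := ⟨_, rfl⟩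
  obtain ⟨ee, hee⟩ : ∃ ee : ℝ, ee = (D : ℝ) * (D : ℝ) ^ 3 := ⟨_, rfl⟩
  obtain ⟨q1, hq1⟩ : ∃ q1 : ℝ, q1 = Real.exp (-(p * ((h : ℝ) / 2)) ^ 2 / (8 * D * a ^ 2)) := ⟨_, rfl⟩
  obtain ⟨q2, hq2⟩ : ∃ q2 : ℝ, q2 = Real.exp (-(p * (δ * (h : ℝ))) ^ 2 / (8 * D * a ^ 2)) := ⟨_, rfl⟩
  have hkD : k * D ^ 3 ≤ nA := by omega
  obtain ⟨hC1, hκ0, hκ1, ha0, ha2, hp0, hp1, hpκ, hf, N1, N2, N3⟩ := hm k h (hN.trans hcO)
    (by
      refine le_trans ?_ hlogN
      apply Real.log_le_log
      · exact_mod_cast hhpos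
      · have : h ≤ N := by omega
        exact_mod_cast this) hkpos (by omega) C κ a p δ q1 q2 ee hC hκ ha hp hδ hee hq1 hq2
  have hC0 : 0 ≤ C := by linarith
  -- host
  have hγ : ∀ v, ((G2.neighborFinset v).card : ℝ) ≤ C / D * (N : ℝ) := by
    intro v
    rw [SimpleGraph.card_neighborFinset_eq_degree]
    refine (hdeg2 v).trans (le_of_eq ?_)
    rw [hC]
    field_simp
  have hγa : C / D * (N : ℝ) ≤ a := by
    rw [ha]
    have h1 : (N : ℝ) ≤ 2 * h := by exact_mod_cast hcO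
    calc C / D * (N : ℝ) ≤ C / D * (2 * h) := by gcongr
      _ = 2 * C * h / D := by ring
  obtain ⟨t, ht⟩ : ∃ t : ℕ, t = ⌊6 * C / D * ((D ^ 3 : ℕ) : ℝ)⌋₊ + 1 := ⟨_, rfl⟩
  have hkN : k ≤ N := by
    have h1 : k * 1 ≤ k * D ^ 3 := Nat.mul_le_mul_left _ hD3
    omega
  obtain ⟨ψ, hψ⟩ := host_blocks (V := Fin N) (I := Fin k) (X := ZMod (D ^ 3))
    (fun v => G2.neighborFinset v) (C / D) (by positivity)
    (fun v => by rw [Fintype.card_fin]; exact hγ v)
    (by rw [Fintype.card_fin, Fintype.card_fin, hX]; omega) t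
    (by
      rw [Fintype.card_fin, Fintype.card_fin, hX]
      exact numeric4 D (by omega) C hC1 N k (by omega) hlogN hkN t ht)
  -- complement
  obtain ⟨comp, hcomp⟩ : ∃ comp : Finset (Fin N), comp = univ \ (univ.map ψ) := ⟨_, rfl⟩
  have hcompc : comp.card = h + r := by
    rw [hcomp, Finset.card_sdiff_of_subset (Finset.subset_univ _), Finset.card_univ, Fintype.card_fin,
      Finset.card_map, Finset.card_univ, Fintype.card_prod, Fintype.card_fin, hX]
    omega
  have hcompm : ∀ v, v ∈ comp → v ∉ Set.range ψ := by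
    intro v hv hv2
    rw [hcomp, Finset.mem_sdiff] at hv
    apply hv.2
    obtain ⟨x, rfl⟩ := hv2
    exact Finset.mem_map_of_mem _ (Finset.mem_univ _)
  obtain ⟨S, hSc, hSr⟩ := Finset.exists_subset_card_eq (s := comp) (n := r) (by omega)
  have hUS : Fintype.card {x // x ∈ U} = Fintype.card {x // x ∈ S} := by
    rw [Fintype.card_coe, Fintype.card_coe, hUr, hSr]
  let eU : {x // x ∈ U} ≃ {x // x ∈ S} := Fintype.equivOfCardEq hUS
  let xU : {v : Fin N // c v = false} → Fin N := fun u =>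
    if hu : u ∈ U then (eU ⟨u, hu⟩).1 else u.1
  have hxUS : ∀ u ∈ U, xU u ∈ S := by
    intro u hu
    show (if hu : u ∈ U then (eU ⟨u, hu⟩).1 else u.1) ∈ S
    rw [dif_pos hu]
    exact (eU ⟨u, hu⟩).2
  have hxUi : ∀ u ∈ U, ∀ u' ∈ U, xU u = xU u' → u = u' := by
    intro u hu u' hu' huu
    have h1 : xU u = (eU ⟨u, hu⟩).1 := dif_pos hu
    have h2 : xU u' = (eU ⟨u', hu'⟩).1 := dif_pos hu'
    rw [h1, h2] at huu
    have h3 := eU.injective (Subtype.ext huu)
    exact congrArg Subtype.val h3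
  have hRc : Fintype.card {v : Fin N // v ∈ comp \ S} = h := by
    rw [Fintype.card_coe, Finset.card_sdiff_of_subset hSc, hcompc, hSr]
    omega
  let P : {v : Fin N // c v = true} → Finset (Fin k × ZMod (D ^ 3)) := fun w =>
    (univ.filter (fun x : {x : {v : Fin N // c v = false} // x ∉ U} => G1.Adj w.1 x.1.1)).map
      e.toEmbedding
  let H : {v : Fin N // v ∈ comp \ S} → Finset (Fin k × ZMod (D ^ 3)) := fun v =>
    univ.filter (fun x => G2.Adj v.1 (ψ x))
  let F : {v : Fin N // c v = true} → Finset {v : Fin N // v ∈ comp \ S} := fun w =>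
    univ.filter (fun v => ∃ u ∈ U, G1.Adj w.1 u.1 ∧ G2.Adj v.1 (xU u))
  have memP : ∀ w x, x ∈ P w ↔ G1.Adj w.1 (e.symm x).1.1 := by
    intro w x
    show x ∈ (univ.filter (fun x : {x : {v : Fin N // c v = false} // x ∉ U} =>
      G1.Adj w.1 x.1.1)).map e.toEmbedding ↔ _
    rw [Finset.mem_map]
    constructor
    · rintro ⟨y, hy, rfl⟩
      have h1 := (Finset.mem_filter.1 hy).2
      show G1.Adj w.1 (e.symm (e y)).1.1
      rw [e.symm_apply_apply]
      exact h1
    · intro h1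
      exact ⟨e.symm x, Finset.mem_filter.2 ⟨Finset.mem_univ _, h1⟩, e.apply_symm_apply x⟩
  have memH : ∀ (v : {v : Fin N // v ∈ comp \ S}) x, x ∈ H v ↔ G2.Adj v.1 (ψ x) := by
    intro v x
    show x ∈ univ.filter (fun x => G2.Adj v.1 (ψ x)) ↔ _
    rw [Finset.mem_filter]
    simp
  have memF : ∀ (w : {v : Fin N // c v = true}) (v : {v : Fin N // v ∈ comp \ S}),
      v ∈ F w ↔ ∃ u ∈ U, G1.Adj w.1 u.1 ∧ G2.Adj v.1 (xU u) := by
    intro w v
    show v ∈ univ.filter (fun v : {v : Fin N // v ∈ comp \ S} =>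
      ∃ u ∈ U, G1.Adj w.1 u.1 ∧ G2.Adj v.1 (xU u)) ↔ _
    rw [Finset.mem_filter]
    simp
  obtain ⟨s, φ, hφ, hok⟩ := core2 (I := Fin k) (O := {v : Fin N // c v = true})
    (R := {v : Fin N // v ∈ comp \ S}) (X := ZMod (D ^ 3)) D m h (by omega) hhpos hh.symm hRc
    κ a p δ q1 q2 ee ((D : ℝ) ^ 4) hκ0 hκ1 ha0 ha2 hp0 hp1 hpκ hδ
    (by rw [hX, hee]; push_cast; ring) hf hq1 hq2 (by rw [hX]; exact N1) N2
    (by rw [Fintype.card_fin]; exact N3) P H F
    (by
      intro w
      show ((univ.filter (fun x : {x : {v : Fin N // c v = false} // x ∉ U} =>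
        G1.Adj w.1 x.1.1)).map e.toEmbedding).card ≤ D
      rw [Finset.card_map, ← Finset.card_map (Function.Embedding.subtype _),
        ← Finset.card_map (Function.Embedding.subtype _)]
      refine (Finset.card_le_card ?_).trans (hdeg1' w.1)
      intro x hx
      obtain ⟨y, hy, rfl⟩ := Finset.mem_map.1 hx
      obtain ⟨z, hz, rfl⟩ := Finset.mem_map.1 hy
      exact (SimpleGraph.mem_neighborFinset _ _ _).2 (Finset.mem_filter.1 hz).2)
    (by
      intro w x hx y hy hxy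
      rw [memP] at hx hy
      by_contra hne
      have h1 : e.symm x ≠ e.symm y := fun h1 => hne (e.symm.injective h1)
      refine he (e.symm x) (e.symm y) h1 ?_ ⟨w.1, hx, hy⟩
      rw [e.apply_symm_apply, e.apply_symm_apply]
      exact hxy)
    (by
      intro x
      rw [← Finset.card_map (Function.Embedding.subtype _)]
      refine (Finset.card_le_card ?_).trans (hdeg1' (e.symm x).1.1)
      intro z hz
      obtain ⟨w, hw, rfl⟩ := Finset.mem_map.1 hz
      have h1 := (memP w x).1 (Finset.mem_filter.1 hw).2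
      exact (SimpleGraph.mem_neighborFinset _ _ _).2 h1.symm)
    (by
      intro v i
      have h1 := hψ v.1 i
      have h2 : (univ.filter (fun j : ZMod (D ^ 3) => (i, j) ∈ H v)).card ≤
          (univ.filter (fun j : ZMod (D ^ 3) => ψ (i, j) ∈ G2.neighborFinset v.1)).card := by
        apply Finset.card_le_card
        intro j hj
        have h5 := (memH v (i, j)).1 (Finset.mem_filter.1 hj).2
        exact Finset.mem_filter.2 ⟨Finset.mem_univ _, (SimpleGraph.mem_neighborFinset _ _ _).2 h5⟩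
      rw [ht] at h1
      have h3 : (univ.filter (fun j : ZMod (D ^ 3) => (i, j) ∈ H v)).card ≤
          ⌊6 * C / D * ((D ^ 3 : ℕ) : ℝ)⌋₊ := h2.trans (Nat.lt_succ_iff.1 h1)
      rw [hκ, hX]
      have h4 : (0:ℝ) ≤ 6 * C / D * ((D ^ 3 : ℕ) : ℝ) := by positivity
      exact (Nat.cast_le.2 h3).trans (Nat.floor_le h4))
    (by
      intro x
      have h1 : (univ.filter (fun v : {v : Fin N // v ∈ comp \ S} => x ∈ H v)).card ≤
          (G2.neighborFinset (ψ x)).card := by
        rw [← Finset.card_map (Function.Embedding.subtype _)]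
        apply Finset.card_le_card
        intro z hz
        obtain ⟨v, hv, rfl⟩ := Finset.mem_map.1 hz
        have h1 := (memH v x).1 (Finset.mem_filter.1 hv).2
        exact (SimpleGraph.mem_neighborFinset _ _ _).2 h1.symm
      exact (Nat.cast_le.2 h1).trans ((hγ (ψ x)).trans hγa))
    (by
      intro w
      by_cases hw : ∃ u0 ∈ U, G1.Adj w.1 u0.1
      · obtain ⟨u0, hu0, hwu0⟩ := hw
        have h1 : (F w).card ≤ (G2.neighborFinset (xU u0)).card := by
          rw [← Finset.card_map (Function.Embedding.subtype _)]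
          apply Finset.card_le_card
          intro z hz
          obtain ⟨v, hv, rfl⟩ := Finset.mem_map.1 hz
          obtain ⟨u, hu, hwu, hvu⟩ := (memF w v).1 hv
          have h2 : u = u0 := by
            by_contra hne
            exact hU u hu u0 hu0 hne ⟨w.1, hwu, hwu0⟩
          rw [h2] at hvu
          exact (SimpleGraph.mem_neighborFinset _ _ _).2 hvu.symm
        exact (Nat.cast_le.2 h1).trans ((hγ (xU u0)).trans hγa)
      · have h1 : F w = ∅ := by
          rw [Finset.eq_empty_iff_forall_notMem]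
          intro v hv
          obtain ⟨u, hu, hwu, _⟩ := (memF w v).1 hv
          exact hw ⟨u, hu, hwu⟩
        rw [h1, Finset.card_empty, Nat.cast_zero]
        exact ha0.le)
    (by
      have h1 : (univ.filter (fun w => (F w).Nonempty)).card ≤ D ^ 4 := by
        rw [← Finset.card_map (Function.Embedding.subtype _)]
        have h2 : ((univ.filter (fun w => (F w).Nonempty)).map (Function.Embedding.subtype _)) ⊆
            U.biUnion (fun u => G1.neighborFinset u.1) := by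
          intro z hz
          obtain ⟨w, hw, rfl⟩ := Finset.mem_map.1 hz
          obtain ⟨v, hv⟩ := (Finset.mem_filter.1 hw).2
          obtain ⟨u, hu, hwu, _⟩ := (memF w v).1 hv
          rw [Finset.mem_biUnion]
          exact ⟨u, hu, (SimpleGraph.mem_neighborFinset _ _ _).2 hwu.symm⟩
        refine (Finset.card_le_card h2).trans ?_
        refine (Finset.card_biUnion_le_card_mul _ _ D (fun u _ => hdeg1' u.1)).trans ?_
        rw [hUr]
        calc r * D ≤ D ^ 3 * D := Nat.mul_le_mul_right _ hrlt.le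
          _ = D ^ 4 := by ring
      have h3 : (((univ.filter (fun w => (F w).Nonempty)).card : ℕ) : ℝ) ≤ ((D ^ 4 : ℕ) : ℝ) :=
        Nat.cast_le.2 h1
      rw [Nat.cast_pow] at h3
      exact h3)
  refine pack_transfer G1 G2 c hc U e ψ s xU hxUi (fun u hu => hcompm _ (hSc (hxUS u hu)))
    (fun w => (φ w).1) (fun w w' hww => hφ (Subtype.ext hww))
    (fun w => hcompm _ (Finset.mem_sdiff.1 (φ w).2).1)
    (fun w u hu hwu => (Finset.mem_sdiff.1 (φ w).2).2 (hwu ▸ hxUS u hu)) ?_ ?_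
  · intro w x hwx hadj
    have h1 : e x ∈ P w := by
      rw [memP, e.symm_apply_apply]
      exact hwx
    have h2 := (hok w).1 (e x) h1
    exact h2 ((memH _ _).2 hadj)
  · intro w u hu hwu hadj
    exact (hok w).2 ((memF _ _).2 ⟨u, hu, hwu, hadj⟩)

end Pool.Agent.QCube
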