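import Mathlib
import Pool.Agent.QCube.Core3
import Pool.Agent.QCube.Num3
import Pool.Agent.QCube.Host2
import Pool.Agent.QCube.Guest
import Pool.Agent.QCube.Cube
import Pool.Agent.QCube.Core2

set_option autoImplicit false

namespace Pool.Agent.QCube

open Finset

open Classical in
/-- final assembly (everything above may be used without proof); variant of job 35005 (`pack_bip`,
python3 jobs.py get 35005), whose solution can be adapted; there is no upper bound on N any more.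
`c` from `rebalance`; O = {v // c v = true} (card h, N ≤ 2h), A = {v // c v = false}
(card nA = N - h ≤ N/2, nA ≥ N/(8D)); X = ZMod (D^3) (card L = D^3); k = nA / L, r = nA % L;
conf x y := ∃ w, G1.Adj w x ∧ G1.Adj w y on A, each x has ≤ D*D conflicts; `guest_blocks` gives U, e;
Γ v = G2.neighborFinset v, γ = C/D with C = log D/200; `host_blocks2` with K = k, η = 1/D^3,
t = ⌊12C/D*D^3⌋+1 (`numeric6`) gives ψ.  Exc i = {v | t ≤ #{j | ψ (i,j) ∈ Γ v}}.  The complement of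
range ψ has h + r vertices; choose xU on U and R = the rest (card h).
P w = e-images of the vertices of A \ U adjacent to w; H v = {y | ψ y ∈ Γ v};
G w = {v ∈ R | ∃ u ∈ U, G1.Adj w u ∧ G2.Adj v (xU u)} ∪ {v ∈ R | ∃ x ∈ P w, v ∈ Exc x.1}:
|G w| ≤ a + D*(2ηN) = g1 (at most one u ∈ U is adjacent to w), and v ∈ G w for at most
|U|*D + #{i | v ∈ Exc i} * (D*L) ≤ D^4 + (log N + 4ηk)*e = g2 vertices w (`hit_bounds`).
If v ∉ G w and x ∈ P w then v ∉ Exc x.1 so #{j | (x.1,j) ∈ H v} ≤ t - 1 ≤ κ L, κ = 12C/D.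
`core3` (n := D, numeric facts from `numeric5`) gives s, φ; conclude by `pack_transfer`. -/
theorem pack_bip2 : ∃ D0 : ℕ, ∀ D : ℕ, D0 ≤ D → ∀ N : ℕ, D ^ 10 ≤ N →
      ∀ G1 G2 : SimpleGraph (Fin N), G1.Colorable 2 →
      (∀ v, G1.degree v ≤ D) →
      (∀ v, ((G2.degree v : ℕ) : ℝ) ≤ Real.log D / (200 * D) * N) →
      ∃ σ : Equiv.Perm (Fin N), ∀ u v, G1.Adj u v → ¬ G2.Adj (σ u) (σ v) := by
  obtain ⟨D1, hD1⟩ := numeric5
  refine ⟨max D1 128, fun D hD N hN G1 G2 hcol hdeg1 hdeg2 => ?_⟩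
  have hDD1 : D1 ≤ D := (le_max_left _ _).trans hD
  have hD128 : 128 ≤ D := (le_max_right _ _).trans hD
  have hD0 : (0 : ℝ) < D := by
    have : 0 < D := by omega
    exact_mod_cast this
  have hN8 : 8 ≤ N := by
    have h1 : 128 ^ 10 ≤ D ^ 10 := Nat.pow_le_pow_left hD128 10
    have h2 : 8 ≤ 128 ^ 10 := by norm_num
    omega
  have hNpos : (0 : ℝ) < N := by
    have : 0 < N := by omega
    exact_mod_cast this
  obtain ⟨c, hc, hcO, hcA⟩ := rebalance N D (by omega) hN8 G1 hcol hdeg1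
  -- sizes
  obtain ⟨h, hh⟩ : ∃ h : ℕ, h = Fintype.card {v : Fin N // c v = true} := ⟨_, rfl⟩
  obtain ⟨nA, hnA⟩ : ∃ nA : ℕ, nA = Fintype.card {v : Fin N // c v = false} := ⟨_, rfl⟩
  have hh' : (univ.filter (fun v => c v = true)).card = h := by
    rw [hh, Fintype.card_subtype]
  have hnA' : (univ.filter (fun v => c v = false)).card = nA := by
    rw [hnA, Fintype.card_subtype]
  rw [hh'] at hcO
  rw [hnA'] at hcA
  have hsum : h + nA = N := by
    have h1 := Finset.card_filter_add_card_filter_not (s := (univ : Finset (Fin N))) (fun v => c v = true)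
    rw [Finset.card_univ, Fintype.card_fin, hh'] at h1
    have h2 : (univ.filter (fun v => ¬ c v = true)) = univ.filter (fun v => c v = false) := by
      ext v
      simp
    rw [h2, hnA'] at h1
    exact h1
  have hhpos : 0 < h := by omega
  have hnA8 : 16 * D ^ 8 ≤ nA := by
    have h1 : D ^ 10 ≤ 8 * D * nA := hN.trans hcA
    have h2 : D * D ^ 9 ≤ D * (8 * nA) := by
      calc D * D ^ 9 = D ^ 10 := by ring
        _ ≤ 8 * D * nA := h1
        _ = D * (8 * nA) := by ring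
    have h3 : D ^ 9 ≤ 8 * nA := Nat.le_of_mul_le_mul_left h2 (by omega)
    have h4 : 128 * D ^ 8 ≤ D ^ 9 := by
      calc 128 * D ^ 8 ≤ D * D ^ 8 := Nat.mul_le_mul_right _ hD128
        _ = D ^ 9 := by ring
    omega
  haveI : NeZero (D ^ 3) := ⟨by
    have : 0 < D ^ 3 := Nat.pow_pos (by omega)
    omega⟩
  have hD3 : 0 < D ^ 3 := Nat.pow_pos (by omega)
  have hX : Fintype.card (ZMod (D ^ 3)) = D ^ 3 := ZMod.card _
  obtain ⟨k, hk⟩ : ∃ k : ℕ, k = nA / D ^ 3 := ⟨_, rfl⟩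
  obtain ⟨r, hr⟩ : ∃ r : ℕ, r = nA % D ^ 3 := ⟨_, rfl⟩
  have hkr : nA = k * D ^ 3 + r := by
    rw [hk, hr, mul_comm]
    exact (Nat.div_add_mod nA (D ^ 3)).symm
  have hrlt : r < D ^ 3 := by rw [hr]; exact Nat.mod_lt _ hD3
  have hk16 : 16 * D ^ 5 ≤ k := by
    rw [hk, Nat.le_div_iff_mul_le hD3]
    calc 16 * D ^ 5 * D ^ 3 = 16 * D ^ 8 := by ring
      _ ≤ nA := hnA8
  have hk4 : 4 * (D * D + 1) * (D ^ 3 + 1) ≤ k := by
    refine le_trans ?_ hk16
    have h1 : D * D + 1 ≤ 2 * D ^ 2 := by nlinarith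
    have h2 : D ^ 3 + 1 ≤ 2 * D ^ 3 := by omega
    calc 4 * (D * D + 1) * (D ^ 3 + 1) ≤ 4 * (2 * D ^ 2) * (2 * D ^ 3) := by gcongr
      _ = 16 * D ^ 5 := by ring
  have hkpos : 0 < k := by
    have : 0 < D ^ 5 := Nat.pow_pos (by omega)
    omega
  haveI : Nonempty (Fin k) := ⟨⟨0, hkpos⟩⟩
  -- conflicts
  let conf : {v : Fin N // c v = false} → {v : Fin N // c v = false} → Prop :=
    fun x y => ∃ w : Fin N, G1.Adj w x.1 ∧ G1.Adj w y.1
  have hdeg1' : ∀ v, (G1.neighborFinset v).card ≤ D := fun v => by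
    rw [SimpleGraph.card_neighborFinset_eq_degree]; exact hdeg1 v
  have hconf : ∀ x, (univ.filter (fun y => y ≠ x ∧ conf x y)).card ≤ D * D := by
    intro x
    rw [← Finset.card_map (Function.Embedding.subtype _)]
    have h1 : ((univ.filter (fun y => y ≠ x ∧ conf x y)).map (Function.Embedding.subtype _)) ⊆
        (G1.neighborFinset x.1).biUnion (fun w => G1.neighborFinset w) := by
      intro z hz
      obtain ⟨y, hy, rfl⟩ := Finset.mem_map.1 hz
      obtain ⟨_, _, w, hw1, hw2⟩ := Finset.mem_filter.1 hy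
      rw [Finset.mem_biUnion]
      exact ⟨w, (SimpleGraph.mem_neighborFinset _ _ _).2 hw1.symm,
        (SimpleGraph.mem_neighborFinset _ _ _).2 hw2⟩
    refine (Finset.card_le_card h1).trans ?_
    refine (Finset.card_biUnion_le_card_mul _ _ D (fun w _ => hdeg1' w)).trans ?_
    exact Nat.mul_le_mul_right _ (hdeg1' x.1)
  obtain ⟨U, e, hUr, hU, he⟩ := guest_blocks (A := {v : Fin N // c v = false}) (X := ZMod (D ^ 3)) conf
    (fun x y ⟨w, h1, h2⟩ => ⟨w, h2, h1⟩) (D * D) k r (fun x => by convert hconf x) (by rw [hX]; exact hD3)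
    (by rw [hX]; exact hrlt) (by rw [hX, ← hnA]; exact hkr) (by rw [hX]; exact hk4)
  -- numbers
  obtain ⟨m, hm⟩ := hD1 D hDD1
  obtain ⟨C, hC⟩ : ∃ C : ℝ, C = Real.log D / 200 := ⟨_, rfl⟩
  obtain ⟨κ, hκ⟩ : ∃ κ : ℝ, κ = 12 * C / D := ⟨_, rfl⟩
  obtain ⟨a, ha⟩ : ∃ a : ℝ, a = 2 * C * h / D := ⟨_, rfl⟩
  obtain ⟨p, hp⟩ : ∃ p : ℝ, p = Real.exp (-(24 * C)) := ⟨_, rfl⟩
  obtain ⟨δ, hδ⟩ : ∃ δ : ℝ, δ = p / 4 := ⟨_, rfl⟩
  obtain ⟨ee, hee⟩ : ∃ ee : ℝ, ee = (D : ℝ) * (D : ℝ) ^ 3 := ⟨_, rfl⟩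
  obtain ⟨q1, hq1⟩ : ∃ q1 : ℝ, q1 = Real.exp (-(p * ((h : ℝ) / 2)) ^ 2 / (8 * D * a ^ 2)) := ⟨_, rfl⟩
  obtain ⟨q2, hq2⟩ : ∃ q2 : ℝ, q2 = Real.exp (-(p * (δ * (h : ℝ) / 2)) ^ 2 / (8 * D * a ^ 2)) := ⟨_, rfl⟩
  have hkD : k * D ^ 3 ≤ nA := by omega
  have hhN : h ≤ N := by omega
  obtain ⟨hC1, hκ0, hκ1, ha0, hp0, hp1, hpκ, hg1, hg2, N1, N2, N3⟩ := hm k h N hN hcO hhN
    hkpos (by omega) C κ a p δ q1 q2 ee hC hκ ha hp hδ hee hq1 hq2
  have hC0 : 0 ≤ C := by linarith
  -- host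
  have hγ : ∀ v, ((G2.neighborFinset v).card : ℝ) ≤ C / D * (N : ℝ) := by
    intro v
    rw [SimpleGraph.card_neighborFinset_eq_degree]
    refine (hdeg2 v).trans (le_of_eq ?_)
    rw [hC]
    field_simp
  have hγa : C / D * (N : ℝ) ≤ a := by
    rw [ha]
    have h1 : (N : ℝ) ≤ 2 * h := by exact_mod_cast hcO
    calc C / D * (N : ℝ) ≤ C / D * (2 * h) := by gcongr
      _ = 2 * C * h / D := by ring
  obtain ⟨t, ht⟩ : ∃ t : ℕ, t = ⌊12 * C / D * ((D ^ 3 : ℕ) : ℝ)⌋₊ + 1 := ⟨_, rfl⟩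
  have hkN : k ≤ N := by
    have h1 : k * 1 ≤ k * D ^ 3 := Nat.mul_le_mul_left _ hD3
    omega
  obtain ⟨ψ, hψ1, hψ2⟩ := host_blocks2 (V := Fin N) (X := ZMod (D ^ 3))
    (fun v => G2.neighborFinset v) (C / D) (1 / (D : ℝ) ^ 3) (by positivity) (by positivity)
    (fun v => by rw [Fintype.card_fin]; exact hγ v) k
    (by rw [Fintype.card_fin, hX]; omega) (by rw [Fintype.card_fin]; omega) t
    (by
      rw [hX]
      exact numeric6 D (by omega) C hC1 t ht)
  rw [Fintype.card_fin] at hψ1 hψ2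
  -- complement
  obtain ⟨comp, hcomp⟩ : ∃ comp : Finset (Fin N), comp = univ \ (univ.map ψ) := ⟨_, rfl⟩
  have hcompc : comp.card = h + r := by
    rw [hcomp, Finset.card_sdiff_of_subset (Finset.subset_univ _), Finset.card_univ, Fintype.card_fin,
      Finset.card_map, Finset.card_univ, Fintype.card_prod, Fintype.card_fin, hX]
    omega
  have hcompm : ∀ v, v ∈ comp → v ∉ Set.range ψ := by
    intro v hv hv2
    rw [hcomp, Finset.mem_sdiff] at hv
    apply hv.2
    obtain ⟨x, rfl⟩ := hv2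
    exact Finset.mem_map_of_mem _ (Finset.mem_univ _)
  obtain ⟨S, hSc, hSr⟩ := Finset.exists_subset_card_eq (s := comp) (n := r) (by omega)
  have hUS : Fintype.card {x // x ∈ U} = Fintype.card {x // x ∈ S} := by
    rw [Fintype.card_coe, Fintype.card_coe, hUr, hSr]
  let eU : {x // x ∈ U} ≃ {x // x ∈ S} := Fintype.equivOfCardEq hUS
  let xU : {v : Fin N // c v = false} → Fin N := fun u =>
    if hu : u ∈ U then (eU ⟨u, hu⟩).1 else u.1
  have hxUS : ∀ u ∈ U, xU u ∈ S := by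
    intro u hu
    show (if hu : u ∈ U then (eU ⟨u, hu⟩).1 else u.1) ∈ S
    rw [dif_pos hu]
    exact (eU ⟨u, hu⟩).2
  have hxUi : ∀ u ∈ U, ∀ u' ∈ U, xU u = xU u' → u = u' := by
    intro u hu u' hu' huu
    have h1 : xU u = (eU ⟨u, hu⟩).1 := dif_pos hu
    have h2 : xU u' = (eU ⟨u', hu'⟩).1 := dif_pos hu'
    rw [h1, h2] at huu
    have h3 := eU.injective (Subtype.ext huu)
    exact congrArg Subtype.val h3
  have hRc : Fintype.card {v : Fin N // v ∈ comp \ S} = h := by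
    rw [Fintype.card_coe, Finset.card_sdiff_of_subset hSc, hcompc, hSr]
    omega
  let P : {v : Fin N // c v = true} → Finset (Fin k × ZMod (D ^ 3)) := fun w =>
    (univ.filter (fun x : {x : {v : Fin N // c v = false} // x ∉ U} => G1.Adj w.1 x.1.1)).map
      e.toEmbedding
  let H : {v : Fin N // v ∈ comp \ S} → Finset (Fin k × ZMod (D ^ 3)) := fun v =>
    univ.filter (fun x => G2.Adj v.1 (ψ x))
  let F : {v : Fin N // c v = true} → Finset {v : Fin N // v ∈ comp \ S} := fun w =>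
    univ.filter (fun v => ∃ u ∈ U, G1.Adj w.1 u.1 ∧ G2.Adj v.1 (xU u))
  have memP : ∀ w x, x ∈ P w ↔ G1.Adj w.1 (e.symm x).1.1 := by
    intro w x
    show x ∈ (univ.filter (fun x : {x : {v : Fin N // c v = false} // x ∉ U} =>
      G1.Adj w.1 x.1.1)).map e.toEmbedding ↔ _
    rw [Finset.mem_map]
    constructor
    · rintro ⟨y, hy, rfl⟩
      have h1 := (Finset.mem_filter.1 hy).2
      show G1.Adj w.1 (e.symm (e y)).1.1
      rw [e.symm_apply_apply]
      exact h1
    · intro h1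
      exact ⟨e.symm x, Finset.mem_filter.2 ⟨Finset.mem_univ _, h1⟩, e.apply_symm_apply x⟩
  have memH : ∀ (v : {v : Fin N // v ∈ comp \ S}) x, x ∈ H v ↔ G2.Adj v.1 (ψ x) := by
    intro v x
    show x ∈ univ.filter (fun x => G2.Adj v.1 (ψ x)) ↔ _
    rw [Finset.mem_filter]
    simp
  have memF : ∀ (w : {v : Fin N // c v = true}) (v : {v : Fin N // v ∈ comp \ S}),
      v ∈ F w ↔ ∃ u ∈ U, G1.Adj w.1 u.1 ∧ G2.Adj v.1 (xU u) := by
    intro w v
    show v ∈ univ.filter (fun v : {v : Fin N // v ∈ comp \ S} =>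
      ∃ u ∈ U, G1.Adj w.1 u.1 ∧ G2.Adj v.1 (xU u)) ↔ _
    rw [Finset.mem_filter]
    simp
  let G : {v : Fin N // c v = true} → Finset {v : Fin N // v ∈ comp \ S} := fun w =>
    univ.filter (fun v => v ∈ F w ∨ ∃ x ∈ P w,
      t ≤ (univ.filter (fun j : ZMod (D ^ 3) => ψ (x.1, j) ∈ G2.neighborFinset v.1)).card)
  have memG : ∀ (w : {v : Fin N // c v = true}) (v : {v : Fin N // v ∈ comp \ S}),
      v ∈ G w ↔ (v ∈ F w ∨ ∃ x ∈ P w,
      t ≤ (univ.filter (fun j : ZMod (D ^ 3) => ψ (x.1, j) ∈ G2.neighborFinset v.1)).card) := by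
    intro w v
    show v ∈ univ.filter (fun v : {v : Fin N // v ∈ comp \ S} => v ∈ F w ∨ ∃ x ∈ P w,
      t ≤ (univ.filter (fun j : ZMod (D ^ 3) => ψ (x.1, j) ∈ G2.neighborFinset v.1)).card) ↔ _
    rw [Finset.mem_filter]
    exact ⟨fun h => h.2, fun h => ⟨Finset.mem_univ _, h⟩⟩
  have hPn : ∀ w, (P w).card ≤ D := by
    intro w
    show ((univ.filter (fun x : {x : {v : Fin N // c v = false} // x ∉ U} =>
      G1.Adj w.1 x.1.1)).map e.toEmbedding).card ≤ D
    rw [Finset.card_map, ← Finset.card_map (Function.Embedding.subtype _),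
      ← Finset.card_map (Function.Embedding.subtype _)]
    refine (Finset.card_le_card ?_).trans (hdeg1' w.1)
    intro x hx
    obtain ⟨y, hy, rfl⟩ := Finset.mem_map.1 hx
    obtain ⟨z, hz, rfl⟩ := Finset.mem_map.1 hy
    exact (SimpleGraph.mem_neighborFinset _ _ _).2 (Finset.mem_filter.1 hz).2
  have hP3 : ∀ x : Fin k × ZMod (D ^ 3), (univ.filter (fun w => x ∈ P w)).card ≤ D := by
    intro x
    rw [← Finset.card_map (Function.Embedding.subtype _)]
    refine (Finset.card_le_card ?_).trans (hdeg1' (e.symm x).1.1)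
    intro z hz
    obtain ⟨w, hw, rfl⟩ := Finset.mem_map.1 hz
    have h1 := (memP w x).1 (Finset.mem_filter.1 hw).2
    exact (SimpleGraph.mem_neighborFinset _ _ _).2 h1.symm
  have hF1 : ∀ w, ((F w).card : ℝ) ≤ a := by
    intro w
    by_cases hw : ∃ u0 ∈ U, G1.Adj w.1 u0.1
    · obtain ⟨u0, hu0, hwu0⟩ := hw
      have h1 : (F w).card ≤ (G2.neighborFinset (xU u0)).card := by
        rw [← Finset.card_map (Function.Embedding.subtype _)]
        apply Finset.card_le_card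
        intro z hz
        obtain ⟨v, hv, rfl⟩ := Finset.mem_map.1 hz
        obtain ⟨u, hu, hwu, hvu⟩ := (memF w v).1 hv
        have h2 : u = u0 := by
          by_contra hne
          exact hU u hu u0 hu0 hne ⟨w.1, hwu, hwu0⟩
        rw [h2] at hvu
        exact (SimpleGraph.mem_neighborFinset _ _ _).2 hvu.symm
      exact (Nat.cast_le.2 h1).trans ((hγ (xU u0)).trans hγa)
    · have h1 : F w = ∅ := by
        rw [Finset.eq_empty_iff_forall_notMem]
        intro v hv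
        obtain ⟨u, hu, hwu, _⟩ := (memF w v).1 hv
        exact hw ⟨u, hu, hwu⟩
      rw [h1, Finset.card_empty, Nat.cast_zero]
      exact ha0.le
  have hF2 : ((univ.filter (fun w => (F w).Nonempty)).card : ℝ) ≤ (D : ℝ) ^ 4 := by
    have h1 : (univ.filter (fun w => (F w).Nonempty)).card ≤ D ^ 4 := by
      rw [← Finset.card_map (Function.Embedding.subtype _)]
      have h2 : ((univ.filter (fun w => (F w).Nonempty)).map (Function.Embedding.subtype _)) ⊆
          U.biUnion (fun u => G1.neighborFinset u.1) := by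
        intro z hz
        obtain ⟨w, hw, rfl⟩ := Finset.mem_map.1 hz
        obtain ⟨v, hv⟩ := (Finset.mem_filter.1 hw).2
        obtain ⟨u, hu, hwu, _⟩ := (memF w v).1 hv
        rw [Finset.mem_biUnion]
        exact ⟨u, hu, (SimpleGraph.mem_neighborFinset _ _ _).2 hwu.symm⟩
      refine (Finset.card_le_card h2).trans ?_
      refine (Finset.card_biUnion_le_card_mul _ _ D (fun u _ => hdeg1' u.1)).trans ?_
      rw [hUr]
      calc r * D ≤ D ^ 3 * D := Nat.mul_le_mul_right _ hrlt.le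
        _ = D ^ 4 := by ring
    have h3 : (((univ.filter (fun w => (F w).Nonempty)).card : ℕ) : ℝ) ≤ ((D ^ 4 : ℕ) : ℝ) :=
      Nat.cast_le.2 h1
    rw [Nat.cast_pow] at h3
    exact h3
  have hG1 : ∀ w, ((G w).card : ℝ) ≤ a + (D : ℝ) * (2 * (1 / (D : ℝ) ^ 3) * N) := by
    intro w
    have h1 : (G w) ⊆ F w ∪ (P w).biUnion (fun x => univ.filter (fun v : {v : Fin N // v ∈ comp \ S} =>
        t ≤ (univ.filter (fun j : ZMod (D ^ 3) => ψ (x.1, j) ∈ G2.neighborFinset v.1)).card)) := by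
      intro v hv
      rw [Finset.mem_union]
      rcases (memG w v).1 hv with h | ⟨x, hx, h⟩
      · exact Or.inl h
      · refine Or.inr (Finset.mem_biUnion.2 ⟨x, hx, Finset.mem_filter.2 ⟨Finset.mem_univ _, h⟩⟩)
    have hexc : ∀ x ∈ P w, ((univ.filter (fun v : {v : Fin N // v ∈ comp \ S} =>
        t ≤ (univ.filter (fun j : ZMod (D ^ 3) => ψ (x.1, j) ∈ G2.neighborFinset v.1)).card)).card : ℝ)
        ≤ 2 * (1 / (D : ℝ) ^ 3) * N := by
      intro x _
      refine le_trans ?_ (hψ1 x.1)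
      rw [← Finset.card_map (Function.Embedding.subtype _)]
      apply Nat.cast_le.2
      apply Finset.card_le_card
      intro z hz
      obtain ⟨v, hv, rfl⟩ := Finset.mem_map.1 hz
      exact Finset.mem_filter.2 ⟨Finset.mem_univ _, (Finset.mem_filter.1 hv).2⟩
    have h2 : ((G w).card : ℝ) ≤ ((F w).card : ℝ) + ∑ x ∈ P w,
        ((univ.filter (fun v : {v : Fin N // v ∈ comp \ S} =>
        t ≤ (univ.filter (fun j : ZMod (D ^ 3) => ψ (x.1, j) ∈ G2.neighborFinset v.1)).card)).card : ℝ) := by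
      have h3 := (Finset.card_le_card h1).trans ((Finset.card_union_le _ _).trans
        (Nat.add_le_add_left Finset.card_biUnion_le _))
      have h4 := (Nat.cast_le (α := ℝ)).2 h3
      push_cast at h4
      exact h4
    have h5 := Finset.sum_le_sum hexc
    rw [Finset.sum_const, nsmul_eq_mul] at h5
    have h6 : ((P w).card : ℝ) * (2 * (1 / (D : ℝ) ^ 3) * N) ≤ (D : ℝ) * (2 * (1 / (D : ℝ) ^ 3) * N) := by
      apply mul_le_mul_of_nonneg_right _ (by positivity)
      exact_mod_cast hPn w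
    linarith [hF1 w]
  obtain ⟨hit1, -⟩ := hit_bounds P D hPn hP3
  have hG2 : ∀ v, ((univ.filter (fun w => v ∈ G w)).card : ℝ) ≤
      (D : ℝ) ^ 4 + (Real.log N + 4 * (1 / (D : ℝ) ^ 3) * (k : ℝ)) * ee := by
    intro v
    have h1 : (univ.filter (fun w => v ∈ G w)) ⊆ (univ.filter (fun w => (F w).Nonempty)) ∪
        (univ.filter (fun i : Fin k => t ≤ (univ.filter (fun j : ZMod (D ^ 3) =>
          ψ (i, j) ∈ G2.neighborFinset v.1)).card)).biUnion
          (fun i => univ.filter (fun w => ∃ x ∈ P w, x.1 = i)) := by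
      intro w hw
      rw [Finset.mem_union]
      rcases (memG w v).1 (Finset.mem_filter.1 hw).2 with h | ⟨x, hx, h⟩
      · exact Or.inl (Finset.mem_filter.2 ⟨Finset.mem_univ _, ⟨v, h⟩⟩)
      · exact Or.inr (Finset.mem_biUnion.2 ⟨x.1, Finset.mem_filter.2 ⟨Finset.mem_univ _, h⟩,
          Finset.mem_filter.2 ⟨Finset.mem_univ _, ⟨x, hx, rfl⟩⟩⟩)
    have h2 : (univ.filter (fun w => v ∈ G w)).card ≤ (univ.filter (fun w => (F w).Nonempty)).card +
        (univ.filter (fun i : Fin k => t ≤ (univ.filter (fun j : ZMod (D ^ 3) =>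
          ψ (i, j) ∈ G2.neighborFinset v.1)).card)).card * (D * D ^ 3) := by
      refine (Finset.card_le_card h1).trans ((Finset.card_union_le _ _).trans
        (Nat.add_le_add_left ?_ _))
      refine Finset.card_biUnion_le_card_mul _ _ _ (fun i _ => ?_)
      have := hit1 i
      rw [hX] at this
      exact this
    have h3 := (Nat.cast_le (α := ℝ)).2 h2
    push_cast at h3
    have h4 : ((univ.filter (fun i : Fin k => t ≤ (univ.filter (fun j : ZMod (D ^ 3) =>
          ψ (i, j) ∈ G2.neighborFinset v.1)).card)).card : ℝ) * ((D : ℝ) * (D : ℝ) ^ 3) ≤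
          (Real.log N + 4 * (1 / (D : ℝ) ^ 3) * (k : ℝ)) * ee := by
      rw [hee]
      exact mul_le_mul_of_nonneg_right (hψ2 v.1) (by positivity)
    linarith
  obtain ⟨s, φ, hφ, hok⟩ := core3 (I := Fin k) (O := {v : Fin N // c v = true})
    (R := {v : Fin N // v ∈ comp \ S}) (X := ZMod (D ^ 3)) D m h (by omega) hhpos hh.symm hRc
    κ a p δ q1 q2 ee (a + (D : ℝ) * (2 * (1 / (D : ℝ) ^ 3) * N))
    ((D : ℝ) ^ 4 + (Real.log N + 4 * (1 / (D : ℝ) ^ 3) * (k : ℝ)) * ee) hκ0 hκ1 ha0 hp0 hp1 hpκ hδ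
    (by rw [hX, hee]; push_cast; ring) hg1 hg2 hq1 hq2 (by rw [hX]; exact N1) N2
    (by rw [Fintype.card_fin]; exact N3) P H G hPn
    (by
      intro w x hx y hy hxy
      rw [memP] at hx hy
      by_contra hne
      have h1 : e.symm x ≠ e.symm y := fun h1 => hne (e.symm.injective h1)
      refine he (e.symm x) (e.symm y) h1 ?_ ⟨w.1, hx, hy⟩
      rw [e.apply_symm_apply, e.apply_symm_apply]
      exact hxy)
    hP3
    (by
      intro w v hvG x hx
      have h1 : (univ.filter (fun j : ZMod (D ^ 3) => ψ (x.1, j) ∈ G2.neighborFinset v.1)).card < t := by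
        by_contra hcon
        exact hvG ((memG w v).2 (Or.inr ⟨x, hx, not_lt.1 hcon⟩))
      have h2 : (univ.filter (fun j : ZMod (D ^ 3) => (x.1, j) ∈ H v)).card ≤
          (univ.filter (fun j : ZMod (D ^ 3) => ψ (x.1, j) ∈ G2.neighborFinset v.1)).card := by
        apply Finset.card_le_card
        intro j hj
        have h5 := (memH v (x.1, j)).1 (Finset.mem_filter.1 hj).2
        exact Finset.mem_filter.2 ⟨Finset.mem_univ _, (SimpleGraph.mem_neighborFinset _ _ _).2 h5⟩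
      rw [ht] at h1
      have h3 : (univ.filter (fun j : ZMod (D ^ 3) => (x.1, j) ∈ H v)).card ≤
          ⌊12 * C / D * ((D ^ 3 : ℕ) : ℝ)⌋₊ := h2.trans (Nat.lt_succ_iff.1 h1)
      rw [hκ, hX]
      have h4 : (0:ℝ) ≤ 12 * C / D * ((D ^ 3 : ℕ) : ℝ) := by positivity
      exact (Nat.cast_le.2 h3).trans (Nat.floor_le h4))
    (by
      intro x
      have h1 : (univ.filter (fun v : {v : Fin N // v ∈ comp \ S} => x ∈ H v)).card ≤
          (G2.neighborFinset (ψ x)).card := by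
        rw [← Finset.card_map (Function.Embedding.subtype _)]
        apply Finset.card_le_card
        intro z hz
        obtain ⟨v, hv, rfl⟩ := Finset.mem_map.1 hz
        have h1 := (memH v x).1 (Finset.mem_filter.1 hv).2
        exact (SimpleGraph.mem_neighborFinset _ _ _).2 h1.symm
      exact (Nat.cast_le.2 h1).trans ((hγ (ψ x)).trans hγa))
    hG1 hG2
  refine pack_transfer G1 G2 c hc U e ψ s xU hxUi (fun u hu => hcompm _ (hSc (hxUS u hu)))
    (fun w => (φ w).1) (fun w w' hww => hφ (Subtype.ext hww))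
    (fun w => hcompm _ (Finset.mem_sdiff.1 (φ w).2).1)
    (fun w u hu hwu => (Finset.mem_sdiff.1 (φ w).2).2 (hwu ▸ hxUS u hu)) ?_ ?_
  · intro w x hwx hadj
    have h1 : e x ∈ P w := by
      rw [memP, e.symm_apply_apply]
      exact hwx
    have h2 := (hok w).1 (e x) h1
    exact h2 ((memH _ _).2 hadj)
  · intro w u hu hwu hadj
    exact (hok w).2 ((memG _ _).2 (Or.inl ((memF _ _).2 ⟨u, hu, hwu, hadj⟩)))

end Pool.Agent.QCube
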